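import Mathlib
import Pool.Agent.R439.FD.Alt
import Pool.Agent.R488.Cub.Harm

set_option autoImplicit false

/-!
Exact identities for MP_c35bdc_nt.
-/

namespace Pool.Agent.K1H59.SC

open Finset Pool.Agent.R439.PL
open Pool.Agent.R488.Cub (gb H)

theorem gb_zero (a : ℚ) : gb a 0 = 1 := by simp [gb]

theorem gb_succ (a : ℚ) (k : ℕ) : gb a (k + 1) * ((k : ℚ) + 1) = gb a k * (a - k) := by
  have h1 : (k.factorial : ℚ) ≠ 0 := by positivity
  have h2 : (k : ℚ) + 1 ≠ 0 := by positivity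
  rw [gb, gb, prod_range_succ, Nat.factorial_succ]
  push_cast
  field_simp

theorem gb_nat (m k : ℕ) : gb (m : ℚ) k = (m.choose k : ℚ) := by
  induction k with
  | zero => simp [gb]
  | succ k ih =>
    have h1 := gb_succ (m : ℚ) k
    have h2 := Nat.choose_succ_right_eq m k
    have h3 : (k : ℚ) + 1 ≠ 0 := by positivity
    apply mul_right_cancel₀ h3
    rw [h1, ih]
    by_cases h : k ≤ m
    · have h4 : ((m.choose (k + 1) * (k + 1) : ℕ) : ℚ) = ((m.choose k * (m - k) : ℕ) : ℚ) := by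
        exact_mod_cast h2
      push_cast [Nat.cast_sub h] at h4
      exact h4.symm
    · rw [Nat.choose_eq_zero_of_lt (by omega : m < k), Nat.choose_eq_zero_of_lt (by omega : m < k + 1)]
      simp

/-- `C(m+1,k) (m+1-k) = C(m,k) (m+1)` -/
theorem ch_up (m k : ℕ) : (m.choose k : ℚ) * ((m : ℚ) + 1) =
    ((m + 1).choose k : ℚ) * ((m : ℚ) + 1 - k) := by
  rw [← gb_nat, ← gb_nat]
  induction k with
  | zero => simp [gb]
  | succ k ih =>
    have h1 := gb_succ (m : ℚ) k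
    have h2 := gb_succ ((m + 1 : ℕ) : ℚ) k
    have h3 : (k : ℚ) + 1 ≠ 0 := by positivity
    apply mul_right_cancel₀ h3
    push_cast at h2 ih ⊢
    linear_combination ((m : ℚ) + 1) * h1 - ((m : ℚ) - k) * h2 + ((m : ℚ) - k) * ih

theorem ch_right (m k : ℕ) : (m.choose (k + 1) : ℚ) * ((k : ℚ) + 1) =
    (m.choose k : ℚ) * ((m : ℚ) - k) := by
  rw [← gb_nat, ← gb_nat]
  exact gb_succ _ _

/-- `C(-1/2,k) 2^k` -/
def w (k : ℕ) : ℚ := gb (-1 / 2) k * 2 ^ k

theorem w_succ (k : ℕ) : w (k + 1) * ((k : ℚ) + 1) = -(2 * k + 1) * w k := by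
  have h := gb_succ (-1 / 2) k
  rw [w, w, pow_succ]
  linear_combination (2 * 2 ^ k) * h

/-- `C(2j,j)/4^j` -/
def b (j : ℕ) : ℚ := (-1) ^ j * gb (-1 / 2) j

theorem b_zero : b 0 = 1 := by simp [b, gb]

theorem b_succ (j : ℕ) : b (j + 1) * (2 * (j : ℚ) + 2) = (2 * j + 1) * b j := by
  have h := gb_succ (-1 / 2) j
  rw [b, b, pow_succ]
  linear_combination (-2 * (-1) ^ j) * h

/-- `∑_k C(m,k) C(-1/2,k) 2^k` -/
def fA (m : ℕ) : ℚ := ∑ k ∈ range (m + 1), (m.choose k : ℚ) * w k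

theorem fA_ext (m N : ℕ) (h : m < N) : ∑ k ∈ range N, (m.choose k : ℚ) * w k = fA m := by
  rw [fA]
  symm
  apply sum_subset
  · intro x hx
    rw [mem_range] at *
    omega
  · intro x _ hx
    rw [mem_range] at hx
    rw [Nat.choose_eq_zero_of_lt (by omega)]
    simp

theorem fA_rec (m : ℕ) : ((m : ℚ) + 2) * fA (m + 2) = ((m : ℚ) + 1) * fA m := by
  have c1 : (m : ℚ) + 1 ≠ 0 := by positivity
  have c2 : (m : ℚ) + 2 ≠ 0 := by positivity
  have h1 : ∀ k : ℕ, ((m : ℚ) + 2) * (((m + 2).choose k : ℚ) * w k) -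
      ((m : ℚ) + 1) * ((m.choose k : ℚ) * w k) =
      (-(((k + 1 : ℕ) : ℚ) ^ 2) * (((m + 2).choose (k + 1) : ℚ) * w (k + 1)) / ((m : ℚ) + 2)) -
      (-((k : ℚ) ^ 2) * (((m + 2).choose k : ℚ) * w k) / ((m : ℚ) + 2)) := by
    intro k
    have e1 := ch_up m k
    have e2 := ch_up (m + 1) k
    have e3 := ch_right (m + 2) k
    have e4 := w_succ k
    rw [show m + 1 + 1 = m + 2 by ring] at e2
    push_cast at e2 e3 ⊢
    have a1 : (m.choose k : ℚ) = ((m + 2).choose k : ℚ) * ((m : ℚ) + 2 - k) * ((m : ℚ) + 1 - k) /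
        (((m : ℚ) + 1) * (m + 2)) := by
      rw [eq_div_iff (mul_ne_zero c1 c2)]
      linear_combination ((m : ℚ) + 2) * e1 + ((m : ℚ) + 1 - k) * e2
    have a2 : ((k : ℚ) + 1) ^ 2 * (((m + 2).choose (k + 1) : ℚ) * w (k + 1)) =
        -((m : ℚ) + 2 - k) * (2 * k + 1) * (((m + 2).choose k : ℚ) * w k) := by
      linear_combination ((k : ℚ) + 1) * w (k + 1) * e3 +
        ((m + 2).choose k : ℚ) * ((m : ℚ) + 2 - k) * e4
    rw [neg_mul, a2, a1]
    field_simp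
    ring
  have h2 : ∑ k ∈ range (m + 3), (((m : ℚ) + 2) * (((m + 2).choose k : ℚ) * w k) -
      ((m : ℚ) + 1) * ((m.choose k : ℚ) * w k)) = 0 := by
    rw [sum_congr rfl fun k _ => h1 k, sum_range_sub (fun k : ℕ =>
      (-((k : ℚ) ^ 2) * (((m + 2).choose k : ℚ) * w k) / ((m : ℚ) + 2)))]
    rw [Nat.choose_eq_zero_of_lt (by omega : m + 2 < m + 3)]
    simp
  rw [sum_sub_distrib, ← mul_sum, ← mul_sum, fA_ext m (m + 3) (by omega),
    fA_ext (m + 2) (m + 3) (by omega)] at h2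
  linarith

theorem fA_even (j : ℕ) : fA (2 * j) = b j := by
  induction j with
  | zero => simp [fA, b_zero, w, gb]
  | succ j ih =>
    have h1 := fA_rec (2 * j)
    have h2 := b_succ j
    have h3 : 2 * (j : ℚ) + 2 ≠ 0 := by positivity
    rw [show 2 * (j + 1) = 2 * j + 2 by ring]
    apply mul_left_cancel₀ h3
    push_cast at h1
    rw [ih] at h1
    linear_combination h1 - h2

theorem fA_odd (j : ℕ) : fA (2 * j + 1) = 0 := by
  induction j with
  | zero => simp [fA, w, gb, sum_range_succ]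
  | succ j ih =>
    have h1 := fA_rec (2 * j + 1)
    have h3 : 2 * (j : ℚ) + 3 ≠ 0 := by positivity
    rw [show 2 * (j + 1) + 1 = 2 * j + 1 + 2 by ring]
    apply mul_left_cancel₀ h3
    push_cast at h1
    rw [ih] at h1
    linear_combination h1

/-- the second kernel -/
def wt (n k : ℕ) : ℚ := (-2) ^ k * (n.choose k : ℚ) / ((2 * n).choose k : ℚ)

/-- `∑_{k ≤ n} C(x,k) (-2)^k C(n,k)/C(2n,k)` -/
def gT (n : ℕ) (x : ℚ) : ℚ := ∑ k ∈ range (n + 1), gb x k * wt n k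

theorem gT_ext (n N : ℕ) (x : ℚ) (h : n < N) : ∑ k ∈ range N, gb x k * wt n k = gT n x := by
  rw [gT]
  symm
  apply sum_subset
  · intro x hx
    rw [mem_range] at *
    omega
  · intro x _ hx
    rw [mem_range] at hx
    rw [wt, Nat.choose_eq_zero_of_lt (by omega)]
    simp

theorem gT_rec (n : ℕ) (x : ℚ) : (2 * (n : ℚ) + 1) * gT (n + 1) x = (2 * n + 1 - x) * gT n x := by
  have h1 : ∀ k ∈ range (n + 1), (2 * (n : ℚ) + 1) * (gb x k * wt (n + 1) k) -
      (2 * n + 1 - x) * (gb x k * wt n k) =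
      (-(2 * (n : ℚ) + 1) * ((k + 1 : ℕ) : ℚ) * (gb x (k + 1) * wt (n + 1) (k + 1)) /
        (2 * n + 2 - ((k + 1 : ℕ) : ℚ))) -
      (-(2 * (n : ℚ) + 1) * (k : ℚ) * (gb x k * wt (n + 1) k) / (2 * n + 2 - (k : ℚ))) := by
    intro k hk
    have hk' : k ≤ n := by have := mem_range.1 hk; omega
    have hkq : (k : ℚ) ≤ n := by exact_mod_cast hk'
    have hn0 : (0 : ℚ) ≤ n := by positivity
    have e1 := ch_up n k
    have e2 := ch_up (2 * n) k
    have e3 := ch_up (2 * n + 1) k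
    have e4 := ch_right (n + 1) k
    have e5 := ch_right (2 * n + 2) k
    have e6 := gb_succ x k
    rw [show 2 * n + 1 + 1 = 2 * n + 2 by ring] at e3
    have d1 : (n : ℚ) + 1 ≠ 0 := by positivity
    have d2 : 2 * (n : ℚ) + 1 ≠ 0 := by positivity
    have d4 : (k : ℚ) + 1 ≠ 0 := by positivity
    have d5 : 2 * (n : ℚ) + 2 - k ≠ 0 := by
      have : 0 < 2 * (n : ℚ) + 2 - k := by linarith
      exact this.ne'
    have d6 : 2 * (n : ℚ) + 1 - k ≠ 0 := by
      have : 0 < 2 * (n : ℚ) + 1 - k := by linarith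
      exact this.ne'
    have d7 : ((2 * n + 2).choose k : ℚ) ≠ 0 := by
      have := Nat.choose_pos (show k ≤ 2 * n + 2 by omega)
      positivity
    push_cast at e2 e3 e4 e5 ⊢
    rw [wt, wt, wt, show 2 * (n + 1) = 2 * n + 2 by ring]
    have d10 : ((2 * n + 2).choose (k + 1) : ℚ) ≠ 0 := by
      have := Nat.choose_pos (show k + 1 ≤ 2 * n + 2 by omega)
      positivity
    have d11 : ((2 * n).choose k : ℚ) ≠ 0 := by
      have := Nat.choose_pos (show k ≤ 2 * n by omega)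
      positivity
    have a1 : (-2 : ℚ) ^ (k + 1) * ((n + 1).choose (k + 1) : ℚ) / ((2 * n + 2).choose (k + 1) : ℚ) *
        (2 * n + 2 - k) = -2 * (n + 1 - k) *
        ((-2 : ℚ) ^ k * ((n + 1).choose k : ℚ) / ((2 * n + 2).choose k : ℚ)) := by
      rw [← mul_div_assoc, div_mul_eq_mul_div, div_eq_div_iff d10 d7, pow_succ]
      linear_combination (2 : ℚ) * (-2) ^ k * ((n + 1).choose (k + 1) : ℚ) * e5 -
        (2 : ℚ) * (-2) ^ k * ((2 * n + 2).choose (k + 1) : ℚ) * e4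
    have a2 : (-2 : ℚ) ^ k * (n.choose k : ℚ) / ((2 * n).choose k : ℚ) *
        ((2 * n + 2 - k) * (2 * n + 1 - k)) = 2 * (2 * n + 1) * (n + 1 - k) *
        ((-2 : ℚ) ^ k * ((n + 1).choose k : ℚ) / ((2 * n + 2).choose k : ℚ)) := by
      rw [← mul_div_assoc, div_mul_eq_mul_div, div_eq_div_iff d11 d7]
      have a3 : ((2 * n).choose k : ℚ) * ((2 * (n : ℚ) + 1) * (2 * n + 2)) =
          ((2 * n + 2).choose k : ℚ) * ((2 * (n : ℚ) + 2 - k) * (2 * n + 1 - k)) := by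
        linear_combination (2 * (n : ℚ) + 2) * e2 + (2 * (n : ℚ) + 1 - k) * e3
      linear_combination 2 * (2 * (n : ℚ) + 1) * (-2 : ℚ) ^ k * ((2 * n).choose k : ℚ) * e1 -
        (-2 : ℚ) ^ k * (n.choose k : ℚ) * a3
    generalize (-2 : ℚ) ^ (k + 1) * ((n + 1).choose (k + 1) : ℚ) / ((2 * n + 2).choose (k + 1) : ℚ) =
      W' at *
    generalize (-2 : ℚ) ^ k * (n.choose k : ℚ) / ((2 * n).choose k : ℚ) = W0 at *
    generalize (-2 : ℚ) ^ k * ((n + 1).choose k : ℚ) / ((2 * n + 2).choose k : ℚ) = W at *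
    generalize gb x (k + 1) = Z' at *
    generalize gb x k = Z at *
    have a6 : ((k : ℚ) + 1) * (Z' * W') = -2 * (x - k) * (n + 1 - k) * (Z * W) / (2 * n + 2 - k) := by
      rw [eq_div_iff d5]
      linear_combination ((k : ℚ) + 1) * Z' * a1 - 2 * ((n : ℚ) + 1 - k) * W * e6
    have a7 : W0 = 2 * (2 * n + 1) * (n + 1 - k) * W / ((2 * n + 2 - k) * (2 * n + 1 - k)) := by
      rw [eq_div_iff (mul_ne_zero d5 d6), a2]
    rw [mul_assoc _ ((k : ℚ) + 1) (Z' * W'), a6, a7,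
      show 2 * (n : ℚ) + 2 - (k + 1) = 2 * (n : ℚ) + 1 - k by ring]
    obtain ⟨u, hu⟩ : ∃ u : ℚ, u = 2 * (n : ℚ) + 2 - k := ⟨_, rfl⟩
    have hk1 : (k : ℚ) = 2 * (n : ℚ) + 2 - u := by rw [hu]; ring
    rw [hk1] at d5 d6 ⊢
    rw [show 2 * (n : ℚ) + 2 - (2 * n + 2 - u) = u by ring] at d5 ⊢
    rw [show 2 * (n : ℚ) + 1 - (2 * n + 2 - u) = u - 1 by ring] at d6 ⊢
    field_simp
    ring
  have h2 : ∑ k ∈ range (n + 1), ((2 * (n : ℚ) + 1) * (gb x k * wt (n + 1) k) -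
      (2 * n + 1 - x) * (gb x k * wt n k)) =
      -(2 * (n : ℚ) + 1) * (gb x (n + 1) * wt (n + 1) (n + 1)) := by
    rw [sum_congr rfl h1, sum_range_sub (fun k : ℕ =>
      (-(2 * (n : ℚ) + 1) * (k : ℚ) * (gb x k * wt (n + 1) k) / (2 * n + 2 - (k : ℚ))))]
    have d1 : (n : ℚ) + 1 ≠ 0 := by positivity
    push_cast
    rw [show 2 * (n : ℚ) + 2 - (n + 1) = n + 1 by ring]
    field_simp
    ring
  rw [sum_sub_distrib, ← mul_sum, ← mul_sum] at h2
  have h3 : gT (n + 1) x = ∑ k ∈ range (n + 1), gb x k * wt (n + 1) k +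
      gb x (n + 1) * wt (n + 1) (n + 1) := by
    rw [gT, sum_range_succ]
  rw [h3]
  have h4 : gT n x = ∑ k ∈ range (n + 1), gb x k * wt n k := rfl
  rw [h4]
  linarith

theorem gT_prod (n : ℕ) (x : ℚ) : gT n x = ∏ i ∈ range n, ((2 * (i : ℚ) + 1 - x) / (2 * i + 1)) := by
  induction n with
  | zero => simp [gT, wt, gb]
  | succ n ih =>
    have h := gT_rec n x
    have d : 2 * (n : ℚ) + 1 ≠ 0 := by positivity
    rw [prod_range_succ, ← ih]
    apply mul_left_cancel₀ d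
    rw [h]
    field_simp

end Pool.Agent.K1H59.SC
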