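import Mathlib
import Pool.Agent.K1H59.SC.A

set_option autoImplicit false

/-!
The sum of MP_c35bdc_nt modulo `p^2` in terms of harmonic numbers.
-/

namespace Pool.Agent.K1H59.SC

open Finset Pool.Agent.R439.PL
open Pool.Agent.R488.Cub (gb H)

variable {p : ℕ} [hp : Fact p.Prime]

theorem Unat {n : ℕ} (h0 : 0 < n) (h : n < p) : U p (n : ℚ) := by
  have : U p ((n : ℤ) : ℚ) := U_int fun hd => by
    have := Nat.le_of_dvd h0 (Int.natCast_dvd_natCast.1 hd)
    omega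
  exact_mod_cast this

theorem Uint {a : ℤ} (h0 : a ≠ 0) (h1 : a < p) (h2 : -a < p) : U p (a : ℚ) := by
  refine U_int fun hd => ?_
  have h3 : (p : ℤ) ≤ |a| := Int.le_of_dvd (abs_pos.2 h0) ((dvd_abs _ _).2 hd)
  rcases abs_cases a with h | h <;> omega

theorem Ufact {k : ℕ} (h : k < p) : U p (k.factorial : ℚ) := by
  have : U p ((k.factorial : ℤ) : ℚ) := U_int fun hd => by
    have := (hp.out.dvd_factorial).1 (Int.natCast_dvd_natCast.1 hd)
    omega
  exact_mod_cast this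

theorem gb_congr {l : ℕ} {a a' : ℚ} (hl : 0 < l) (h : EQ p l a a') {k : ℕ} (hk : k < p) :
    EQ p l (gb a k) (gb a' k) := by
  rw [gb, gb]
  exact EQ.div hl (EQ.prod fun i _ => h.sub (EQ.refl (nat_mem i))) (EQ.refl (nat_mem _)) (Ufact hk)

theorem half_mem (hn : p ≠ 2) : (1 / 2 : ℚ) ∈ Zp p := by
  have h2 : 2 < p := lt_of_le_of_ne hp.out.two_le (Ne.symm hn)
  have := (Unat (p := p) (n := 2) (by norm_num) h2).2.2
  simpa using this

theorem U2 (hn : p ≠ 2) : U p (2 : ℚ) := by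
  have h2 : 2 < p := lt_of_le_of_ne hp.out.two_le (Ne.symm hn)
  have := (Unat (p := p) (n := 2) (by norm_num) h2)
  simpa using this

theorem mhalf {n : ℕ} (hn : p = 2 * n + 1) : EQ p 1 (-1 / 2 : ℚ) (n : ℚ) := by
  have h2 : p ≠ 2 := by omega
  have h3 := half_mem h2
  refine ⟨?_, nat_mem n, ?_⟩
  · have : (-1 / 2 : ℚ) = -(1 / 2) := by ring
    rw [this]; exact neg_mem h3
  · refine ⟨-(1 / 2), neg_mem h3, ?_⟩
    have : (p : ℚ) = 2 * n + 1 := by rw [hn]; push_cast; ring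
    rw [this]; ring

theorem wt_eq {n k : ℕ} (hn : p = 2 * n + 1) (hk : k < p) : EQ p 1 (w k) (wt n k) := by
  have h2 : p ≠ 2 := by omega
  have h1 : EQ p 1 (w k) ((n.choose k : ℚ) * 2 ^ k) := by
    rw [w, ← gb_nat]
    exact (gb_congr one_pos (mhalf hn) hk).mul (EQ.refl (pow_mem (U2 h2).2.1 k))
  have h3 : EQ p 1 (((2 * n).choose k : ℕ) : ℚ) ((-1) ^ k) := by
    have := Pool.Agent.R488.Cub.HarmP.choose_pm1 (p := p) k hk
    rwa [show p - 1 = 2 * n by omega] at this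
  have u1 : U p ((-1 : ℚ) ^ k) := by
    have : U p ((-1 : ℤ) : ℚ) := Uint (by norm_num) (by have := hp.out.pos; omega)
      (by have := hp.out.one_lt; omega)
    push_cast at this
    exact this.pow k
  have h4 : EQ p 1 ((-2) ^ k * (n.choose k : ℚ) / (-1) ^ k) (wt n k) := by
    rw [wt]
    refine EQ.div one_pos (EQ.refl (mul_mem (pow_mem ?_ k) (nat_mem _))) h3.symm u1
    exact neg_mem (U2 h2).2.1
  have h5 : (-2 : ℚ) ^ k * (n.choose k : ℚ) / (-1) ^ k = (n.choose k : ℚ) * 2 ^ k := by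
    rw [div_eq_iff u1.1]
    have : (-2 : ℚ) ^ k = 2 ^ k * (-1) ^ k := by rw [← mul_pow]; norm_num
    rw [this]; ring
  rw [h5] at h4
  exact h1.trans h4

/-- the truncated series in the upper parameter -/
def G (p : ℕ) (x : ℚ) : ℚ := ∑ k ∈ range p, gb x k * w k

theorem key {n : ℕ} (hn : p = 2 * n + 1) {a a' : ℚ} (h : EQ p 1 a a') :
    I p 2 ((G p a - G p a') - (gT n a - gT n a')) := by
  rw [← gT_ext n p a (by omega), ← gT_ext n p a' (by omega), G, G, ← sum_sub_distrib,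
    ← sum_sub_distrib, ← sum_sub_distrib]
  refine I.sum fun k hk => ?_
  have hk' := mem_range.1 hk
  have e : gb a k * w k - gb a' k * w k - (gb a k * wt n k - gb a' k * wt n k) =
    (gb a k - gb a' k) * (w k - wt n k) := by ring
  rw [e]
  exact (gb_congr one_pos h hk').2.2.mul (wt_eq hn hk').2.2

theorem gT_congr {n : ℕ} (hn : p = 2 * n + 1) {a : ℚ} (h : a ∈ Zp p) :
    EQ p 1 (G p a) (gT n a) := by
  rw [← gT_ext n p a (by omega), G]
  refine EQ.sum fun k hk => ?_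
  have hk' := mem_range.1 hk
  exact (EQ.refl (gb_congr one_pos (EQ.refl h) hk').1).mul (wt_eq hn hk')

theorem prod_lin {ι : Type*} {s : Finset ι} {e : ι → ℚ} {δ : ℚ} (he : ∀ i ∈ s, U p (e i))
    (hδ : I p 1 δ) : EQ p 2 (∏ i ∈ s, (e i + δ))
      ((∏ i ∈ s, e i) * (1 + δ * ∑ i ∈ s, (e i)⁻¹)) := by
  classical
  induction s using Finset.induction_on with
  | empty => simpa using EQ.refl (one_mem (Zp p))
  | insert a s ha ih =>
    have ih := ih fun i hi => he i (mem_insert_of_mem hi)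
    have ua := he a (mem_insert_self _ _)
    rw [prod_insert ha, prod_insert ha, sum_insert ha]
    have hS : ∑ i ∈ s, (e i)⁻¹ ∈ Zp p := sum_mem fun i hi => (he i (mem_insert_of_mem hi)).2.2
    have hP : ∏ i ∈ s, e i ∈ Zp p := prod_mem fun i hi => (he i (mem_insert_of_mem hi)).2.1
    have h1 : e a + δ ∈ Zp p := add_mem ua.2.1 hδ.mem
    have h2 := (EQ.refl (p := p) (k := 2) h1).mul ih
    refine h2.trans ⟨h2.2.1, ?_, ?_⟩
    · exact mul_mem (mul_mem ua.2.1 hP) (add_mem (one_mem _)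
        (mul_mem hδ.mem (add_mem ua.2.2 hS)))
    · have h0 := ua.1
      generalize ∏ i ∈ s, e i = P at *
      generalize ∑ i ∈ s, (e i)⁻¹ = S at *
      have : (e a + δ) * (P * (1 + δ * S)) - e a * P * (1 + δ * ((e a)⁻¹ + S)) =
          δ * δ * (P * S) := by
        field_simp
        ring
      rw [this]
      exact (hδ.mul hδ).mulR (mul_mem hP hS)

/-- odd harmonic numbers -/
def O (r : ℕ) : ℚ := ∑ i ∈ range r, 1 / (2 * (i : ℚ) + 1)

theorem sum_e (n j : ℕ) (hj : j ≤ n) :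
    ∑ i ∈ range n, (2 * (i : ℚ) + 1 - ((2 * j : ℕ) : ℚ))⁻¹ = O (n - j) - O j := by
  obtain ⟨d, rfl⟩ : ∃ d, n = j + d := ⟨n - j, by omega⟩
  rw [sum_range_add, show j + d - j = d by omega, O, O]
  have h1 : ∑ i ∈ range j, (2 * (i : ℚ) + 1 - ((2 * j : ℕ) : ℚ))⁻¹ =
      -∑ i ∈ range j, 1 / (2 * (i : ℚ) + 1) := by
    rw [← Finset.sum_range_reflect, ← sum_neg_distrib]
    refine sum_congr rfl fun i hi => ?_
    have hi' := mem_range.1 hi
    rw [show j - 1 - i = j - (i + 1) by omega, Nat.cast_sub (by omega)]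
    push_cast
    rw [show 2 * ((j : ℚ) - (i + 1)) + 1 - 2 * j = -(2 * i + 1) by ring, inv_neg, one_div]
  have h2 : ∑ i ∈ range d, (2 * ((j + i : ℕ) : ℚ) + 1 - ((2 * j : ℕ) : ℚ))⁻¹ =
      ∑ i ∈ range d, 1 / (2 * (i : ℚ) + 1) := by
    refine sum_congr rfl fun i _ => ?_
    push_cast
    rw [show 2 * ((j : ℚ) + i) + 1 - 2 * j = 2 * i + 1 by ring, one_div]
  rw [h1, h2]
  ring

theorem H_split (n r : ℕ) (hr : r ≤ n) :
    ∑ i ∈ range r, 1 / (((n - i : ℕ) : ℚ)) = H n - H (n - r) := by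
  obtain ⟨d, rfl⟩ : ∃ d, n = d + r := ⟨n - r, by omega⟩
  rw [show d + r - r = d by omega]
  unfold H
  rw [sum_range_add, ← Finset.sum_range_reflect (fun i => 1 / (((d + r - i : ℕ) : ℚ)))]
  rw [add_sub_cancel_left]
  refine sum_congr rfl fun i hi => ?_
  have hi' := mem_range.1 hi
  rw [show d + r - (r - 1 - i) = d + i + 1 by omega]
  push_cast
  ring

theorem O_eq {n : ℕ} (hn : p = 2 * n + 1) {r : ℕ} (hr : r ≤ n) :
    EQ p 1 (O r) (-(1 / 2) * (H n - H (n - r))) := by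
  rw [← H_split n r hr, O, mul_sum]
  refine EQ.sum fun i hi => ?_
  have hi' := mem_range.1 hi
  have u1 : U p (((2 * i + 1 : ℕ) : ℚ)) := Unat (by omega) (by omega)
  have u2 : U p (((n - i : ℕ) : ℚ)) := Unat (by omega) (by omega)
  have u3 := U2 (p := p) (by omega)
  have hpq : (p : ℚ) = 2 * n + 1 := by rw [hn]; push_cast; ring
  have h1 : EQ p 1 (((2 * i + 1 : ℕ) : ℚ)) (-(2 * ((n - i : ℕ) : ℚ))) := by
    refine ⟨u1.2.1, neg_mem (mul_mem u3.2.1 u2.2.1), 1, one_mem _, ?_⟩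
    rw [Nat.cast_sub (by omega), hpq]
    push_cast
    ring
  have h2 := h1.inv one_pos u1
  have e1 : 1 / (2 * (i : ℚ) + 1) = (((2 * i + 1 : ℕ) : ℚ))⁻¹ := by push_cast; rw [one_div]
  have e2 : -(1 / 2) * (1 / (((n - i : ℕ) : ℚ))) = (-(2 * ((n - i : ℕ) : ℚ)))⁻¹ := by
    have := u2.1
    field_simp
  rw [e1, e2]
  exact h2

/-- the sum of the problem -/
def Sp (p : ℕ) : ℚ := ∑ k ∈ range p, gb (-1 / 4) k * gb (-1 / 2) k * 2 ^ k

theorem Sp_G : Sp p = G p (-1 / 4) := by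
  rw [Sp, G]
  refine sum_congr rfl fun k _ => ?_
  rw [w]; ring

theorem G_nat {m : ℕ} (hm : m < p) : G p (m : ℚ) = fA m := by
  rw [G, ← fA_ext m p hm]
  exact sum_congr rfl fun k _ => by rw [gb_nat]

theorem quarter {c m : ℕ} (h2 : p ≠ 2) (hc : c * p = 4 * m + 1) : EQ p 1 (-1 / 4 : ℚ) (m : ℚ) := by
  have h3 := half_mem h2
  have h4 : (1 / 4 : ℚ) ∈ Zp p := by
    have := mul_mem h3 h3
    norm_num at this ⊢
    exact this
  refine ⟨?_, nat_mem m, ?_⟩
  · have : (-1 / 4 : ℚ) = -(1 / 4) := by ring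
    rw [this]; exact neg_mem h4
  · refine ⟨-(c * (1 / 4)), neg_mem (mul_mem (nat_mem c) h4), ?_⟩
    have : (c : ℚ) * p = 4 * m + 1 := by exact_mod_cast hc
    linear_combination (1 / 4) * this

/-- the odd case -/
theorem S_odd {n c j : ℕ} (hn : p = 2 * n + 1) (hc : c * p = 4 * (2 * j + 1) + 1)
    (hm : 2 * j + 1 < p) : I p 1 (Sp p) := by
  have h1 := quarter (p := p) (by omega) hc
  have h2 : EQ p 1 (G p (-1 / 4)) (G p ((2 * j + 1 : ℕ) : ℚ)) := by
    rw [G, G]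
    refine EQ.sum fun k hk => ?_
    have hk' := mem_range.1 hk
    exact (gb_congr one_pos h1 hk').mul (EQ.refl (wt_eq hn hk').1)
  rw [G_nat hm, fA_odd, ← Sp_G] at h2
  simpa using h2.2.2

theorem S_even {n c j : ℕ} (hn : p = 2 * n + 1) (hc : c * p = 8 * j + 1) (hj : j ≤ n) :
    EQ p 2 (Sp p) (b j * (1 + (c * p / 4) * (O (n - j) - O j))) := by
  have h2 : p ≠ 2 := by omega
  have hjp : 2 * j < p := by omega
  have h1 := quarter (p := p) (m := 2 * j) h2 (by rw [hc]; ring)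
  have hkey := key hn h1
  have h3 := half_mem h2
  have h4 : (1 / 4 : ℚ) ∈ Zp p := by
    have := mul_mem h3 h3
    norm_num at this ⊢
    exact this
  obtain ⟨δ, hδ⟩ : ∃ δ : ℚ, δ = c * p / 4 := ⟨_, rfl⟩
  have hδI : I p 1 δ := ⟨c * (1 / 4), mul_mem (nat_mem c) h4, by rw [hδ]; ring⟩
  have hcq : (c : ℚ) * p = 8 * j + 1 := by exact_mod_cast hc
  have hu : ∀ i ∈ range n, U p (2 * (i : ℚ) + 1 - ((2 * j : ℕ) : ℚ)) := by
    intro i hi
    have hi' := mem_range.1 hi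
    have : U p (((2 * i + 1 - 2 * j : ℤ)) : ℚ) := Uint (by omega) (by omega) (by omega)
    push_cast at this ⊢
    exact this
  have hd : ∀ i ∈ range n, U p (2 * (i : ℚ) + 1) := by
    intro i hi
    have hi' := mem_range.1 hi
    have : U p (((2 * i + 1 : ℕ) : ℚ)) := Unat (by omega) (by omega)
    push_cast at this ⊢
    exact this
  have hlin := prod_lin hu hδI
  have hDu : U p (∏ i ∈ range n, (2 * (i : ℚ) + 1)) := U.prod hd
  have e1 : gT n (-1 / 4) = (∏ i ∈ range n, ((2 * (i : ℚ) + 1 - ((2 * j : ℕ) : ℚ)) + δ)) /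
      ∏ i ∈ range n, (2 * (i : ℚ) + 1) := by
    rw [gT_prod, prod_div_distrib]
    congr 1
    refine prod_congr rfl fun i _ => ?_
    rw [hδ]
    push_cast
    linear_combination -(1 / 4 : ℚ) * hcq
  have e2 : gT n ((2 * j : ℕ) : ℚ) = (∏ i ∈ range n, (2 * (i : ℚ) + 1 - ((2 * j : ℕ) : ℚ))) /
      ∏ i ∈ range n, (2 * (i : ℚ) + 1) := by
    rw [gT_prod, prod_div_distrib]
  have h5 : EQ p 2 (gT n (-1 / 4)) (gT n ((2 * j : ℕ) : ℚ) * (1 + δ * (O (n - j) - O j))) := by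
    rw [e1, e2, ← sum_e n j hj]
    have := hlin.div (by norm_num) (EQ.refl hDu.2.1) hDu
    have e3 : ∀ x y z : ℚ, x * y / z = x / z * y := by intro x y z; ring
    rw [e3] at this
    exact this
  have h6 : EQ p 1 (b j) (gT n ((2 * j : ℕ) : ℚ)) := by
    have := gT_congr hn (nat_mem (p := p) (2 * j))
    rwa [G_nat hjp, fA_even] at this
  have hOm : (O (n - j) - O j) ∈ Zp p := by
    rw [← sum_e n j hj]
    exact sum_mem fun i hi => (hu i hi).2.2
  have h7 : I p 2 ((b j - gT n ((2 * j : ℕ) : ℚ)) * (δ * (O (n - j) - O j))) :=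
    h6.2.2.mul (hδI.mulR hOm)
  have h8 : G p ((2 * j : ℕ) : ℚ) = b j := by rw [G_nat hjp, fA_even]
  rw [h8, ← Sp_G] at hkey
  have hSm : Sp p ∈ Zp p := by
    rw [Sp_G]
    exact (gT_congr hn h1.1).1
  refine ⟨hSm, ?_, ?_⟩
  · rw [← hδ]
    exact mul_mem h6.1 (add_mem (one_mem _) (mul_mem hδI.mem hOm))
  · rw [← hδ]
    have := (hkey.add h5.2.2).sub h7
    have e : Sp p - b j * (1 + δ * (O (n - j) - O j)) =
        Sp p - b j - (gT n (-1 / 4) - gT n ((2 * j : ℕ) : ℚ)) +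
        (gT n (-1 / 4) - gT n ((2 * j : ℕ) : ℚ) * (1 + δ * (O (n - j) - O j))) -
        (b j - gT n ((2 * j : ℕ) : ℚ)) * (δ * (O (n - j) - O j)) := by ring
    rw [e]
    exact this

theorem H_mem {r : ℕ} (hr : r < p) : H r ∈ Zp p := by
  unfold H
  refine sum_mem fun i hi => ?_
  have hi' := mem_range.1 hi
  have := (Unat (p := p) (n := i + 1) (by omega) (by omega)).2.2
  push_cast at this
  rw [one_div]
  exact this

/-- the closed form -/
def UU (p n c j : ℕ) : ℚ := b j * (1 + (c * p / 8) * (H j - H (n - j)))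

theorem S_closed {n c j : ℕ} (hn : p = 2 * n + 1) (hc : c * p = 8 * j + 1) (hj : j ≤ n) :
    EQ p 2 (Sp p) (UU p n c j) := by
  have h0 := S_even hn hc hj
  have h2 : p ≠ 2 := by omega
  have h3 := half_mem h2
  have h1 := (O_eq hn (r := n - j) (by omega)).sub (O_eq hn hj)
  rw [show n - (n - j) = j by omega] at h1
  have h4 : (1 / 4 : ℚ) ∈ Zp p := by
    have := mul_mem h3 h3
    norm_num at this ⊢
    exact this
  have hb : b j ∈ Zp p := by
    rw [b]
    exact mul_mem (pow_mem (neg_mem (one_mem _)) _)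
      (gb_congr one_pos (mhalf hn) (by omega : j < p)).1
  refine h0.trans ?_
  rw [UU]
  have e : (-(1 / 2) * (H n - H j) - -(1 / 2) * (H n - H (n - j))) = (1 / 2) * (H j - H (n - j)) := by
    ring
  rw [e] at h1
  have hc4 : I p 1 ((c : ℚ) * p / 4) := ⟨c * (1 / 4), mul_mem (nat_mem c) h4, by ring⟩
  have hm1 : b j * (1 + (c * p / 4) * (O (n - j) - O j)) ∈ Zp p := h0.2.1
  refine ⟨hm1, ?_, ?_⟩
  · have e2 : b j * (1 + (c * p / 8) * (H j - H (n - j))) =
      b j * (1 + (c * p / 4) * ((1 / 2) * (H j - H (n - j)))) := by ring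
    rw [e2]
    exact mul_mem hb (add_mem (one_mem _) (mul_mem hc4.mem h1.2.1))
  · have e2 : b j * (1 + (c * p / 4) * (O (n - j) - O j)) -
      b j * (1 + (c * p / 8) * (H j - H (n - j))) =
      b j * ((c * p / 4) * (O (n - j) - O j - (1 / 2) * (H j - H (n - j)))) := by ring
    rw [e2]
    exact (hc4.mul h1.2.2).mulL hb

end Pool.Agent.K1H59.SC
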