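import Mathlib
import Pool.Agent.K1H59.SC.B

set_option autoImplicit false

/-!
The coefficients of `(1-x)^c ((1-x)^p - (1-x^p))/p` modulo `p`.
-/

namespace Pool.Agent.K1H59.SC

open Finset Pool.Agent.R439.PL
open Pool.Agent.R488.Cub (gb H)

/-- coefficients of `((1-x)^p - (1-x^p))/p` -/
def ee (p r : ℕ) : ℤ := (-1) ^ r * ((p.choose r / p : ℕ) : ℤ)

/-- coefficient of `x^m` in `(1-x)^c E(x)` -/
def cA (p c m : ℕ) : ℤ := ∑ i ∈ range m, (-1) ^ i * (c.choose i : ℤ) * ee p (m - i)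

/-- coefficient of `x^(m+p)` in `(1-x)^c E(x)` -/
def cB (p c m : ℕ) : ℤ := ∑ i ∈ Ico (m + 1) (c + 1), (-1) ^ i * (c.choose i : ℤ) * ee p (m + p - i)

variable {p : ℕ} [hp : Fact p.Prime]

theorem ee_eq {r : ℕ} (h0 : 0 < r) (hr : r < p) : EQ p 1 ((ee p r : ℤ) : ℚ) (-(1 / (r : ℚ))) := by
  obtain ⟨s, rfl⟩ : ∃ s, r = s + 1 := ⟨r - 1, by omega⟩
  have hd : p ∣ p.choose (s + 1) := hp.out.dvd_choose_self (by omega) hr
  obtain ⟨c, hc⟩ := hd
  have hp0 := hp.out.pos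
  have h1 : p.choose (s + 1) / p = c := by rw [hc, Nat.mul_div_cancel_left _ hp0]
  obtain ⟨q, hq⟩ : ∃ q, p = q + 1 := ⟨p - 1, by omega⟩
  have h2 : (s + 1) * c = (p - 1).choose s := by
    have h3 := Nat.add_one_mul_choose_eq q s
    rw [← hq, hc] at h3
    have h4 : p * ((p - 1).choose s) = p * ((s + 1) * c) := by
      rw [show p - 1 = q by omega, h3]; ring
    exact (Nat.eq_of_mul_eq_mul_left hp0 h4).symm
  have h5 := Pool.Agent.R488.Cub.HarmP.choose_pm1 (p := p) s (by omega)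
  have u1 : U p (((s + 1 : ℕ) : ℚ)) := Unat (by omega) hr
  have h6 := (h5.mul (EQ.refl (p := p) (k := 1) (pow_mem (neg_mem (one_mem (Zp p))) (s + 1)))).div
    one_pos (EQ.refl u1.2.1) u1
  have e1 : ((ee p (s + 1) : ℤ) : ℚ) = ((p - 1).choose s : ℚ) * (-1) ^ (s + 1) / ((s + 1 : ℕ) : ℚ) := by
    rw [ee, h1, eq_div_iff u1.1, ← h2]
    push_cast
    ring
  have e2 : -(1 / (((s + 1 : ℕ) : ℚ))) = (-1) ^ s * (-1) ^ (s + 1) / ((s + 1 : ℕ) : ℚ) := by
    rw [← pow_add, Odd.neg_one_pow ⟨s, by ring⟩]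
    ring
  rw [e1, e2]
  exact h6

theorem cA_eq {c m : ℕ} (hm : m ≤ c) (hc : c < p) :
    EQ p 1 ((cA p c m : ℤ) : ℚ) ((-1) ^ m * (c.choose m : ℚ) * (H c - H (c - m))) := by
  have h1 := Pool.Agent.R439.FD.alt c m hm
  have h2 : EQ p 1 ((cA p c m : ℤ) : ℚ)
      (∑ i ∈ range m, (-1) ^ i * (c.choose i : ℚ) * (-(1 / (((m - i : ℕ) : ℚ))))) := by
    rw [cA]
    push_cast
    refine EQ.sum fun i hi => ?_
    have hi' := mem_range.1 hi
    exact (EQ.refl (mul_mem (pow_mem (neg_mem (one_mem _)) _) (nat_mem _))).mul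
      (ee_eq (by omega) (by omega))
  have h3 : (∑ i ∈ range m, (-1 : ℚ) ^ i * (c.choose i : ℚ) * (-(1 / (((m - i : ℕ) : ℚ))))) =
      (-1) ^ m * (c.choose m : ℚ) * (H c - H (c - m)) := by
    have h4 : (∑ i ∈ range m, (-1 : ℚ) ^ i * (c.choose i : ℚ) * (-(1 / (((m - i : ℕ) : ℚ))))) =
        -∑ i ∈ range m, (-1) ^ i * (c.choose i : ℚ) / ((m : ℚ) - i) := by
      rw [← sum_neg_distrib]
      refine sum_congr rfl fun i hi => ?_
      have hi' := mem_range.1 hi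
      rw [Nat.cast_sub (by omega)]
      ring
    rw [h4, h1, pow_succ]
    ring
  rw [← h3]
  exact h2

theorem cB_eq {c m : ℕ} (hm : m ≤ c) (hc : c < p) :
    EQ p 1 ((cB p c m : ℤ) : ℚ) ((-1) ^ m * (c.choose m : ℚ) * (H m - H c)) := by
  have h1 := Pool.Agent.R439.FD.alt c (c - m) (by omega)
  rw [show c - (c - m) = m by omega, Nat.choose_symm hm] at h1
  have h2 : EQ p 1 ((cB p c m : ℤ) : ℚ)
      (∑ i ∈ Ico (m + 1) (c + 1), (-1) ^ i * (c.choose i : ℚ) * (1 / (((i - m : ℕ) : ℚ)))) := by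
    rw [cB]
    push_cast
    refine EQ.sum fun i hi => ?_
    have hi' := mem_Ico.1 hi
    refine (EQ.refl (mul_mem (pow_mem (neg_mem (one_mem _)) _) (nat_mem _))).mul ?_
    refine (ee_eq (by omega) (by omega)).trans ?_
    have u1 : U p (((m + p - i : ℕ) : ℚ)) := Unat (by omega) (by omega)
    have u2 : U p (((i - m : ℕ) : ℚ)) := Unat (by omega) (by omega)
    have h3 : EQ p 1 (((m + p - i : ℕ) : ℚ)) (-((i - m : ℕ) : ℚ)) := by
      refine ⟨u1.2.1, neg_mem u2.2.1, 1, one_mem _, ?_⟩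
      rw [Nat.cast_sub (by omega), Nat.cast_sub (by omega)]
      push_cast
      ring
    have h4 := (h3.inv one_pos u1).neg
    rw [inv_neg, neg_neg] at h4
    rw [one_div, one_div]
    exact h4
  have h3 : (∑ i ∈ Ico (m + 1) (c + 1), (-1 : ℚ) ^ i * (c.choose i : ℚ) * (1 / (((i - m : ℕ) : ℚ)))) =
      (-1) ^ m * (c.choose m : ℚ) * (H m - H c) := by
    have h4 : (∑ i ∈ Ico (m + 1) (c + 1), (-1 : ℚ) ^ i * (c.choose i : ℚ) *
        (1 / (((i - m : ℕ) : ℚ)))) =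
        (-1) ^ c * ∑ i ∈ range (c - m), (-1) ^ i * (c.choose i : ℚ) / (((c - m : ℕ) : ℚ) - i) := by
      rw [sum_Ico_eq_sum_range, show c + 1 - (m + 1) = c - m by omega, ← Finset.sum_range_reflect,
        mul_sum]
      refine sum_congr rfl fun i hi => ?_
      have hi' := mem_range.1 hi
      rw [show m + 1 + (c - m - 1 - i) = c - i by omega, show c - i - m = c - m - i by omega,
        Nat.choose_symm (by omega), Nat.cast_sub (by omega : i ≤ c - m)]
      have h5 : (-1 : ℚ) ^ (c - i) = (-1) ^ c * (-1) ^ i := by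
        have h6 : (-1 : ℚ) ^ (c - i) * (-1) ^ i = (-1) ^ c := by
          rw [← pow_add]; congr 1; omega
        have h7 : (-1 : ℚ) ^ i * (-1) ^ i = 1 := by
          rw [← pow_add]; exact Even.neg_one_pow ⟨i, rfl⟩
        rw [← h6, mul_assoc, h7, mul_one]
      rw [h5]
      ring
    rw [h4, h1]
    have h5 : (-1 : ℚ) ^ c * (-1) ^ (c - m + 1) = -(-1) ^ m := by
      have h6 : (-1 : ℚ) ^ (c - m) * (-1) ^ m = (-1) ^ c := by
        rw [← pow_add]; congr 1; omega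
      have h7 : (-1 : ℚ) ^ (c - m) * (-1) ^ (c - m) = 1 := by
        rw [← pow_add]; exact Even.neg_one_pow ⟨c - m, rfl⟩
      rw [← h6, pow_succ]
      linear_combination (-(-1 : ℚ) ^ m) * h7
    linear_combination ((c.choose m : ℚ) * (H c - H m)) * h5
  rw [← h3]
  exact h2

theorem choose_eq {n j : ℕ} (hn : p = 2 * n + 1) (hj : j ≤ n) :
    EQ p 2 ((-1) ^ j * (n.choose j : ℚ)) (b j * (1 + (p / 2) * (H n - H (n - j)))) := by
  have h2 : p ≠ 2 := by omega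
  have h3 := half_mem h2
  have hδ : I p 1 ((p : ℚ) / 2) := ⟨1 / 2, h3, by ring⟩
  have hpq : (p : ℚ) = 2 * n + 1 := by rw [hn]; push_cast; ring
  have u2 := U2 (p := p) h2
  have u0 : ∀ i ∈ range j, U p ((2 * i + 1 : ℕ) : ℚ) := by
    intro i hi
    have hi' := mem_range.1 hi
    exact Unat (by omega) (by omega)
  have he : ∀ i ∈ range j, U p (-1 / 2 - (i : ℚ)) := by
    intro i hi
    have u1 := u0 i hi
    have u3 : U p ((-1 : ℤ) : ℚ) := Uint (by norm_num) (by have := hp.out.pos; omega)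
      (by have := hp.out.one_lt; omega)
    have := (u3.mul u1).div u2
    have e : (((-1 : ℤ) : ℚ) * ((2 * i + 1 : ℕ) : ℚ)) / 2 = -1 / 2 - (i : ℚ) := by push_cast; ring
    rwa [e] at this
  have h4 := prod_lin he hδ
  have h5 : ∑ i ∈ range j, (-1 / 2 - (i : ℚ))⁻¹ = -2 * O j := by
    rw [O, mul_sum]
    refine sum_congr rfl fun i hi => ?_
    have := (u0 i hi).1
    push_cast at this
    rw [show -1 / 2 - (i : ℚ) = -(2 * i + 1) / 2 by ring]
    rw [inv_div, div_neg]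
    ring
  rw [h5] at h4
  have uf := Ufact (p := p) (k := j) (by omega)
  have h6 := (EQ.refl (p := p) (k := 2) (pow_mem (neg_mem (one_mem (Zp p))) j)).mul
    (h4.div (by norm_num) (EQ.refl uf.2.1) uf)
  have e1 : (-1) ^ j * (n.choose j : ℚ) =
      (-1) ^ j * ((∏ i ∈ range j, (-1 / 2 - (i : ℚ) + p / 2)) / (j.factorial : ℚ)) := by
    rw [← gb_nat, gb]
    congr 2
    refine prod_congr rfl fun i _ => ?_
    rw [hpq]; ring
  have e2 : (-1) ^ j * ((∏ i ∈ range j, (-1 / 2 - (i : ℚ))) * (1 + p / 2 * (-2 * O j)) /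
      (j.factorial : ℚ)) = b j * (1 + p / 2 * (-2 * O j)) := by
    rw [b, gb]
    ring
  rw [← e1, e2] at h6
  refine h6.trans ?_
  have h7 := O_eq hn hj
  have hb : b j ∈ Zp p := by
    rw [b]
    exact mul_mem (pow_mem (neg_mem (one_mem _)) _)
      (gb_congr one_pos (mhalf hn) (by omega : j < p)).1
  have e3 : b j * (1 + p / 2 * (H n - H (n - j))) =
      b j * (1 + p / 2 * (-2 * (-(1 / 2) * (H n - H (n - j))))) := by ring
  rw [e3]
  refine ⟨h6.2.1, ?_, ?_⟩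
  · exact mul_mem hb (add_mem (one_mem _) (mul_mem hδ.mem
      (mul_mem (neg_mem u2.2.1) h7.2.1)))
  · have e4 : b j * (1 + p / 2 * (-2 * O j)) -
      b j * (1 + p / 2 * (-2 * (-(1 / 2) * (H n - H (n - j))))) =
      b j * (-(p * (O j - (-(1 / 2) * (H n - H (n - j)))))) := by ring
    rw [e4]
    exact (((I_p (p := p)).mul h7.2.2).neg).mulL hb

end Pool.Agent.K1H59.SC
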