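import Mathlib
import Pool.Agent.K1H59.SC.C

set_option autoImplicit false

/-!
The Jacobi sums (as integers) modulo `p^2`.
-/

namespace Pool.Agent.K1H59.SC

open Finset Pool.Agent.R439.PL
open Pool.Agent.R488.Cub (gb H)

/-- the integer of the case `p = 8j+1` -/
def K1 (p j : ℕ) : ℤ := ((p : ℤ) - 1) * ((-1) ^ j * ((4 * j).choose j : ℤ) +
  (4 * j : ℕ) * p * (cA p (4 * j - 1) j + cB p (4 * j - 1) (j - 1)))

/-- first order term in the case `p = 8t+3` -/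
def W (p n j t : ℕ) : ℤ := cA p n j * ((-1) ^ t * ((n - 1).choose t : ℤ)) +
  cB p n j * ((-1) ^ (t - 1) * ((n - 1).choose (t - 1) : ℤ))

/-- the integer of the case `p = 8t+3`, `j = 3t+1`, `n = 4t+1` -/
def K3 (p t : ℕ) : ℤ := -((-1) ^ (4 * t + 1) * ((4 * t + 1).choose (3 * t + 1) : ℤ) *
    ((4 * t + 1).choose t : ℤ) +
  (4 * t + 1 : ℕ) * p * (W p (4 * t + 1) (3 * t + 1) t + W p (4 * t + 1) t (3 * t + 1)))

variable {p : ℕ} [hp : Fact p.Prime]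

theorem lin2 {u v z : ℚ} (hu : u ∈ Zp p) (hv : v ∈ Zp p) (hz : z ∈ Zp p)
    (h : I p 1 (u + v - z)) : EQ p 2 ((1 + p * u) * (1 + p * v)) (1 + p * z) := by
  refine ⟨mul_mem (add_mem (one_mem _) (mul_mem p_mem hu)) (add_mem (one_mem _) (mul_mem p_mem hv)),
    add_mem (one_mem _) (mul_mem p_mem hz), ?_⟩
  have e : (1 + p * u) * (1 + p * v) - (1 + p * z) = p * (u + v - z) + p * (p * (u * v)) := by ring
  rw [e]
  exact ((I_p (p := p)).mul h).add ((I_p (p := p)).mul ((I_p (p := p)).mulR (mul_mem hu hv)))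

theorem b_mem {n j : ℕ} (hn : p = 2 * n + 1) (hj : j ≤ n) : b j ∈ Zp p := by
  rw [b]
  exact mul_mem (pow_mem (neg_mem (one_mem _)) _)
    (gb_congr one_pos (mhalf hn) (by omega : j < p)).1

theorem eighth_mem (hn : p ≠ 2) : (1 / 8 : ℚ) ∈ Zp p := by
  have h3 := half_mem hn
  have := mul_mem h3 (mul_mem h3 h3)
  norm_num at this ⊢
  exact this

/-- `(n+1) C(n,k) = (n+1-k) C(n+1,k)` and `(n+1) C(n,k) = (k+1) C(n+1,k+1)` -/
theorem ch_diag (m k : ℕ) : ((m : ℚ) + 1) * (m.choose k : ℚ) =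
    ((m + 1).choose (k + 1) : ℚ) * ((k : ℚ) + 1) := by
  have := Nat.add_one_mul_choose_eq m k
  exact_mod_cast this

theorem K1_eq {j : ℕ} (hpj : p = 8 * j + 1) : EQ p 2 (-((K1 p j : ℤ) : ℚ)) (UU p (4 * j) 1 j) := by
  have h2 : p ≠ 2 := by have := hp.out.two_le; omega
  have hj0 : 0 < j := by have := hp.out.one_lt; omega
  obtain ⟨i, rfl⟩ : ∃ i, j = i + 1 := ⟨j - 1, by omega⟩
  have hn : p = 2 * (4 * (i + 1)) + 1 := by omega
  have hpq : (p : ℚ) = 8 * i + 9 := by rw [hpj]; push_cast; ring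
  have h8 := eighth_mem (p := p) h2
  have hA := cA_eq (p := p) (c := 4 * (i + 1) - 1) (m := i + 1) (by omega) (by omega)
  have hB := cB_eq (p := p) (c := 4 * (i + 1) - 1) (m := i) (by omega) (by omega)
  have hC := choose_eq (p := p) (n := 4 * (i + 1)) (j := i + 1) hn (by omega)
  have e1 : 4 * (i + 1) - 1 = 4 * i + 3 := by omega
  have e2 : 4 * (i + 1) = 4 * i + 3 + 1 := by omega
  have e3 : 4 * i + 3 - (i + 1) = 3 * i + 2 := by omega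
  have e4 : 4 * i + 3 + 1 - (i + 1) = 3 * i + 2 + 1 := by omega
  rw [K1, UU, e1, show i + 1 - 1 = i by omega]
  rw [e1, e3] at hA
  rw [e1] at hB
  rw [e2, e4] at hC ⊢
  have r1 := ch_up (4 * i + 3) (i + 1)
  have r2 := ch_diag (4 * i + 3) i
  have s1 := Pool.Agent.R439.FD.alt_H_succ (4 * i + 3)
  have s2 := Pool.Agent.R439.FD.alt_H_succ (3 * i + 2)
  have s3 := Pool.Agent.R439.FD.alt_H_succ i
  have m1 : H (4 * i + 3 + 1) ∈ Zp p := H_mem (by omega)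
  have m2 : H (3 * i + 2 + 1) ∈ Zp p := H_mem (by omega)
  have m3 : H (i + 1) ∈ Zp p := H_mem (by omega)
  obtain ⟨x, hx⟩ : ∃ x, H (4 * i + 3 + 1) = x := ⟨_, rfl⟩
  obtain ⟨z, hz⟩ : ∃ z, H (3 * i + 2 + 1) = z := ⟨_, rfl⟩
  obtain ⟨y, hy⟩ : ∃ y, H (i + 1) = y := ⟨_, rfl⟩
  rw [hx] at s1 m1 hC
  rw [hz] at s2 m2 hC ⊢
  rw [hy] at s3 m3 ⊢
  obtain ⟨x', hx'⟩ : ∃ x', H (4 * i + 3) = x' := ⟨_, rfl⟩
  obtain ⟨z', hz'⟩ : ∃ z', H (3 * i + 2) = z' := ⟨_, rfl⟩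
  obtain ⟨y', hy'⟩ : ∃ y', H i = y' := ⟨_, rfl⟩
  rw [hx'] at hA hB s1
  rw [hz'] at hA s2
  rw [hy'] at hB s3
  push_cast at r1 r2 s1 s2 s3
  obtain ⟨c, hc⟩ : ∃ c, ((4 * i + 3 + 1).choose (i + 1) : ℚ) = c := ⟨_, rfl⟩
  rw [hc] at r1 r2 hC
  obtain ⟨σ, hσ⟩ : ∃ σ : ℚ, (-1 : ℚ) ^ (i + 1) = σ := ⟨_, rfl⟩
  have hσ' : (-1 : ℚ) ^ i = -σ := by rw [← hσ, pow_succ]; ring
  rw [hσ] at hA hC
  rw [hσ'] at hB
  have hσm : σ ∈ Zp p := by rw [← hσ]; exact pow_mem (neg_mem (one_mem _)) _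
  have hcm : c ∈ Zp p := by rw [← hc]; exact nat_mem _
  have d1 : (4 * (i : ℚ) + 4) ≠ 0 := by positivity
  have d2 : (3 * (i : ℚ) + 3) ≠ 0 := by positivity
  have d3 : ((i : ℚ) + 1) ≠ 0 := by positivity
  have t1 : (4 * (i : ℚ) + 4) * x' = (4 * i + 4) * x - 1 := by
    rw [s1]; field_simp; ring
  have t2 : (3 * (i : ℚ) + 3) * z' = (3 * i + 3) * z - 1 := by
    rw [s2]; field_simp; ring
  have t3 : ((i : ℚ) + 1) * y' = (i + 1) * y - 1 := by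
    rw [s3]; field_simp; ring
  -- `X`
  obtain ⟨X, hX⟩ : ∃ X : ℚ, X = (4 * (i : ℚ) + 4) * ((cA p (4 * i + 3) (i + 1) : ℤ) +
    (cB p (4 * i + 3) i : ℤ)) := ⟨_, rfl⟩
  obtain ⟨Q, hQ⟩ : ∃ Q : ℚ, Q = (4 * (i : ℚ) + 4) * x - (3 * i + 3) * z - (i + 1) * y := ⟨_, rfl⟩
  have n4 : (4 * (i : ℚ) + 4) ∈ Zp p := by
    have := nat_mem (p := p) (4 * i + 4); push_cast at this; exact this
  have n3 : (3 * (i : ℚ) + 3) ∈ Zp p := by
    have := nat_mem (p := p) (3 * i + 3); push_cast at this; exact this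
  have n1 : ((i : ℚ) + 1) ∈ Zp p := by
    have := nat_mem (p := p) (i + 1); push_cast at this; exact this
  have hQm : Q ∈ Zp p := by
    rw [hQ]; exact sub_mem (sub_mem (mul_mem n4 m1) (mul_mem n3 m2)) (mul_mem n1 m3)
  have hXe : EQ p 1 X (σ * c * (Q + 1)) := by
    have h5 := (EQ.refl (p := p) (k := 1) n4).mul (hA.add hB)
    rw [← hX] at h5
    have e : (4 * (i : ℚ) + 4) * (σ * (((4 * i + 3).choose (i + 1) : ℕ) : ℚ) * (x' - z') +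
        -σ * (((4 * i + 3).choose i : ℕ) : ℚ) * (y' - x')) = σ * c * (Q + 1) := by
      rw [hQ]
      linear_combination (σ * (x' - z')) * r1 + (-σ * (y' - x')) * r2 + (σ * c) * t1 -
        (σ * c) * t2 - (σ * c) * t3
    rw [e] at h5
    exact h5
  have hQe : I p 1 (Q - (-(1 / 2) * x + (3 / 8) * z + (1 / 8) * y)) := by
    refine ⟨(1 / 8) * (4 * x - 3 * z - y), mul_mem h8 ?_, ?_⟩
    · have f4 := nat_mem (p := p) 4
      have f3 := nat_mem (p := p) 3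
      push_cast at f4 f3
      exact sub_mem (sub_mem (mul_mem f4 m1) (mul_mem f3 m2)) m3
    · rw [hQ, hpq]; ring
  -- reduce `K1`
  have h6 : EQ p 2 (-((((p : ℤ) - 1) * ((-1) ^ (i + 1) * (((4 * i + 3 + 1).choose (i + 1) : ℕ) : ℤ) +
      (4 * i + 3 + 1 : ℕ) * p * (cA p (4 * i + 3) (i + 1) + cB p (4 * i + 3) i)) : ℤ) : ℚ))
      (σ * c * (1 + p * Q)) := by
    have hl : (-((((p : ℤ) - 1) * ((-1) ^ (i + 1) * (((4 * i + 3 + 1).choose (i + 1) : ℕ) : ℤ) +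
      (4 * i + 3 + 1 : ℕ) * p * (cA p (4 * i + 3) (i + 1) + cB p (4 * i + 3) i)) : ℤ) : ℚ)) =
      -((p - 1) * (σ * c + p * X)) := by
      push_cast
      rw [hσ, hc, hX]
      ring
    rw [hl]
    refine ⟨neg_mem (mul_mem (sub_mem p_mem (one_mem _)) (add_mem (mul_mem hσm hcm)
      (mul_mem p_mem hXe.1))), mul_mem (mul_mem hσm hcm) (add_mem (one_mem _) (mul_mem p_mem hQm)), ?_⟩
    have e : -((p - 1) * (σ * c + p * X)) - σ * c * (1 + p * Q) =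
      p * (X - σ * c * (Q + 1)) - p * (p * X) := by ring
    rw [e]
    exact ((I_p (p := p)).mul hXe.2.2).sub ((I_p (p := p)).mul ((I_p (p := p)).mulR hXe.1))
  refine h6.trans ?_
  have h7 := hC.mul (EQ.refl (p := p) (k := 2) (add_mem (one_mem (Zp p)) (mul_mem p_mem hQm)))
  have h3 := half_mem h2
  have u1 : (1 / 2 : ℚ) * (x - z) ∈ Zp p := mul_mem h3 (sub_mem m1 m2)
  have u2 : (1 / 8 : ℚ) * (y - z) ∈ Zp p := mul_mem h8 (sub_mem m3 m2)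
  have h9 := lin2 u1 hQm u2 (by
    have e : (1 / 2 : ℚ) * (x - z) + Q - 1 / 8 * (y - z) =
      Q - (-(1 / 2) * x + (3 / 8) * z + (1 / 8) * y) := by ring
    rw [e]; exact hQe)
  have h10 := (EQ.refl (p := p) (k := 2) (b_mem hn (j := i + 1) (by omega))).mul h9
  have e5 : b (i + 1) * (1 + p / 2 * (x - z)) * (1 + p * Q) =
    b (i + 1) * ((1 + p * (1 / 2 * (x - z))) * (1 + p * Q)) := by ring
  have e6 : b (i + 1) * (1 + ((1 : ℕ) : ℚ) * p / 8 * (y - z)) =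
    b (i + 1) * (1 + p * (1 / 8 * (y - z))) := by push_cast; ring
  rw [e6]
  rw [e5] at h7
  exact h7.trans h10

theorem nW_eq {n j t : ℕ} (hn : p = 2 * n + 1) (hjt : n = j + t) (ht : 0 < t) :
    EQ p 1 ((n : ℚ) * ((W p n j t : ℤ) : ℚ)) ((-1) ^ n * (n.choose j : ℚ) ^ 2 *
      (j * (H n - H t) + t * (H n - H j))) := by
  obtain ⟨s, rfl⟩ : ∃ s, t = s + 1 := ⟨t - 1, by omega⟩
  obtain ⟨m, rfl⟩ : ∃ m, n = m + 1 := ⟨n - 1, by omega⟩
  have hA := cA_eq (p := p) (c := m + 1) (m := j) (by omega) (by omega)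
  have hB := cB_eq (p := p) (c := m + 1) (m := j) (by omega) (by omega)
  rw [show m + 1 - j = s + 1 by omega] at hA
  have r1 := ch_up m (s + 1)
  have r2 := ch_diag m s
  have hsym : (m + 1).choose (s + 1) = (m + 1).choose j := by
    rw [← Nat.choose_symm (show j ≤ m + 1 by omega), show m + 1 - j = s + 1 by omega]
  rw [hsym] at r1 r2
  have m1 : H (m + 1) ∈ Zp p := H_mem (by omega)
  have m2 : H (s + 1) ∈ Zp p := H_mem (by omega)
  have m3 : H j ∈ Zp p := H_mem (by omega)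
  have hms : (m : ℚ) = j + s := by
    have : m = j + s := by omega
    rw [this]; push_cast; ring
  have e0 : (((m + 1 : ℕ) : ℚ)) * ((W p (m + 1) j (s + 1) : ℤ) : ℚ) =
      (-1) ^ (s + 1) * ((m + 1).choose j : ℚ) * (j * ((cA p (m + 1) j : ℤ) : ℚ) -
        (s + 1) * ((cB p (m + 1) j : ℤ) : ℚ)) := by
    rw [W, show m + 1 - 1 = m by omega, show s + 1 - 1 = s by omega, pow_succ]
    push_cast
    push_cast at r1
    rw [show (m : ℚ) + 1 - (s + 1) = j by rw [hms]; ring] at r1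
    linear_combination (-(-1 : ℚ) ^ s * ((cA p (m + 1) j : ℤ) : ℚ)) * r1 +
      ((-1 : ℚ) ^ s * ((cB p (m + 1) j : ℤ) : ℚ)) * r2
  have e1 : (-1 : ℚ) ^ (m + 1) * ((m + 1).choose j : ℚ) ^ 2 *
      (j * (H (m + 1) - H (s + 1)) + ((s + 1 : ℕ) : ℚ) * (H (m + 1) - H j)) =
      (-1) ^ (s + 1) * ((m + 1).choose j : ℚ) * (j * ((-1) ^ j * ((m + 1).choose j : ℚ) *
        (H (m + 1) - H (s + 1))) - (s + 1) * ((-1) ^ j * ((m + 1).choose j : ℚ) *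
        (H j - H (m + 1)))) := by
    have : (-1 : ℚ) ^ (m + 1) = (-1) ^ (s + 1) * (-1) ^ j := by
      rw [← pow_add]; congr 1; omega
    rw [this]
    push_cast
    ring
  rw [e0, e1]
  have n1 : ((s : ℚ) + 1) ∈ Zp p := by
    have := nat_mem (p := p) (s + 1); push_cast at this; exact this
  exact (EQ.refl (mul_mem (pow_mem (neg_mem (one_mem _)) _) (nat_mem _))).mul
    (((EQ.refl (nat_mem _)).mul hA).sub ((EQ.refl n1).mul hB))

theorem K3_eq {t : ℕ} (hpt : p = 8 * t + 3) (ht : 0 < t) :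
    EQ p 2 ((K3 p t : ℤ) : ℚ) (UU p (4 * t + 1) 3 (3 * t + 1) ^ 2) := by
  have h2 : p ≠ 2 := by omega
  have hn : p = 2 * (4 * t + 1) + 1 := by omega
  have hpq : (p : ℚ) = 8 * t + 3 := by rw [hpt]; push_cast; ring
  have h8 := eighth_mem (p := p) h2
  have h3 := half_mem h2
  have hW1 := nW_eq (p := p) (n := 4 * t + 1) (j := 3 * t + 1) (t := t) hn (by omega) ht
  have hW2 := nW_eq (p := p) (n := 4 * t + 1) (j := t) (t := 3 * t + 1) hn (by omega) (by omega)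
  have hC := choose_eq (p := p) (n := 4 * t + 1) (j := 3 * t + 1) hn (by omega)
  rw [show 4 * t + 1 - (3 * t + 1) = t by omega] at hC
  have hsym : (4 * t + 1).choose t = (4 * t + 1).choose (3 * t + 1) := by
    rw [← Nat.choose_symm (show t ≤ 4 * t + 1 by omega), show 4 * t + 1 - t = 3 * t + 1 by omega]
  rw [UU, show 4 * t + 1 - (3 * t + 1) = t by omega]
  have m1 : H (4 * t + 1) ∈ Zp p := H_mem (by omega)
  have m2 : H t ∈ Zp p := H_mem (by omega)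
  have m3 : H (3 * t + 1) ∈ Zp p := H_mem (by omega)
  have hodd : ∀ {M : Type} [CommRing M], (-1 : M) ^ (4 * t + 1) = -1 := fun {M} _ =>
    Odd.neg_one_pow ⟨2 * t, by ring⟩
  rw [K3, hsym]
  rw [hsym] at hW2
  obtain ⟨c, hc⟩ : ∃ c : ℚ, (((4 * t + 1).choose (3 * t + 1) : ℕ) : ℚ) = c := ⟨_, rfl⟩
  have hcm : c ∈ Zp p := by rw [← hc]; exact nat_mem _
  rw [hc, hodd] at hW1 hW2
  rw [hc] at hC
  obtain ⟨x, hx⟩ : ∃ x, H (4 * t + 1) = x := ⟨_, rfl⟩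
  obtain ⟨z, hz⟩ : ∃ z, H t = z := ⟨_, rfl⟩
  obtain ⟨y, hy⟩ : ∃ y, H (3 * t + 1) = y := ⟨_, rfl⟩
  rw [hx] at hW1 hW2 m1 hC
  rw [hz] at hW1 hW2 m2 hC ⊢
  rw [hy] at hW1 hW2 m3 ⊢
  obtain ⟨σ, hσ⟩ : ∃ σ : ℚ, (-1 : ℚ) ^ (3 * t + 1) = σ := ⟨_, rfl⟩
  have hσ2 : σ ^ 2 = 1 := by rw [← hσ, ← pow_mul, mul_comm]; exact Even.neg_one_pow ⟨3 * t + 1, by ring⟩
  rw [hσ] at hC
  push_cast at hW1 hW2
  obtain ⟨R, hR⟩ : ∃ R : ℚ, R = (3 * (t : ℚ) + 1) * (x - z) + t * (x - y) := ⟨_, rfl⟩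
  have n3 : (3 * (t : ℚ) + 1) ∈ Zp p := by
    have := nat_mem (p := p) (3 * t + 1); push_cast at this; exact this
  have n0 : (t : ℚ) ∈ Zp p := nat_mem t
  have f2 : (2 : ℚ) ∈ Zp p := (U2 h2).2.1
  have f3 : (3 : ℚ) ∈ Zp p := by
    have := nat_mem (p := p) 3; push_cast at this; exact this
  have hRm : R ∈ Zp p := by
    rw [hR]; exact add_mem (mul_mem n3 (sub_mem m1 m2)) (mul_mem n0 (sub_mem m1 m3))
  have hX := hW1.add hW2
  obtain ⟨X, hX0⟩ : ∃ X : ℚ, X = (4 * (t : ℚ) + 1) * ((W p (4 * t + 1) (3 * t + 1) t : ℤ) : ℚ) +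
    (4 * (t : ℚ) + 1) * ((W p (4 * t + 1) t (3 * t + 1) : ℤ) : ℚ) := ⟨_, rfl⟩
  rw [← hX0] at hX
  have e1 : -1 * c ^ 2 * ((3 * (t : ℚ) + 1) * (x - z) + t * (x - y)) +
      -1 * c ^ 2 * (t * (x - y) + (3 * (t : ℚ) + 1) * (x - z)) = -(c ^ 2 * (2 * R)) := by
    rw [hR]; ring
  rw [e1] at hX
  have h6 : EQ p 2 (((-((-1) ^ (4 * t + 1) * (((4 * t + 1).choose (3 * t + 1) : ℕ) : ℤ) *
      (((4 * t + 1).choose (3 * t + 1) : ℕ) : ℤ) + (4 * t + 1 : ℕ) * p *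
      (W p (4 * t + 1) (3 * t + 1) t + W p (4 * t + 1) t (3 * t + 1))) : ℤ) : ℚ))
      (c ^ 2 * (1 + p * (2 * R))) := by
    have hl : (((-((-1) ^ (4 * t + 1) * (((4 * t + 1).choose (3 * t + 1) : ℕ) : ℤ) *
      (((4 * t + 1).choose (3 * t + 1) : ℕ) : ℤ) + (4 * t + 1 : ℕ) * p *
      (W p (4 * t + 1) (3 * t + 1) t + W p (4 * t + 1) t (3 * t + 1))) : ℤ) : ℚ)) =
      c ^ 2 - p * X := by
      push_cast
      rw [hodd, hc, hX0]
      ring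
    rw [hl]
    refine ⟨sub_mem (pow_mem hcm 2) (mul_mem p_mem hX.1), mul_mem (pow_mem hcm 2)
      (add_mem (one_mem _) (mul_mem p_mem (mul_mem f2 hRm))), ?_⟩
    have e : c ^ 2 - p * X - c ^ 2 * (1 + p * (2 * R)) = -(p * (X - -(c ^ 2 * (2 * R)))) := by ring
    rw [e]
    exact ((I_p (p := p)).mul hX.2.2).neg
  refine h6.trans ?_
  have hC2 := (hC.pow 2).mul (EQ.refl (p := p) (k := 2) (add_mem (one_mem (Zp p))
    (mul_mem p_mem (mul_mem f2 hRm))))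
  have e2 : (σ * c) ^ 2 = c ^ 2 := by rw [mul_pow, hσ2, one_mul]
  rw [e2] at hC2
  refine hC2.trans ?_
  have u1 : (1 / 2 : ℚ) * (x - z) ∈ Zp p := mul_mem h3 (sub_mem m1 m2)
  have u2 : (1 / 8 : ℚ) * (3 * (y - z)) ∈ Zp p := mul_mem h8 (mul_mem f3 (sub_mem m3 m2))
  have u3 : (2 : ℚ) * ((1 / 8 : ℚ) * (3 * (y - z))) ∈ Zp p := mul_mem f2 u2
  have u4 : (x - z) ∈ Zp p := sub_mem m1 m2
  have hb := b_mem hn (j := 3 * t + 1) (by omega)
  have h7 := lin2 u1 u1 u4 (by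
    have e : (1 / 2 : ℚ) * (x - z) + 1 / 2 * (x - z) - (x - z) = 0 := by ring
    rw [e]; exact I.zero)
  have h9 := lin2 u4 (mul_mem f2 hRm) u3 (by
    have e : x - z + 2 * R - 2 * (1 / 8 * (3 * (y - z))) =
      p * ((1 / 8) * (2 * (3 * (x - z) + (x - y)))) := by
      rw [hR, hpq]; ring
    rw [e]
    exact (I_p (p := p)).mulR (mul_mem h8 (mul_mem f2 (add_mem (mul_mem f3 u4) (sub_mem m1 m3)))))
  have h10 := lin2 u2 u2 u3 (by
    have e : (1 / 8 : ℚ) * (3 * (y - z)) + 1 / 8 * (3 * (y - z)) - 2 * (1 / 8 * (3 * (y - z))) = 0 := by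
      ring
    rw [e]; exact I.zero)
  have h11 := (h7.mul (EQ.refl (p := p) (k := 2) (add_mem (one_mem (Zp p))
    (mul_mem p_mem (mul_mem f2 hRm))))).trans (h9.trans h10.symm)
  have h12 := (EQ.refl (p := p) (k := 2) (pow_mem hb 2)).mul h11
  have e5 : (b (3 * t + 1) * (1 + p / 2 * (x - z))) ^ 2 * (1 + p * (2 * R)) =
    b (3 * t + 1) ^ 2 * ((1 + p * (1 / 2 * (x - z))) * (1 + p * (1 / 2 * (x - z))) *
      (1 + p * (2 * R))) := by ring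
  have e6 : (b (3 * t + 1) * (1 + ((3 : ℕ) : ℚ) * p / 8 * (y - z))) ^ 2 =
    b (3 * t + 1) ^ 2 * ((1 + p * (1 / 8 * (3 * (y - z)))) * (1 + p * (1 / 8 * (3 * (y - z))))) := by
    push_cast; ring
  rw [e5, e6]
  exact h12

end Pool.Agent.K1H59.SC
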