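import Mathlib
import Pool.Agent.K1H59.SC.C

set_option autoImplicit false

/-!
Teichmüller lifts modulo `p^2` and power sums.
-/

namespace Pool.Agent.K1H59.SC

open Finset

/-- `R` is a ring with `p^2 = 0` and residue field `F` with `p^f` elements -/
structure Lift (p f : ℕ) (F R : Type*) [Field F] [Fintype F] [CommRing R] (π : R →+* F) :
    Prop where
  surj : Function.Surjective π
  ker : ∀ x, π x = 0 → ∃ y, x = p * y
  psq : (p : R) ^ 2 = 0
  card : Fintype.card F = p ^ f
  fpos : 0 < f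

variable {p f : ℕ} [hp : Fact p.Prime] {F R : Type*} [Field F] [Fintype F] [CommRing R]
  {π : R →+* F}

theorem Lift.pow_eq (L : Lift p f F R π) {a a' : R} (h : π a = π a') : a ^ p = a' ^ p := by
  have h1 : π (a - a') = 0 := by rw [map_sub, h, sub_self]
  obtain ⟨y, hy⟩ := L.ker _ h1
  have h2 : (p : R) ∣ a - a' := ⟨y, hy⟩
  have h3 := dvd_sub_pow_of_dvd_sub h2 1
  rw [pow_one, show 1 + 1 = 2 by norm_num, L.psq] at h3
  exact sub_eq_zero.1 (zero_dvd_iff.1 h3)

theorem Lift.pow_q_eq (L : Lift p f F R π) {a a' : R} (h : π a = π a') :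
    a ^ (p ^ f) = a' ^ (p ^ f) := by
  obtain ⟨g, hg⟩ : ∃ g, f = g + 1 := ⟨f - 1, by have := L.fpos; omega⟩
  rw [hg, pow_succ', pow_mul, pow_mul, L.pow_eq h]

/-- `x ↦ x^p` lifted to `F` -/
noncomputable def Lift.psi (L : Lift p f F R π) (x : F) : R := (Function.surjInv L.surj x) ^ p

/-- the Teichmüller lift -/
noncomputable def Lift.tau (L : Lift p f F R π) (x : F) : R :=
  (Function.surjInv L.surj x) ^ (p ^ f)

omit hp in
theorem Lift.sec (L : Lift p f F R π) (x : F) : π (Function.surjInv L.surj x) = x :=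
  Function.surjInv_eq L.surj x

theorem Lift.psi_pi (L : Lift p f F R π) (r : R) : L.psi (π r) = r ^ p := by
  rw [Lift.psi]; exact L.pow_eq (L.sec _)

theorem Lift.tau_pi (L : Lift p f F R π) (r : R) : L.tau (π r) = r ^ (p ^ f) := by
  rw [Lift.tau]; exact L.pow_q_eq (L.sec _)

theorem Lift.psi_mul (L : Lift p f F R π) (x y : F) : L.psi (x * y) = L.psi x * L.psi y := by
  rw [Lift.psi, Lift.psi, Lift.psi, ← mul_pow]
  exact L.pow_eq (by rw [L.sec, map_mul, L.sec, L.sec])

theorem Lift.tau_mul (L : Lift p f F R π) (x y : F) : L.tau (x * y) = L.tau x * L.tau y := by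
  rw [Lift.tau, Lift.tau, Lift.tau, ← mul_pow]
  exact L.pow_q_eq (by rw [L.sec, map_mul, L.sec, L.sec])

theorem Lift.psi_one (L : Lift p f F R π) : L.psi 1 = 1 := by
  have := L.psi_pi 1
  rwa [map_one, one_pow] at this

theorem Lift.tau_one (L : Lift p f F R π) : L.tau 1 = 1 := by
  have := L.tau_pi 1
  rwa [map_one, one_pow] at this

theorem Lift.psi_zero (L : Lift p f F R π) : L.psi 0 = 0 := by
  have := L.psi_pi 0
  rwa [map_zero, zero_pow hp.out.ne_zero] at this

theorem Lift.tau_zero (L : Lift p f F R π) : L.tau 0 = 0 := by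
  have := L.tau_pi 0
  rwa [map_zero, zero_pow (pow_ne_zero _ hp.out.ne_zero)] at this

theorem Lift.psi_neg_one (L : Lift p f F R π) (h2 : p ≠ 2) : L.psi (-1) = -1 := by
  have := L.psi_pi (-1)
  rwa [map_neg, map_one, Odd.neg_one_pow (hp.out.odd_of_ne_two h2)] at this

theorem Lift.psi_pow (L : Lift p f F R π) (x : F) (k : ℕ) : L.psi (x ^ k) = L.psi x ^ k := by
  induction k with
  | zero => rw [pow_zero, pow_zero, L.psi_one]
  | succ k ih => rw [pow_succ, pow_succ, L.psi_mul, ih]

theorem Lift.tau_pow (L : Lift p f F R π) (x : F) (k : ℕ) : L.tau (x ^ k) = L.tau x ^ k := by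
  induction k with
  | zero => rw [pow_zero, pow_zero, L.tau_one]
  | succ k ih => rw [pow_succ, pow_succ, L.tau_mul, ih]

omit hp in
theorem Lift.pi_tau (L : Lift p f F R π) (x : F) : π (L.tau x) = x := by
  rw [Lift.tau, map_pow, L.sec, ← L.card, FiniteField.pow_card]

theorem Lift.tau_card (L : Lift p f F R π) (x : F) : L.tau x ^ (p ^ f) = L.tau x := by
  rw [← L.tau_pow, ← L.card, FiniteField.pow_card]

/-- `ψ(1-x) = (1-τ(x))^p` -/
theorem Lift.psi_one_sub (L : Lift p f F R π) (x : F) : L.psi (1 - x) = (1 - L.tau x) ^ p := by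
  rw [← L.psi_pi, map_sub, map_one, L.pi_tau]

theorem Lift.isUnit (L : Lift p f F R π) {r : R} (h : π r ≠ 0) : IsUnit r := by
  obtain ⟨r', hr'⟩ := L.surj (π r)⁻¹
  have h1 : π (r * r' - 1) = 0 := by
    rw [map_sub, map_mul, hr', mul_inv_cancel₀ h, map_one, sub_self]
  obtain ⟨y, hy⟩ := L.ker _ h1
  have h2 : r * (r' * (1 - p * y)) = 1 := by
    have h3 : r * r' = 1 + p * y := by linear_combination hy
    have h4 := L.psq
    linear_combination (1 - p * y) * h3 - y ^ 2 * h4
  exact IsUnit.of_mul_eq_one _ h2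

theorem Lift.power_sum (L : Lift p f F R π) {k : ℕ} (hk : 0 < k) :
    ∑ x, L.tau x ^ k = if (p ^ f - 1) ∣ k then ((p : R) ^ f - 1) else 0 := by
  classical
  split_ifs with h
  · obtain ⟨c, rfl⟩ := h
    have h1 : ∀ x : F, L.tau x ^ ((p ^ f - 1) * c) = if x = 0 then 0 else 1 := by
      intro x
      split_ifs with hx
      · rw [hx, L.tau_zero, zero_pow hk.ne']
      · rw [← L.tau_pow, pow_mul, ← L.card, FiniteField.pow_card_sub_one_eq_one x hx, one_pow,
          L.tau_one]
    rw [sum_congr rfl fun x _ => h1 x]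
    have h2 : ∀ x : F, (if x = 0 then (0 : R) else 1) = 1 - if x = 0 then 1 else 0 := by
      intro x; split_ifs <;> simp
    rw [sum_congr rfl fun x _ => h2 x, sum_sub_distrib, sum_ite_eq' univ (0 : F) fun _ => (1 : R)]
    simp only [sum_const, card_univ, nsmul_eq_mul, mul_one, mem_univ, if_true, L.card]
    push_cast
    ring
  · obtain ⟨g, hg⟩ := IsCyclic.exists_generator (α := Fˣ)
    have hord : orderOf g = p ^ f - 1 := by
      rw [orderOf_eq_card_of_forall_mem_zpowers hg, Nat.card_eq_fintype_card, Fintype.card_units,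
        L.card]
    have hgk : (g : F) ^ k ≠ 1 := by
      intro h1
      apply h
      rw [← hord]
      apply orderOf_dvd_of_pow_eq_one
      apply Units.ext
      rw [Units.val_pow_eq_pow_val, h1, Units.val_one]
    have h2 : L.tau (g : F) ^ k * ∑ x, L.tau x ^ k = ∑ x, L.tau x ^ k := by
      rw [mul_sum]
      rw [← Equiv.sum_comp (Units.mulLeft g) (fun x => L.tau x ^ k)]
      refine sum_congr rfl fun x _ => ?_
      rw [← mul_pow, ← L.tau_mul]
      rfl
    have h3 : (L.tau (g : F) ^ k - 1) * ∑ x, L.tau x ^ k = 0 := by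
      rw [sub_mul, h2, one_mul, sub_self]
    have h4 : IsUnit (L.tau (g : F) ^ k - 1) := by
      apply L.isUnit
      rw [map_sub, map_pow, L.pi_tau, map_one]
      exact sub_ne_zero.2 hgk
    exact (h4.mul_right_eq_zero).1 h3

/-- the polynomial `E` -/
def EE (p : ℕ) (T : R) : R := ∑ r ∈ Ico 1 p, (ee p r : R) * T ^ r

theorem one_sub_pow (h2 : p ≠ 2) (T : R) : (1 - T) ^ p = 1 - T ^ p + p * EE p T := by
  have hodd := hp.out.odd_of_ne_two h2
  have hp0 := hp.out.pos
  rw [sub_eq_neg_add, add_pow]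
  rw [range_eq_Ico, sum_Ico_succ_top (by omega), sum_eq_sum_Ico_succ_bot (by omega)]
  have h3 : ∑ k ∈ Ico (0 + 1) p, (-T) ^ k * 1 ^ (p - k) * (p.choose k : R) = p * EE p T := by
    rw [EE, mul_sum, zero_add]
    refine sum_congr rfl fun r hr => ?_
    have hr' := mem_Ico.1 hr
    have hd : p ∣ p.choose r := hp.out.dvd_choose_self (by omega) hr'.2
    obtain ⟨c, hc⟩ := hd
    rw [ee, hc, Nat.mul_div_cancel_left _ hp0, one_pow, neg_pow]
    push_cast
    ring
  rw [h3]
  simp only [pow_zero, Nat.choose_zero_right, Nat.choose_self, one_pow, Nat.sub_self, Nat.cast_one,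
    mul_one, hodd.neg_pow]
  ring

theorem one_sub_pow' (T : R) (c : ℕ) : (1 - T) ^ c =
    ∑ i ∈ range (c + 1), (((-1) ^ i * (c.choose i : ℤ) : ℤ) : R) * T ^ i := by
  rw [sub_eq_neg_add, add_pow]
  refine sum_congr rfl fun i _ => ?_
  rw [one_pow, neg_pow]
  push_cast
  ring

/-- first order expansion -/
theorem add_p_pow {P : R} (hP : P ^ 2 = 0) (x y : R) (k : ℕ) :
    (x + P * y) ^ (k + 1) = x ^ (k + 1) + (k + 1 : ℕ) * P * (x ^ k * y) := by
  induction k with
  | zero => simp
  | succ k ih =>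
    rw [pow_succ, ih, pow_succ x (k + 1)]
    have h : x ^ (k + 1) = x ^ k * x := pow_succ x k
    push_cast
    linear_combination ((k + 1 : R) * (x ^ k * y) * y) * hP - (((k : R) + 1) * P * y) * h

end Pool.Agent.K1H59.SC
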