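import Mathlib
import Pool.Agent.K1H59.SC.D
import Pool.Agent.K1H59.SC.E

set_option autoImplicit false

/-!
The Jacobi sums in the lift as integers.
-/

namespace Pool.Agent.K1H59.SC

open Finset

/-- coefficient of `x^M` in `(1-x)^c E(x)` -/
def DD (p c M : ℕ) : ℤ := ∑ i ∈ range (c + 1), ∑ r ∈ Ico 1 p,
  if i + r = M then ((-1) ^ i * (c.choose i : ℤ)) * ee p r else 0

theorem DD_lo {p c m : ℕ} (h1 : m ≤ c + 1) (h2 : m < p) : DD p c m = cA p c m := by
  rw [DD, cA]
  have h3 : ∀ i ∈ range (c + 1), (∑ r ∈ Ico 1 p,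
      if i + r = m then ((-1) ^ i * (c.choose i : ℤ)) * ee p r else 0) =
      if i ∈ range m then (-1) ^ i * (c.choose i : ℤ) * ee p (m - i) else 0 := by
    intro i _
    split_ifs with h
    · rw [mem_range] at h
      rw [sum_eq_single_of_mem (m - i) (by rw [mem_Ico]; omega), if_pos (by omega)]
      intro r _ hne
      rw [if_neg (by omega)]
    · rw [mem_range] at h
      refine sum_eq_zero fun r hr => ?_
      rw [mem_Ico] at hr
      rw [if_neg (by omega)]
  rw [sum_congr rfl h3, ← sum_filter]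
  congr 1
  ext i
  simp only [mem_filter, mem_range]
  omega

theorem DD_hi {p c m : ℕ} (h1 : c < p) : DD p c (m + p) = cB p c m := by
  rw [DD, cB]
  have h3 : ∀ i ∈ range (c + 1), (∑ r ∈ Ico 1 p,
      if i + r = m + p then ((-1) ^ i * (c.choose i : ℤ)) * ee p r else 0) =
      if i ∈ Ico (m + 1) (c + 1) then (-1) ^ i * (c.choose i : ℤ) * ee p (m + p - i) else 0 := by
    intro i hi
    rw [mem_range] at hi
    split_ifs with h
    · rw [mem_Ico] at h
      rw [sum_eq_single_of_mem (m + p - i) (by rw [mem_Ico]; omega), if_pos (by omega)]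
      intro r _ hne
      rw [if_neg (by omega)]
    · rw [mem_Ico] at h
      refine sum_eq_zero fun r hr => ?_
      rw [mem_Ico] at hr
      rw [if_neg (by omega)]
  rw [sum_congr rfl h3, ← sum_filter]
  congr 1
  ext i
  simp only [mem_filter, mem_range, mem_Ico]
  omega

theorem DD_big {p c m : ℕ} (h1 : c + p ≤ m) : DD p c m = 0 := by
  rw [DD]
  refine sum_eq_zero fun i hi => sum_eq_zero fun r hr => ?_
  rw [mem_range] at hi
  rw [mem_Ico] at hr
  rw [if_neg (by omega)]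

theorem dvd_iff_eq {q a K M c : ℕ} (hK : K < q) (hM : M < q) (ha : a + K = c * q) :
    q ∣ a + M ↔ M = K := by
  constructor
  · rintro ⟨d, hd⟩
    have h1 : (q : ℤ) ∣ (M : ℤ) - K := by
      refine ⟨(d : ℤ) - c, ?_⟩
      have e1 : (a : ℤ) + M = q * d := by exact_mod_cast hd
      have e2 : (a : ℤ) + K = c * q := by exact_mod_cast ha
      linear_combination e1 - e2
    have h2 : (M : ℤ) - K = 0 := by
      apply Int.eq_zero_of_abs_lt_dvd h1
      rw [abs_lt]
      constructor <;> omega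
    omega
  · rintro rfl
    exact ⟨c, by rw [ha, mul_comm]⟩

variable {p : ℕ} [hp : Fact p.Prime] {F R : Type*} [Field F] [Fintype F] [CommRing R]
  {π : R →+* F}

/-- the product expansion -/
theorem exp3 (T Y : R) (p c d a : ℕ) :
    T ^ a * ((1 - T) ^ c * EE p T * (1 - Y) ^ d) =
    ∑ l ∈ range (d + 1), ∑ i ∈ range (c + 1), ∑ r ∈ Ico 1 p,
      ((((-1) ^ l * (d.choose l : ℤ)) * (((-1) ^ i * (c.choose i : ℤ)) * ee p r) : ℤ) : R) *
        (T ^ (a + (i + r)) * Y ^ l) := by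
  rw [one_sub_pow' T c, one_sub_pow' Y d, EE, mul_comm _ (∑ i ∈ range (d + 1), _), sum_mul, mul_sum]
  refine sum_congr rfl fun l _ => ?_
  rw [sum_mul_sum, mul_sum, mul_sum]
  refine sum_congr rfl fun i _ => ?_
  rw [mul_sum, mul_sum]
  refine sum_congr rfl fun r _ => ?_
  push_cast
  rw [pow_add, pow_add]
  ring

theorem Zgen (L : Lift p 2 F R π) {n j t a c0 : ℕ} (hn : p = 2 * n + 1) (hj : j ≤ n)
    (ht0 : 0 < t) (htn : t < n) (hac : a + (j + t * p) = c0 * (p ^ 2 - 1)) :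
    ∑ x, L.tau x ^ a * ((1 - L.tau x) ^ n * EE p (L.tau x) * (1 - L.tau x ^ p) ^ (n - 1)) =
      -((W p n j t : ℤ) : R) := by
  have hq : p ^ 2 - 1 = 4 * (n * n) + 4 * n := by
    rw [hn]
    have : (2 * n + 1) ^ 2 = 4 * (n * n) + 4 * n + 1 := by ring
    omega
  have hK : j + t * p < p ^ 2 - 1 := by
    rw [hq]
    have h1 : t * p ≤ n * p := Nat.mul_le_mul_right _ htn.le
    have h2 : n * p = 2 * (n * n) + n := by rw [hn]; ring
    omega
  have hM : ∀ l ∈ range (n - 1 + 1), ∀ i ∈ range (n + 1), ∀ r ∈ Ico 1 p,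
      i + r + p * l < p ^ 2 - 1 := by
    intro l hl i hi r hr
    rw [mem_range] at hl hi
    rw [mem_Ico] at hr
    rw [hq]
    have h1 : p * l ≤ p * (n - 1) := Nat.mul_le_mul_left _ (by omega)
    obtain ⟨m, rfl⟩ : ∃ m, n = m + 1 := ⟨n - 1, by omega⟩
    rw [show m + 1 - 1 = m by omega] at h1
    have h2 : p * m = 2 * (m * m) + 3 * m := by rw [hn]; ring
    have h3 : (m + 1) * (m + 1) = m * m + 2 * m + 1 := by ring
    omega
  have h1 : ∀ x : F, L.tau x ^ a * ((1 - L.tau x) ^ n * EE p (L.tau x) *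
      (1 - L.tau x ^ p) ^ (n - 1)) =
      ∑ l ∈ range (n - 1 + 1), ∑ i ∈ range (n + 1), ∑ r ∈ Ico 1 p,
      ((((-1) ^ l * ((n - 1).choose l : ℤ)) * (((-1) ^ i * (n.choose i : ℤ)) * ee p r) : ℤ) : R) *
        L.tau x ^ (a + (i + r + p * l)) := by
    intro x
    rw [exp3]
    refine sum_congr rfl fun l _ => sum_congr rfl fun i _ => sum_congr rfl fun r _ => ?_
    rw [← pow_mul, ← pow_add, add_assoc]
  rw [sum_congr rfl fun x _ => h1 x, sum_comm]
  have h2 : ∀ l ∈ range (n - 1 + 1), (∑ x : F, ∑ i ∈ range (n + 1), ∑ r ∈ Ico 1 p,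
      ((((-1) ^ l * ((n - 1).choose l : ℤ)) * (((-1) ^ i * (n.choose i : ℤ)) * ee p r) : ℤ) : R) *
        L.tau x ^ (a + (i + r + p * l))) =
      ((-(((-1) ^ l * ((n - 1).choose l : ℤ)) * (if l ≤ t then DD p n (j + (t - l) * p) else 0)) :
        ℤ) : R) := by
    intro l hl
    rw [sum_comm]
    have h3 : ∀ i ∈ range (n + 1), (∑ x : F, ∑ r ∈ Ico 1 p,
      ((((-1) ^ l * ((n - 1).choose l : ℤ)) * (((-1) ^ i * (n.choose i : ℤ)) * ee p r) : ℤ) : R) *
        L.tau x ^ (a + (i + r + p * l))) =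
      ((-(((-1) ^ l * ((n - 1).choose l : ℤ)) * ∑ r ∈ Ico 1 p, if i + r + p * l = j + t * p then
        (((-1) ^ i * (n.choose i : ℤ)) * ee p r) else 0) : ℤ) : R) := by
      intro i hi
      rw [sum_comm, mul_sum, ← sum_neg_distrib, Int.cast_sum]
      refine sum_congr rfl fun r hr => ?_
      have h0 : 0 < a + (i + r + p * l) := by
        have := (mem_Ico.1 hr).1
        omega
      rw [← mul_sum, L.power_sum h0, ]
      have h4 : (p ^ 2 - 1 ∣ a + (i + r + p * l)) ↔ (i + r + p * l = j + t * p) :=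
        dvd_iff_eq hK (hM l hl i hi r hr) hac
      rw [L.psq]
      by_cases h5 : i + r + p * l = j + t * p
      · rw [if_pos (h4.2 h5), if_pos h5]
        push_cast
        ring
      · rw [if_neg (fun h => h5 (h4.1 h)), if_neg h5]
        push_cast
        ring
    rw [sum_congr rfl h3, ← Int.cast_sum, sum_neg_distrib, ← mul_sum]
    congr 3
    split_ifs with h6
    · rw [DD]
      refine sum_congr rfl fun i _ => sum_congr rfl fun r _ => ?_
      have h7 : i + r + p * l = j + t * p ↔ i + r = j + (t - l) * p := by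
        obtain ⟨u, rfl⟩ : ∃ u, t = l + u := ⟨t - l, by omega⟩
        rw [show l + u - l = u by omega, add_mul, mul_comm l p]
        omega
      by_cases h8 : i + r + p * l = j + t * p
      · rw [if_pos h8, if_pos (h7.1 h8)]
      · rw [if_neg h8, if_neg (fun h => h8 (h7.2 h))]
    · refine sum_eq_zero fun i _ => sum_eq_zero fun r _ => ?_
      rw [if_neg]
      obtain ⟨u, rfl⟩ : ∃ u, l = t + 1 + u := ⟨l - t - 1, by omega⟩
      have : p * (t + 1 + u) = t * p + p + p * u := by ring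
      rw [this]
      omega
  rw [sum_congr rfl h2, ← Int.cast_sum, ← Int.cast_neg]
  congr 1
  rw [sum_neg_distrib, neg_inj]
  rw [sum_eq_add_of_mem (t - 1) t (by rw [mem_range]; omega) (by rw [mem_range]; omega) (by omega)]
  · rw [if_pos (by omega), if_pos le_rfl, Nat.sub_self, zero_mul, add_zero,
      show t - (t - 1) = 1 by omega, one_mul, DD_hi (by omega), DD_lo (by omega) (by omega), W]
    ring
  · rintro l hl ⟨hl1, hl2⟩
    rw [mem_range] at hl
    by_cases h6 : l ≤ t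
    · rw [if_pos h6]
      obtain ⟨u, rfl⟩ : ∃ u, t = l + 2 + u := ⟨t - l - 2, by omega⟩
      rw [show l + 2 + u - l = u + 2 by omega, DD_big, mul_zero]
      have : (u + 2) * p = u * p + 2 * p := by ring
      rw [this]
      have : 0 ≤ u * p := Nat.zero_le _
      omega
    · rw [if_neg h6, mul_zero]

theorem Zmain (L : Lift p 2 F R π) {n j t a c0 : ℕ} (hn : p = 2 * n + 1) (hj : j ≤ n)
    (htn : t ≤ n) (ha : 0 < a) (hac : a + (j + t * p) = c0 * (p ^ 2 - 1)) :
    ∑ x, L.tau x ^ a * ((1 - L.tau x) ^ n * (1 - L.tau x ^ p) ^ n) =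
      -((((-1) ^ j * (n.choose j : ℤ)) * ((-1) ^ t * (n.choose t : ℤ)) : ℤ) : R) := by
  have hn0 : 0 < n := by
    have := hp.out.one_lt
    omega
  have hnn : 0 < n * n := Nat.mul_pos hn0 hn0
  have hq : p ^ 2 - 1 = 4 * (n * n) + 4 * n := by
    rw [hn]
    have : (2 * n + 1) ^ 2 = 4 * (n * n) + 4 * n + 1 := by ring
    omega
  have hK : ∀ i l : ℕ, i ≤ n → l ≤ n → i + p * l < p ^ 2 - 1 := by
    intro i l hi hl
    rw [hq]
    have h1 : p * l ≤ p * n := Nat.mul_le_mul_left _ hl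
    have h2 : p * n = 2 * (n * n) + n := by rw [hn]; ring
    omega
  have h1 : ∀ x : F, L.tau x ^ a * ((1 - L.tau x) ^ n * (1 - L.tau x ^ p) ^ n) =
      ∑ i ∈ range (n + 1), ∑ l ∈ range (n + 1),
      ((((-1) ^ i * (n.choose i : ℤ)) * ((-1) ^ l * (n.choose l : ℤ)) : ℤ) : R) *
        L.tau x ^ (a + (i + p * l)) := by
    intro x
    rw [one_sub_pow' _ n, one_sub_pow' (L.tau x ^ p) n, sum_mul_sum, mul_sum]
    refine sum_congr rfl fun i _ => ?_
    rw [mul_sum]
    refine sum_congr rfl fun l _ => ?_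
    rw [pow_add, pow_add, pow_mul]
    push_cast
    ring
  rw [sum_congr rfl fun x _ => h1 x, sum_comm]
  have h2 : ∀ i ∈ range (n + 1), (∑ x : F, ∑ l ∈ range (n + 1),
      ((((-1) ^ i * (n.choose i : ℤ)) * ((-1) ^ l * (n.choose l : ℤ)) : ℤ) : R) *
        L.tau x ^ (a + (i + p * l))) =
      ∑ l ∈ range (n + 1), if i = j ∧ l = t then
        -((((-1) ^ j * (n.choose j : ℤ)) * ((-1) ^ t * (n.choose t : ℤ)) : ℤ) : R) else 0 := by
    intro i hi
    rw [sum_comm]
    refine sum_congr rfl fun l hl => ?_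
    rw [mem_range] at hi hl
    rw [← mul_sum, L.power_sum (by omega), L.psq]
    have h3 : (p ^ 2 - 1 ∣ a + (i + p * l)) ↔ (i + p * l = j + t * p) :=
      dvd_iff_eq (by rw [mul_comm t p]; exact hK j t hj htn) (hK i l (by omega) (by omega)) hac
    have h4 : i + p * l = j + t * p ↔ i = j ∧ l = t := by
      constructor
      · intro h
        have h5 : (i + p * l) % p = (j + p * t) % p := by rw [h, mul_comm t p]
        rw [Nat.add_mul_mod_self_left, Nat.add_mul_mod_self_left, Nat.mod_eq_of_lt (by omega),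
          Nat.mod_eq_of_lt (by omega)] at h5
        refine ⟨h5, ?_⟩
        have h6 : p * l = p * t := by rw [h5, mul_comm t p] at h; omega
        exact Nat.eq_of_mul_eq_mul_left hp.out.pos h6
      · rintro ⟨rfl, rfl⟩
        rw [mul_comm]
    by_cases h5 : i = j ∧ l = t
    · rw [if_pos (h3.2 (h4.2 h5)), if_pos h5, h5.1, h5.2]
      ring
    · rw [if_neg (fun h => h5 (h4.1 (h3.1 h))), if_neg h5, mul_zero]
  rw [sum_congr rfl h2, sum_eq_single_of_mem j (by rw [mem_range]; omega),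
    sum_eq_single_of_mem t (by rw [mem_range]; omega)]
  · rw [if_pos ⟨rfl, rfl⟩]
  · intro l _ hl
    rw [if_neg (fun h => hl h.2)]
  · intro i _ hi
    exact sum_eq_zero fun l _ => if_neg (fun h => hi h.1)

theorem J3 (L : Lift p 2 F R π) {t : ℕ} (hpt : p = 8 * t + 3) (ht : 0 < t) :
    ∑ x, L.tau x ^ (7 * (8 * t ^ 2 + 6 * t + 1)) * L.psi (1 - x) ^ (4 * (8 * t ^ 2 + 6 * t + 1)) =
      ((K3 p t : ℤ) : R) := by
  have h2 : p ≠ 2 := by omega
  obtain ⟨n, hn'⟩ : ∃ n, n = 4 * t + 1 := ⟨_, rfl⟩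
  have hn : p = 2 * n + 1 := by omega
  obtain ⟨κ, hκ⟩ : ∃ κ, κ = 8 * t ^ 2 + 6 * t + 1 := ⟨_, rfl⟩
  have hκ1 : κ = (3 * t + 1) + t * p := by rw [hκ, hpt]; ring
  have hκ2 : 4 * κ = n + p * n := by rw [hκ, hpt, hn']; ring
  have hq : p ^ 2 - 1 = 8 * κ := by
    rw [hκ, hpt]
    have : (8 * t + 3) ^ 2 = 8 * (8 * t ^ 2 + 6 * t + 1) + 1 := by ring
    omega
  rw [← hκ]
  have hπp : π (p : R) = 0 := by
    have h3 : π (p : R) ^ 2 = 0 := by rw [← map_pow, L.psq, map_zero]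
    exact pow_eq_zero_iff (two_ne_zero) |>.1 h3
  have hYp : ∀ x : F, (L.tau x ^ p) ^ p = L.tau x := by
    intro x
    rw [← pow_mul, ← pow_two, L.tau_card]
  obtain ⟨m, hm⟩ : ∃ m, n = m + 1 := ⟨n - 1, by omega⟩
  have h4 : ∀ x : F, L.psi (1 - x) ^ (4 * κ) =
      (1 - L.tau x) ^ n * (1 - L.tau x ^ p) ^ n +
      ((n : R) * p) * ((1 - L.tau x) ^ n * EE p (L.tau x) * (1 - L.tau x ^ p) ^ (n - 1) +
        (1 - L.tau x ^ p) ^ n * EE p (L.tau x ^ p) * (1 - L.tau x) ^ (n - 1)) := by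
    intro x
    have h5 := one_sub_pow (p := p) h2 (L.tau x)
    have h6 := one_sub_pow (p := p) h2 (L.tau x ^ p)
    rw [hYp] at h6
    have h7 : ((1 - L.tau x) ^ p) ^ p = (1 - L.tau x ^ p) ^ p := by
      apply L.pow_eq
      rw [h5, map_add, map_mul, hπp, zero_mul, add_zero]
    rw [hκ2, pow_add, pow_mul, L.psi_one_sub, h7, h5, h6, hm, add_p_pow L.psq, add_p_pow L.psq,
      show m + 1 - 1 = m by omega]
    have hps := L.psq
    linear_combination (((m + 1 : ℕ) : R) * ((1 - L.tau x ^ p) ^ m * EE p (L.tau x)) *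
      (((m + 1 : ℕ) : R) * ((1 - L.tau x) ^ m * EE p (L.tau x ^ p)))) * hps
  have h5 : ∀ x : F, L.tau x ^ (7 * κ) * L.psi (1 - x) ^ (4 * κ) =
      L.tau x ^ (7 * κ) * ((1 - L.tau x) ^ n * (1 - L.tau x ^ p) ^ n) +
      ((n : R) * p) * (L.tau x ^ (7 * κ) * ((1 - L.tau x) ^ n * EE p (L.tau x) *
        (1 - L.tau x ^ p) ^ (n - 1)) +
        L.tau x ^ (7 * κ) * ((1 - L.tau x ^ p) ^ n * EE p (L.tau x ^ p) *
          (1 - L.tau x) ^ (n - 1))) := by
    intro x
    rw [h4]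
    ring
  have e1 := Zmain L (n := n) (j := 3 * t + 1) (t := t) (a := 7 * κ) (c0 := 1) hn (by omega)
    (by omega) (by omega) (by rw [hq, ← hκ1]; ring)
  have e2 := Zgen L (n := n) (j := 3 * t + 1) (t := t) (a := 7 * κ) (c0 := 1) hn (by omega)
    ht (by omega) (by rw [hq, ← hκ1]; ring)
  have e3 := Zgen L (n := n) (j := t) (t := 3 * t + 1) (a := p * (7 * κ)) (c0 := 7 * t + 3) hn
    (by omega) (by omega) (by omega) (by
      rw [hq, hκ, hpt]; ring)
  -- reindexing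
  have hinv : ∀ x : F, (x ^ p) ^ p = x := by
    intro x
    rw [← pow_mul, ← pow_two, ← L.card, FiniteField.pow_card]
  let σ : F ≃ F := ⟨fun x => x ^ p, fun x => x ^ p, hinv, hinv⟩
  have e4 : ∑ x, L.tau x ^ (7 * κ) * ((1 - L.tau x ^ p) ^ n * EE p (L.tau x ^ p) *
      (1 - L.tau x) ^ (n - 1)) = -((W p n t (3 * t + 1) : ℤ) : R) := by
    rw [← e3, ← Equiv.sum_comp σ (fun x => L.tau x ^ (p * (7 * κ)) * ((1 - L.tau x) ^ n *
      EE p (L.tau x) * (1 - L.tau x ^ p) ^ (n - 1)))]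
    refine sum_congr rfl fun x _ => ?_
    change _ = L.tau (x ^ p) ^ (p * (7 * κ)) * ((1 - L.tau (x ^ p)) ^ n * EE p (L.tau (x ^ p)) *
      (1 - L.tau (x ^ p) ^ p) ^ (n - 1))
    rw [L.tau_pow, hYp, pow_mul (L.tau x ^ p) p, hYp]
  rw [sum_congr rfl fun x _ => h5 x, sum_add_distrib, ← mul_sum, sum_add_distrib, e1, e2, e4, K3,
    ← hn']
  have hs : (-1 : ℤ) ^ (3 * t + 1) * (-1) ^ t = (-1) ^ n := by
    rw [← pow_add, hn']; congr 1; ring
  have hs' : (((-1 : ℤ) ^ (3 * t + 1) * (-1) ^ t : ℤ) : R) = (((-1 : ℤ) ^ n : ℤ) : R) := by rw [hs]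
  push_cast at hs' ⊢
  linear_combination (-((n.choose (3 * t + 1) : ℕ) : R) * ((n.choose t : ℕ) : R)) * hs'

end Pool.Agent.K1H59.SC
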