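import Mathlib
import Pool.Agent.K1H59.SC.F

set_option autoImplicit false

/-!
The Jacobi sum for `p = 8j+1` as an integer.
-/

namespace Pool.Agent.K1H59.SC

open Finset

variable {p : ℕ} [hp : Fact p.Prime] {F R : Type*} [Field F] [Fintype F] [CommRing R]
  {π : R →+* F}

theorem Y1 (L : Lift p 1 F R π) {j : ℕ} (hpj : p = 8 * j + 1) :
    ∑ x, L.tau x ^ (7 * j) * (1 - L.tau x) ^ (4 * j) =
      (((p : ℤ) - 1) * ((-1) ^ j * ((4 * j).choose j : ℤ)) : ℤ) := by
  have hj : 0 < j := by have := hp.out.one_lt; omega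
  have h1 : ∀ x : F, L.tau x ^ (7 * j) * (1 - L.tau x) ^ (4 * j) =
      ∑ i ∈ range (4 * j + 1), (((-1) ^ i * ((4 * j).choose i : ℤ) : ℤ) : R) *
        L.tau x ^ (7 * j + i) := by
    intro x
    rw [one_sub_pow', mul_sum]
    refine sum_congr rfl fun i _ => ?_
    rw [pow_add]
    ring
  rw [sum_congr rfl fun x _ => h1 x, sum_comm, sum_eq_single_of_mem j (by rw [mem_range]; omega)]
  · rw [← mul_sum, L.power_sum (by omega), if_pos ⟨1, by rw [pow_one]; omega⟩]
    push_cast
    ring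
  · intro i hi hne
    rw [mem_range] at hi
    rw [← mul_sum, L.power_sum (by omega), if_neg, mul_zero]
    rintro ⟨c, hc⟩
    rw [pow_one, show p - 1 = 8 * j by omega] at hc
    have c0 : c ≠ 0 := by rintro rfl; omega
    have c2 : c < 2 := by
      by_contra h
      have := Nat.mul_le_mul_left (8 * j) (not_lt.1 h)
      omega
    have : c = 1 := by omega
    subst this
    omega

theorem Y2 (L : Lift p 1 F R π) {j : ℕ} (hpj : p = 8 * j + 1) :
    ∑ x, L.tau x ^ (7 * j) * ((1 - L.tau x) ^ (4 * j - 1) * EE p (L.tau x)) =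
      (((p : ℤ) - 1) * (cA p (4 * j - 1) j + cB p (4 * j - 1) (j - 1)) : ℤ) := by
  have hj : 0 < j := by have := hp.out.one_lt; omega
  have h1 : ∀ x : F, L.tau x ^ (7 * j) * ((1 - L.tau x) ^ (4 * j - 1) * EE p (L.tau x)) =
      ∑ i ∈ range (4 * j - 1 + 1), ∑ r ∈ Ico 1 p,
        ((((-1) ^ i * ((4 * j - 1).choose i : ℤ)) * ee p r : ℤ) : R) *
        L.tau x ^ (7 * j + (i + r)) := by
    intro x
    rw [one_sub_pow', EE, sum_mul_sum, mul_sum]
    refine sum_congr rfl fun i _ => ?_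
    rw [mul_sum]
    refine sum_congr rfl fun r _ => ?_
    rw [pow_add, pow_add]
    push_cast
    ring
  rw [sum_congr rfl fun x _ => h1 x, sum_comm]
  have h2 : ∀ i ∈ range (4 * j - 1 + 1), (∑ x : F, ∑ r ∈ Ico 1 p,
        ((((-1) ^ i * ((4 * j - 1).choose i : ℤ)) * ee p r : ℤ) : R) *
        L.tau x ^ (7 * j + (i + r))) =
      ((((p : ℤ) - 1) * ((∑ r ∈ Ico 1 p, if i + r = j then
        ((-1) ^ i * ((4 * j - 1).choose i : ℤ)) * ee p r else 0) +
        (∑ r ∈ Ico 1 p, if i + r = j - 1 + p then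
        ((-1) ^ i * ((4 * j - 1).choose i : ℤ)) * ee p r else 0)) : ℤ) : R) := by
    intro i hi
    rw [mem_range] at hi
    rw [sum_comm, ← sum_add_distrib, mul_sum, Int.cast_sum]
    refine sum_congr rfl fun r hr => ?_
    rw [mem_Ico] at hr
    rw [← mul_sum, L.power_sum (by omega)]
    have h3 : (p ^ 1 - 1 ∣ 7 * j + (i + r)) ↔ (i + r = j ∨ i + r = j - 1 + p) := by
      rw [pow_one, show p - 1 = 8 * j by omega]
      constructor
      · rintro ⟨c, hc⟩
        have c0 : c ≠ 0 := by rintro rfl; omega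
        have c2 : c < 3 := by
          by_contra h
          have := Nat.mul_le_mul_left (8 * j) (not_lt.1 h)
          omega
        have : c = 1 ∨ c = 2 := by omega
        rcases this with rfl | rfl <;> omega
      · rintro (h | h)
        · exact ⟨1, by omega⟩
        · exact ⟨2, by omega⟩
    by_cases h4 : i + r = j
    · rw [if_pos (h3.2 (Or.inl h4)), if_pos h4, if_neg (by omega)]
      push_cast
      ring
    · by_cases h5 : i + r = j - 1 + p
      · rw [if_pos (h3.2 (Or.inr h5)), if_neg h4, if_pos h5]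
        push_cast
        ring
      · rw [if_neg (fun h => (h3.1 h).elim h4 h5), if_neg h4, if_neg h5]
        push_cast
        ring
  rw [sum_congr rfl h2, ← Int.cast_sum, ← mul_sum, sum_add_distrib]
  congr 2
  have e1 := DD_lo (p := p) (c := 4 * j - 1) (m := j) (by omega) (by omega)
  have e2 := DD_hi (p := p) (c := 4 * j - 1) (m := j - 1) (by omega)
  rw [← e1, ← e2, DD, DD]

theorem J1 (L : Lift p 1 F R π) {j : ℕ} (hpj : p = 8 * j + 1) :
    ∑ x, L.tau x ^ (7 * j) * L.psi (1 - x) ^ (4 * j) = ((K1 p j : ℤ) : R) := by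
  have hj : 0 < j := by have := hp.out.one_lt; omega
  have h2 : p ≠ 2 := by omega
  have hTp : ∀ x : F, L.tau x ^ p = L.tau x := by
    intro x
    have := L.tau_card x
    rwa [pow_one] at this
  obtain ⟨m, hm⟩ : ∃ m, 4 * j = m + 1 := ⟨4 * j - 1, by omega⟩
  have h4 : ∀ x : F, L.tau x ^ (7 * j) * L.psi (1 - x) ^ (4 * j) =
      L.tau x ^ (7 * j) * (1 - L.tau x) ^ (4 * j) +
      (((4 * j : ℕ) : R) * p) * (L.tau x ^ (7 * j) * ((1 - L.tau x) ^ (4 * j - 1) *
        EE p (L.tau x))) := by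
    intro x
    have h5 := one_sub_pow (p := p) h2 (L.tau x)
    rw [hTp] at h5
    rw [L.psi_one_sub, h5, hm, add_p_pow L.psq, show m + 1 - 1 = m by omega]
    ring
  rw [sum_congr rfl fun x _ => h4 x, sum_add_distrib, ← mul_sum, Y1 L hpj, Y2 L hpj, K1]
  push_cast
  ring

end Pool.Agent.K1H59.SC
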