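import Mathlib
import Pool.Agent.K1H59.SC.F

set_option autoImplicit false

/-!
The Jacobi sum `J(χ, χ^4)` for a character `χ` of order `8` of a finite field.
-/

namespace Pool.Agent.K1H59.SC

open Finset

/-- the primitive 8-th root of unity -/
noncomputable def zt : ℂ := ((Real.sqrt 2 / 2 : ℝ) : ℂ) * (1 + Complex.I)

theorem sqrt_sq : ((Real.sqrt 2 : ℝ) : ℂ) ^ 2 = 2 := by
  have : (Real.sqrt 2) ^ 2 = 2 := Real.sq_sqrt (by norm_num)
  exact_mod_cast this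

theorem zt_sq : zt ^ 2 = Complex.I := by
  rw [zt]
  push_cast
  linear_combination (1 / 4 : ℂ) * (1 + Complex.I) ^ 2 * sqrt_sq + (1 / 2 : ℂ) * Complex.I_sq

theorem zt4 : zt ^ 4 = -1 := by
  have : zt ^ 4 = (zt ^ 2) ^ 2 := by ring
  rw [this, zt_sq, Complex.I_sq]

theorem zt8 : zt ^ 8 = 1 := by
  have : zt ^ 8 = (zt ^ 4) ^ 2 := by ring
  rw [this, zt4]; norm_num

theorem zt_ne : zt ≠ 0 := by
  intro h
  have := zt4
  rw [h] at this
  norm_num at this

theorem zt_sub : zt - zt ^ 3 = ((Real.sqrt 2 : ℝ) : ℂ) := by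
  have h : zt ^ 3 = zt * Complex.I := by
    rw [show zt ^ 3 = zt * zt ^ 2 by ring, zt_sq]
  rw [h, zt]
  push_cast
  linear_combination (-((Real.sqrt 2 : ℝ) : ℂ) / 2) * Complex.I_sq

theorem zt_add : zt + zt ^ 3 = ((Real.sqrt 2 : ℝ) : ℂ) * Complex.I := by
  have h : zt ^ 3 = zt * Complex.I := by
    rw [show zt ^ 3 = zt * zt ^ 2 by ring, zt_sq]
  rw [h, zt]
  push_cast
  linear_combination (((Real.sqrt 2 : ℝ) : ℂ) / 2) * Complex.I_sq

theorem zt_prim : IsPrimitiveRoot zt 8 := by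
  have h : orderOf zt = 2 ^ (2 + 1) := by
    have : Fact (Nat.Prime 2) := ⟨Nat.prime_two⟩
    apply orderOf_eq_prime_pow
    · norm_num
      rw [zt4]
      norm_num
    · norm_num
      exact zt8
  have h2 := IsPrimitiveRoot.orderOf zt
  rw [h] at h2
  norm_num at h2
  exact h2

variable {F : Type*} [Field F] [Fintype F] [DecidableEq F]

open Classical in
/-- class sums -/
noncomputable def N8 (χ : MulChar F ℂ) (k : ℕ) : ℤ :=
  ∑ x : F, if χ x = zt ^ k then quadraticChar F (1 - x) else 0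

theorem class_sum {D : Type*} [CommRing D] (χ : MulChar F ℂ)
    (hχ : ∀ x : F, x ≠ 0 → ∃ k, k < 8 ∧ χ x = zt ^ k) (f : F → D) (s : D) (h0 : f 0 = 0)
    (hf : ∀ x k, k < 8 → χ x = zt ^ k → f x = s ^ k) :
    ∑ x, f x * ((quadraticChar F (1 - x) : ℤ) : D) =
      ∑ k ∈ range 8, ((N8 χ k : ℤ) : D) * s ^ k := by
  classical
  have key : ∀ x : F, f x * ((quadraticChar F (1 - x) : ℤ) : D) =
      ∑ k ∈ range 8, ((if χ x = zt ^ k then quadraticChar F (1 - x) else 0 : ℤ) : D) * s ^ k := by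
    intro x
    by_cases hx : x = 0
    · subst hx
      rw [h0, zero_mul]
      symm
      refine sum_eq_zero fun k _ => ?_
      rw [if_neg, Int.cast_zero, zero_mul]
      rw [MulChar.map_zero χ]
      exact (pow_ne_zero k zt_ne).symm
    · obtain ⟨k, hk, hχk⟩ := hχ x hx
      rw [hf x k hk hχk, sum_eq_single_of_mem k (mem_range.2 hk), if_pos hχk, mul_comm]
      intro l hl hlk
      rw [if_neg, Int.cast_zero, zero_mul]
      intro h
      apply hlk
      rw [hχk] at h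
      exact (zt_prim.pow_inj hk (mem_range.1 hl) h).symm
  rw [sum_congr rfl fun x _ => key x, sum_comm]
  refine sum_congr rfl fun k _ => ?_
  rw [← sum_mul, ← Int.cast_sum, N8]

theorem range8 {M : Type*} [AddCommMonoid M] (f : ℕ → M) :
    ∑ k ∈ range 8, f k = f 0 + f 1 + f 2 + f 3 + f 4 + f 5 + f 6 + f 7 := by
  simp [sum_range_succ]

/-- the substitution `x ↦ x/(x-1)` -/
theorem jac_swap (χ φ : MulChar F ℂ) :
    jacobiSum χ φ = χ (-1) * jacobiSum χ (χ⁻¹ * φ⁻¹) := by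
  classical
  have hinv : Function.Involutive (fun x : F => if x = 1 then 1 else x / (x - 1)) := by
    intro x
    dsimp only
    by_cases h : x = 1
    · rw [if_pos h, if_pos rfl, h]
    · have h1 : x - 1 ≠ 0 := sub_ne_zero.2 h
      have h2 : x / (x - 1) ≠ 1 := by
        intro h3
        rw [div_eq_iff h1, one_mul] at h3
        have : (1 : F) = 0 := by linear_combination h3
        exact one_ne_zero this
      rw [if_neg h, if_neg h2]
      have h3 : x / (x - 1) - 1 = 1 / (x - 1) := by field_simp; ring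
      rw [h3]
      field_simp
  rw [jacobiSum, jacobiSum, ← Equiv.sum_comp hinv.toPerm, mul_sum]
  refine sum_congr rfl fun x _ => ?_
  rw [Function.Involutive.coe_toPerm]
  by_cases h : x = 1
  · rw [if_pos h, h, sub_self, MulChar.map_zero, MulChar.map_zero]
    ring
  · rw [if_neg h]
    have h1 : x - 1 ≠ 0 := sub_ne_zero.2 h
    have h2 : 1 - x ≠ 0 := sub_ne_zero.2 (Ne.symm h)
    have e1 : x / (x - 1) = -1 * (x * (1 - x)⁻¹) := by
      have : x - 1 = -(1 - x) := by ring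
      rw [this]
      field_simp
    have e2 : 1 - x / (x - 1) = (1 - x)⁻¹ := by
      have : x - 1 = -(1 - x) := by ring
      rw [this]
      field_simp
      ring
    rw [e2, e1, map_mul, map_mul, MulChar.mul_apply, MulChar.inv_apply', MulChar.inv_apply']
    ring

theorem jac_eq (χ : MulChar F ℂ) (h8 : χ ^ 8 = 1) :
    jacobiSum χ (χ ^ 4) = jacobiSum (χ ^ 3) (χ ^ 4) := by
  have h1 : χ⁻¹ * (χ ^ 4)⁻¹ = χ ^ 3 := by
    have : χ ^ 3 = χ ^ 8 * (χ⁻¹ * (χ ^ 4)⁻¹) := by group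
    rw [this, h8, one_mul]
  have h2 : (χ ^ 3)⁻¹ * (χ ^ 4)⁻¹ = χ := by
    have : χ = χ ^ 8 * ((χ ^ 3)⁻¹ * (χ ^ 4)⁻¹) := by group
    conv_rhs => rw [this]
    rw [h8, one_mul]
  rw [jac_swap χ, jac_swap (χ ^ 3), h1, h2, jacobiSum_comm (χ ^ 3) χ]
  congr 1
  rw [MulChar.pow_apply' _ (by norm_num)]
  have h3 : χ (-1) ^ 2 = 1 := by rw [← map_pow]; norm_num
  have : χ (-1) ^ 3 = χ (-1) ^ 2 * χ (-1) := by ring
  rw [this, h3, one_mul]

/-- the data: a generator `g` and the character with value `zt` at `g` -/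
structure Ch (κ : ℕ) (g : Fˣ) (χ : MulChar F ℂ) : Prop where
  card : Fintype.card F = 8 * κ + 1
  gen : ∀ x, x ∈ Subgroup.zpowers g
  val : χ (g : F) = zt

theorem exists_Ch {κ : ℕ} (h : Fintype.card F = 8 * κ + 1) :
    ∃ (g : Fˣ) (χ : MulChar F ℂ), Ch κ g χ := by
  obtain ⟨g, hg⟩ := IsCyclic.exists_generator (α := Fˣ)
  have hwu : Units.mk0 zt zt_ne ∈ rootsOfUnity (Fintype.card Fˣ) ℂ := by
    rw [mem_rootsOfUnity]
    apply Units.ext
    rw [Units.val_pow_eq_pow_val, Units.val_one, Fintype.card_units, h]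
    change zt ^ (8 * κ + 1 - 1) = 1
    rw [Nat.add_sub_cancel, pow_mul, zt8, one_pow]
  exact ⟨g, MulChar.ofRootOfUnity hwu hg, ⟨h, hg, MulChar.ofRootOfUnity_spec hwu hg⟩⟩

variable {κ : ℕ} {g : Fˣ} {χ : MulChar F ℂ}

theorem Ch.kpos (C : Ch κ g χ) : 0 < κ := by
  have h1 := C.card
  have h2 := Fintype.one_lt_card (α := F)
  omega

theorem Ch.order (C : Ch κ g χ) : orderOf g = 8 * κ := by
  rw [orderOf_eq_card_of_forall_mem_zpowers C.gen, Nat.card_eq_fintype_card, Fintype.card_units,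
    C.card]
  omega

theorem Ch.log (C : Ch κ g χ) (x : F) (hx : x ≠ 0) : ∃ m : ℕ, x = (g : F) ^ m := by
  have h1 := C.gen (Units.mk0 x hx)
  rw [← mem_powers_iff_mem_zpowers] at h1
  obtain ⟨m, hm⟩ := h1
  refine ⟨m, ?_⟩
  have h2 := congrArg Units.val hm
  simpa using h2.symm

theorem zt_mod (m : ℕ) : zt ^ m = zt ^ (m % 8) := by
  conv_lhs => rw [← Nat.div_add_mod m 8]
  rw [pow_add, pow_mul, zt8, one_pow, one_mul]

theorem Ch.values (C : Ch κ g χ) (x : F) (hx : x ≠ 0) : ∃ k, k < 8 ∧ χ x = zt ^ k := by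
  obtain ⟨m, rfl⟩ := C.log x hx
  exact ⟨m % 8, Nat.mod_lt _ (by norm_num), by rw [map_pow, C.val, zt_mod]⟩

theorem Ch.half (C : Ch κ g χ) : (g : F) ^ (4 * κ) = -1 := by
  have h1 : ((g : F) ^ (4 * κ) - 1) * ((g : F) ^ (4 * κ) + 1) = 0 := by
    have h2 : (g : F) ^ (8 * κ) = 1 := by
      rw [← Units.val_pow_eq_pow_val, ← C.order, pow_orderOf_eq_one, Units.val_one]
    have h3 : (g : F) ^ (8 * κ) = (g : F) ^ (4 * κ) * (g : F) ^ (4 * κ) := by
      rw [← pow_add]; congr 1; ring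
    linear_combination h2 - h3
  rcases mul_eq_zero.1 h1 with h3 | h3
  · exfalso
    rw [sub_eq_zero, ← Units.val_pow_eq_pow_val, Units.val_eq_one] at h3
    have h4 := orderOf_dvd_of_pow_eq_one h3
    rw [C.order] at h4
    have := C.kpos
    have := Nat.le_of_dvd (by omega) h4
    omega
  · linear_combination h3

theorem Ch.char_ne (C : Ch κ g χ) : ringChar F ≠ 2 := by
  intro h
  have h1 := FiniteField.even_card_iff_char_two.1 h
  have h2 := C.card
  omega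

theorem Ch.quad_g (C : Ch κ g χ) : quadraticChar F (g : F) = -1 := by
  have h1 := quadraticChar_eq_pow_of_char_ne_two' C.char_ne (g : F)
  rw [C.card, show (8 * κ + 1) / 2 = 4 * κ by omega, C.half] at h1
  rcases quadraticChar_dichotomy (g.ne_zero) with h | h
  · rw [h] at h1
    exfalso
    have h2 : (1 : F) = -1 := by
      push_cast at h1
      exact h1
    exact Ring.neg_one_ne_one_of_char_ne_two C.char_ne h2.symm
  · exact h

theorem Ch.pow4 (C : Ch κ g χ) : χ ^ 4 = (quadraticChar F).ringHomComp (Int.castRingHom ℂ) := by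
  rw [MulChar.eq_iff C.gen, MulChar.pow_apply_coe, C.val, zt4, MulChar.ringHomComp_apply, C.quad_g]
  simp

theorem Ch.pow4_apply (C : Ch κ g χ) (x : F) : (χ ^ 4) x = ((quadraticChar F x : ℤ) : ℂ) := by
  rw [C.pow4, MulChar.ringHomComp_apply]
  simp

theorem Ch.pow8 (C : Ch κ g χ) : χ ^ 8 = 1 := by
  rw [MulChar.eq_iff C.gen, MulChar.pow_apply_coe, C.val, zt8, MulChar.one_apply_coe]

theorem Ch.N2468 (C : Ch κ g χ) : 2 ∣ N8 χ 2 + N8 χ 4 := by
  classical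
  have hpar : ∀ k : ℕ, 0 < k → k < 8 →
      ((N8 χ k : ℤ) : ZMod 2) = ∑ x : F, if χ x = zt ^ k then (1 : ZMod 2) else 0 := by
    intro k hk0 hk8
    rw [N8, Int.cast_sum]
    refine sum_congr rfl fun x _ => ?_
    by_cases h : χ x = zt ^ k
    · rw [if_pos h, if_pos h]
      have hx : 1 - x ≠ 0 := by
        intro h1
        have h2 : x = 1 := by linear_combination -h1
        rw [h2, map_one] at h
        have := zt_prim.pow_inj (by norm_num : 0 < 8) hk8 (by rw [pow_zero]; exact h)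
        omega
      rcases quadraticChar_dichotomy hx with h3 | h3
      · rw [h3]; rfl
      · rw [h3]; rfl
    · rw [if_neg h, if_neg h]
      rfl
  have h2 := hpar 2 (by norm_num) (by norm_num)
  have h4 := hpar 4 (by norm_num) (by norm_num)
  have h24 : (∑ x : F, if χ x = zt ^ 2 then (1 : ZMod 2) else 0) =
      ∑ x : F, if χ x = zt ^ 4 then (1 : ZMod 2) else 0 := by
    rw [← Equiv.sum_comp (Units.mulLeft (g ^ 2)) (fun x : F => if χ x = zt ^ 4 then (1 : ZMod 2) else 0)]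
    refine sum_congr rfl fun x _ => ?_
    have e : χ ((Units.mulLeft (g ^ 2)) x) = zt ^ 2 * χ x := by
      change χ (((g ^ 2 : Fˣ) : F) * x) = _
      rw [map_mul, Units.val_pow_eq_pow_val, map_pow, C.val]
    rw [e]
    have h5 : zt ^ 2 * χ x = zt ^ 4 ↔ χ x = zt ^ 2 := by
      rw [show zt ^ 4 = zt ^ 2 * zt ^ 2 by ring]
      exact mul_right_inj' (pow_ne_zero 2 zt_ne)
    by_cases h6 : χ x = zt ^ 2
    · rw [if_pos h6, if_pos (h5.2 h6)]
    · rw [if_neg h6, if_neg (fun h => h6 (h5.1 h))]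
  have h6 : ((N8 χ 2 + N8 χ 4 : ℤ) : ZMod 2) = 0 := by
    push_cast
    rw [h2, h4, h24]
    exact CharTwo.add_self_eq_zero _
  exact (ZMod.intCast_zmod_eq_zero_iff_dvd _ _).1 h6

theorem Ch.sum_all (C : Ch κ g χ) : N8 χ 0 + N8 χ 1 + N8 χ 2 + N8 χ 3 + N8 χ 4 + N8 χ 5 +
    N8 χ 6 + N8 χ 7 = -1 := by
  have h := class_sum (D := ℤ) χ C.values (fun x => if x = 0 then 0 else 1) 1 (by simp) (by
    intro x k _ hx
    rw [if_neg, one_pow]
    rintro rfl
    rw [MulChar.map_zero] at hx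
    exact pow_ne_zero k zt_ne hx.symm)
  rw [range8] at h
  simp only [one_pow, mul_one, Int.cast_id] at h
  rw [← h]
  have h1 : ∀ x : F, (if x = 0 then (0 : ℤ) else 1) * quadraticChar F (1 - x) =
      quadraticChar F (1 - x) - if x = 0 then 1 else 0 := by
    intro x
    by_cases hx : x = 0
    · rw [if_pos hx, if_pos hx, hx, sub_zero, map_one]
      ring
    · rw [if_neg hx, if_neg hx]
      ring
  have h2 : ∑ x : F, quadraticChar F (1 - x) = ∑ x : F, quadraticChar F x :=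
    Equiv.sum_comp (Equiv.subLeft (1 : F)) (fun x => quadraticChar F x)
  rw [sum_congr rfl fun x _ => h1 x, sum_sub_distrib, h2, quadraticChar_sum_zero C.char_ne]
  simp

theorem Ch.sum_alt (C : Ch κ g χ) : N8 χ 0 - N8 χ 1 + N8 χ 2 - N8 χ 3 + N8 χ 4 - N8 χ 5 +
    N8 χ 6 - N8 χ 7 = -1 := by
  have h := class_sum (D := ℤ) χ C.values (fun x => quadraticChar F x) (-1)
    (MulChar.map_zero _) (by
    intro x k _ hx
    have h1 := C.pow4_apply x
    rw [MulChar.pow_apply' _ (by norm_num), hx, ← pow_mul, mul_comm, pow_mul, zt4] at h1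
    have h2 : (((-1 : ℤ) ^ k : ℤ) : ℂ) = ((quadraticChar F x : ℤ) : ℂ) := by
      push_cast
      exact h1
    exact (by exact_mod_cast h2 : (-1 : ℤ) ^ k = quadraticChar F x).symm)
  rw [range8] at h
  simp only [Int.cast_id] at h
  have h1 : N8 χ 0 - N8 χ 1 + N8 χ 2 - N8 χ 3 + N8 χ 4 - N8 χ 5 +
    N8 χ 6 - N8 χ 7 = ∑ x, quadraticChar F x * quadraticChar F (1 - x) := by
    rw [h]; ring
  rw [h1]
  have h2 := jacobiSum_nontrivial_inv (quadraticChar_ne_one C.char_ne)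
  rw [(quadraticChar_isQuadratic F).inv] at h2
  have h3 : quadraticChar F (-1) = 1 := by
    have hne : (-1 : F) ≠ 0 := neg_ne_zero.2 one_ne_zero
    rw [quadraticChar_one_iff_isSquare hne]
    refine ⟨(g : F) ^ (2 * κ), ?_⟩
    rw [← pow_add, ← C.half]
    congr 1
    ring
  rw [h3] at h2
  exact h2

theorem Ch.main (C : Ch κ g χ) : ∃ A B : ℤ, A ^ 2 + 2 * B ^ 2 = Fintype.card F ∧ A % 4 = 3 ∧
    N8 χ 0 - N8 χ 4 = A ∧ N8 χ 1 - N8 χ 5 = B ∧ N8 χ 2 - N8 χ 6 = 0 ∧ N8 χ 3 - N8 χ 7 = B := by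
  have hφ : ∀ x : F, (χ ^ 4) x = ((quadraticChar F x : ℤ) : ℂ) := C.pow4_apply
  have h1 : jacobiSum χ (χ ^ 4) = ∑ k ∈ range 8, ((N8 χ k : ℤ) : ℂ) * zt ^ k := by
    rw [← class_sum (D := ℂ) χ C.values (fun x => χ x) zt (MulChar.map_zero _)
      (fun x k _ hx => hx), jacobiSum]
    exact sum_congr rfl fun x _ => by rw [hφ]
  have h3 : jacobiSum (χ ^ 3) (χ ^ 4) = ∑ k ∈ range 8, ((N8 χ k : ℤ) : ℂ) * (zt ^ 3) ^ k := by
    rw [← class_sum (D := ℂ) χ C.values (fun x => (χ ^ 3) x) (zt ^ 3) (MulChar.map_zero _)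
      (fun x k _ hx => by
        rw [MulChar.pow_apply' _ (by norm_num), hx, ← pow_mul, ← pow_mul, mul_comm]), jacobiSum]
    exact sum_congr rfl fun x _ => by rw [hφ]
  have hi : jacobiSum χ⁻¹ (χ ^ 4)⁻¹ = ∑ k ∈ range 8, ((N8 χ k : ℤ) : ℂ) * (-zt ^ 3) ^ k := by
    rw [← class_sum (D := ℂ) χ C.values (fun x => χ⁻¹ x) (-zt ^ 3) (MulChar.map_zero _)
      (fun x k _ hx => by
        rw [MulChar.inv_apply_eq_inv', hx, ← inv_pow]
        congr 1
        rw [inv_eq_iff_eq_inv, eq_comm, inv_eq_iff_eq_inv, eq_comm]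
        apply inv_eq_of_mul_eq_one_right
        linear_combination -zt4), jacobiSum]
    refine sum_congr rfl fun x _ => ?_
    rw [MulChar.inv_apply_eq_inv' (χ ^ 4), hφ]
    congr 1
    by_cases hx : 1 - x = 0
    · rw [hx, MulChar.map_zero]; simp
    · rcases quadraticChar_dichotomy hx with h | h
      · rw [h]; simp
      · rw [h]; simp
  have hz4 := zt4
  -- names
  obtain ⟨A0, hA0⟩ : ∃ A0, N8 χ 0 - N8 χ 4 = A0 := ⟨_, rfl⟩
  obtain ⟨A1, hA1⟩ : ∃ A1, N8 χ 1 - N8 χ 5 = A1 := ⟨_, rfl⟩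
  obtain ⟨A2, hA2⟩ : ∃ A2, N8 χ 2 - N8 χ 6 = A2 := ⟨_, rfl⟩
  obtain ⟨A3, hA3⟩ : ∃ A3, N8 χ 3 - N8 χ 7 = A3 := ⟨_, rfl⟩
  have q0 : ((N8 χ 0 : ℤ) : ℂ) = A0 + (N8 χ 4 : ℤ) := by rw [← hA0]; push_cast; ring
  have q1 : ((N8 χ 1 : ℤ) : ℂ) = A1 + (N8 χ 5 : ℤ) := by rw [← hA1]; push_cast; ring
  have q2 : ((N8 χ 2 : ℤ) : ℂ) = A2 + (N8 χ 6 : ℤ) := by rw [← hA2]; push_cast; ring
  have q3 : ((N8 χ 3 : ℤ) : ℂ) = A3 + (N8 χ 7 : ℤ) := by rw [← hA3]; push_cast; ring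
  have h1' : jacobiSum χ (χ ^ 4) = A0 + A1 * zt + A2 * zt ^ 2 + A3 * zt ^ 3 := by
    rw [h1, range8, q0, q1, q2, q3]
    linear_combination ((N8 χ 4 : ℤ) + (N8 χ 5 : ℤ) * zt + (N8 χ 6 : ℤ) * zt ^ 2 +
      (N8 χ 7 : ℤ) * zt ^ 3 : ℂ) * hz4
  have h3' : jacobiSum (χ ^ 3) (χ ^ 4) = A0 + A1 * zt ^ 3 - A2 * zt ^ 2 + A3 * zt := by
    have z9 : zt ^ 9 = zt := by rw [zt_mod]; norm_num
    have z6 : zt ^ 6 = -zt ^ 2 := by linear_combination zt ^ 2 * hz4
    have e : ∀ k, (zt ^ 3) ^ k = zt ^ (3 * k % 8) := by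
      intro k
      rw [← pow_mul, zt_mod]
    rw [h3, range8, e, e, e, e, e, e, e, e, q0, q1, q2, q3]
    norm_num
    linear_combination ((N8 χ 4 : ℤ) + A2 * zt ^ 2 + (N8 χ 6 : ℤ) * zt ^ 2 +
      (N8 χ 5 : ℤ) * zt ^ 3 + (N8 χ 7 : ℤ) * zt : ℂ) * hz4
  have hj := jac_eq χ C.pow8
  rw [h1', h3'] at hj
  have hj2 : ((A1 : ℂ) - A3) * (zt - zt ^ 3) + 2 * A2 * zt ^ 2 = 0 := by
    linear_combination hj
  rw [zt_sub, zt_sq] at hj2
  have hs2 : Real.sqrt 2 ≠ 0 := by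
    have : 0 < Real.sqrt 2 := Real.sqrt_pos.2 (by norm_num)
    exact this.ne'
  have hre := congrArg Complex.re hj2
  have him := congrArg Complex.im hj2
  have c1 : (((A1 : ℂ) - A3) * ((Real.sqrt 2 : ℝ) : ℂ) + 2 * A2 * Complex.I) =
      ((((A1 : ℝ) - A3) * Real.sqrt 2 : ℝ) : ℂ) + ((2 * A2 : ℝ) : ℂ) * Complex.I := by
    push_cast; ring
  rw [c1] at hre him
  rw [Complex.add_re, Complex.ofReal_re, Complex.re_ofReal_mul, Complex.I_re] at hre
  rw [Complex.add_im, Complex.ofReal_im, Complex.im_ofReal_mul, Complex.I_im] at him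
  have hA13 : A1 = A3 := by
    have h5 : ((A1 : ℝ) - A3) * Real.sqrt 2 = 0 := by simpa using hre
    have h6 := (mul_eq_zero.1 h5).resolve_right hs2
    have h7 : (A1 : ℝ) = A3 := by linarith
    exact_mod_cast h7
  have hA20 : A2 = 0 := by
    have h5 : (2 * A2 : ℝ) = 0 := by simpa using him
    have h6 : (A2 : ℝ) = 0 := by linarith
    exact_mod_cast h6
  -- norm
  have hχ1 : χ ≠ 1 := by
    intro h
    have := C.val
    rw [h, MulChar.one_apply_coe] at this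
    have h2 := zt4
    rw [← this] at h2
    norm_num at h2
  have hφ1 : χ ^ 4 ≠ 1 := by
    intro h
    have h2 : (χ ^ 4) (g : F) = (1 : MulChar F ℂ) (g : F) := by rw [h]
    rw [MulChar.pow_apply_coe, C.val, zt4, MulChar.one_apply_coe] at h2
    norm_num at h2
  have hχφ : χ * χ ^ 4 ≠ 1 := by
    intro h
    have h2 : (χ * χ ^ 4) (g : F) = (1 : MulChar F ℂ) (g : F) := by rw [h]
    rw [MulChar.mul_apply, MulChar.pow_apply_coe, C.val, zt4, MulChar.one_apply_coe] at h2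
    have h3 : zt = -1 := by linear_combination -h2
    have h4 := zt4
    rw [h3] at h4
    norm_num at h4
  have hchar : ringChar ℂ ≠ ringChar F := by
    rw [ringChar.eq_zero]
    exact (CharP.ringChar_ne_zero_of_finite F).symm
  have hnorm := jacobiSum_mul_jacobiSum_inv hchar hχ1 hφ1 hχφ
  have hi' : jacobiSum χ⁻¹ (χ ^ 4)⁻¹ = A0 - A1 * (zt + zt ^ 3) := by
    have e0 : (-zt ^ 3) ^ 2 = -zt ^ 2 := by linear_combination zt ^ 2 * hz4
    have e3 : (-zt ^ 3) ^ 3 = -zt := by linear_combination (-zt ^ 5 + zt) * hz4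
    have e4 : (-zt ^ 3) ^ 4 = -1 := by linear_combination (zt ^ 8 - zt ^ 4 + 1) * hz4
    have e5 : (-zt ^ 3) ^ 5 = zt ^ 3 := by
      linear_combination (-zt ^ 3) * e4
    have e6 : (-zt ^ 3) ^ 6 = zt ^ 2 := by
      linear_combination (-zt ^ 3) ^ 2 * e4 - e0
    have e7 : (-zt ^ 3) ^ 7 = zt := by
      linear_combination (-zt ^ 3) ^ 3 * e4 - e3
    rw [hi, range8, q0, q1, q2, q3, e0, e3, e4, e5, e6, e7, ← hA13, hA20]
    push_cast
    ring
  rw [h1', hi', ← hA13, hA20] at hnorm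
  have hz : (zt + zt ^ 3) ^ 2 = -2 := by
    rw [zt_add, mul_pow, sqrt_sq, Complex.I_sq]; ring
  have hn2 : (((A0 ^ 2 + 2 * A1 ^ 2 : ℤ)) : ℂ) = ((Fintype.card F : ℤ) : ℂ) := by
    push_cast at hnorm ⊢
    linear_combination hnorm + (A1 : ℂ) ^ 2 * hz
  have hn3 : A0 ^ 2 + 2 * A1 ^ 2 = (Fintype.card F : ℤ) := by exact_mod_cast hn2
  refine ⟨A0, A1, hn3, ?_, hA0, hA1, ?_, ?_⟩
  · have s1 := C.sum_all
    have s2 := C.sum_alt
    obtain ⟨u, hu⟩ := C.N2468
    omega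
  · rw [hA2, hA20]
  · rw [hA3, hA13]

end Pool.Agent.K1H59.SC
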