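import Mathlib
import Pool.Agent.K1H59.SC.G
import Pool.Agent.K1H59.SC.F1

set_option autoImplicit false

/-!
The integers `K1`, `K3` in terms of `p = A^2 + 2B^2` resp. `p^2 = A^2 + 2B^2`.
-/

namespace Pool.Agent.K1H59.SC

open Finset

variable {p f : ℕ} [hp : Fact p.Prime]

theorem JR_main {F R : Type*} [Field F] [Fintype F] [DecidableEq F] [CommRing R] {π : R →+* F}
    (L : Lift p f F R π) (h2 : p ≠ 2) {κ : ℕ} (hc : Fintype.card F = 8 * κ + 1) :
    ∃ (A B : ℤ) (r : R), r ^ 2 = -2 ∧ A ^ 2 + 2 * B ^ 2 = Fintype.card F ∧ A % 4 = 3 ∧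
      ∑ x, L.tau x ^ (7 * κ) * L.psi (1 - x) ^ (4 * κ) = A + B * r := by
  obtain ⟨g, χ, C⟩ := exists_Ch hc
  obtain ⟨A, B, hAB, hA4, e0, e1, e2, e3⟩ := C.main
  have hκ := C.kpos
  -- the root of unity in `R`
  obtain ⟨u, hu⟩ : ∃ u, u = L.tau (g : F) ^ (4 * κ) := ⟨_, rfl⟩
  have hu2 : (u - 1) * (u + 1) = 0 := by
    have h3 : u * u = 1 := by
      rw [hu, ← L.tau_pow, ← L.tau_mul, C.half]
      rw [show (-1 : F) * -1 = 1 by ring, L.tau_one]
    linear_combination h3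
  have hu1 : IsUnit (u - 1) := by
    apply L.isUnit
    rw [hu, map_sub, map_pow, L.pi_tau, C.half, map_one]
    have h3 := Ring.two_ne_zero C.char_ne
    intro h4
    apply h3
    linear_combination -h4
  have hu3 : u = -1 := by
    have := hu1.mul_right_eq_zero.1 hu2
    linear_combination this
  obtain ⟨s, hs⟩ : ∃ s, s = L.tau (g : F) ^ (7 * κ) := ⟨_, rfl⟩
  have hs4 : s ^ 4 = -1 := by
    have : s ^ 4 = u ^ 7 := by
      rw [hs, hu, ← pow_mul, ← pow_mul]; congr 1; ring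
    rw [this, hu3]
    ring
  have hs8 : s ^ 8 = 1 := by
    have : s ^ 8 = (s ^ 4) ^ 2 := by ring
    rw [this, hs4]; ring
  have hτs : ∀ (x : F) (k : ℕ), k < 8 → χ x = zt ^ k → L.tau x ^ (7 * κ) = s ^ k := by
    intro x k hk hx
    have hx0 : x ≠ 0 := by
      rintro rfl
      rw [MulChar.map_zero] at hx
      exact pow_ne_zero k zt_ne hx.symm
    obtain ⟨m, rfl⟩ := C.log x hx0
    rw [map_pow, C.val, zt_mod] at hx
    have h5 := zt_prim.pow_inj (Nat.mod_lt _ (by norm_num)) hk hx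
    rw [L.tau_pow, ← pow_mul, mul_comm, pow_mul, ← hs, ← h5]
    conv_lhs => rw [← Nat.div_add_mod m 8]
    rw [pow_add, pow_mul, hs8, one_pow, one_mul]
  have hψ : ∀ x : F, L.psi (1 - x) ^ (4 * κ) = ((quadraticChar F (1 - x) : ℤ) : R) := by
    intro x
    have h3 := quadraticChar_eq_pow_of_char_ne_two' C.char_ne (1 - x)
    rw [C.card, show (8 * κ + 1) / 2 = 4 * κ by omega] at h3
    rw [← L.psi_pow, ← h3]
    by_cases hx : 1 - x = 0
    · rw [hx, MulChar.map_zero, Int.cast_zero, Int.cast_zero, L.psi_zero]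
    · rcases quadraticChar_dichotomy hx with h | h
      · rw [h]; push_cast; exact L.psi_one
      · rw [h]; push_cast; exact L.psi_neg_one h2
  have hsum := class_sum (D := R) χ C.values (fun x => L.tau x ^ (7 * κ)) s (by
    rw [L.tau_zero, zero_pow (by omega)]) hτs
  refine ⟨A, B, s + s ^ 3, ?_, hAB, hA4, ?_⟩
  · linear_combination (s ^ 2 + 2) * hs4
  · rw [sum_congr rfl fun x _ => by rw [hψ], hsum, range8]
    have q0 : ((N8 χ 0 : ℤ) : R) = A + (N8 χ 4 : ℤ) := by rw [← e0]; push_cast; ring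
    have q1 : ((N8 χ 1 : ℤ) : R) = B + (N8 χ 5 : ℤ) := by rw [← e1]; push_cast; ring
    have q2 : ((N8 χ 2 : ℤ) : R) = (N8 χ 6 : ℤ) := by
      rw [show N8 χ 2 = N8 χ 6 by linear_combination e2]
    have q3 : ((N8 χ 3 : ℤ) : R) = B + (N8 χ 7 : ℤ) := by rw [← e3]; push_cast; ring
    rw [q0, q1, q2, q3]
    linear_combination ((N8 χ 4 : ℤ) + (N8 χ 5 : ℤ) * s + (N8 χ 6 : ℤ) * s ^ 2 +
      (N8 χ 7 : ℤ) * s ^ 3 : R) * hs4

/-! ### `p = 8j+1` -/

theorem lift1 : Lift p 1 (ZMod p) (ZMod (p ^ 2))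
    (ZMod.castHom (dvd_pow_self p (two_ne_zero)) (ZMod p)) := by
  have : NeZero (p ^ 2) := ⟨pow_ne_zero 2 hp.out.ne_zero⟩
  refine ⟨ZMod.castHom_surjective _, ?_, ?_, ?_, one_pos⟩
  · intro x hx
    obtain ⟨m, rfl⟩ : ∃ m : ℕ, (m : ZMod (p ^ 2)) = x := ⟨x.val, ZMod.natCast_zmod_val x⟩
    rw [map_natCast, ZMod.natCast_eq_zero_iff] at hx
    obtain ⟨c, rfl⟩ := hx
    exact ⟨c, by push_cast; ring⟩
  · rw [← Nat.cast_pow, ZMod.natCast_self]
  · rw [ZMod.card, pow_one]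

theorem K1_main {j : ℕ} (hpj : p = 8 * j + 1) : ∃ (A B r : ℤ), (p : ℤ) ^ 2 ∣ r ^ 2 + 2 ∧
    A ^ 2 + 2 * B ^ 2 = p ∧ A % 4 = 3 ∧ (p : ℤ) ^ 2 ∣ K1 p j - (A + B * r) := by
  have : NeZero (p ^ 2) := ⟨pow_ne_zero 2 hp.out.ne_zero⟩
  have h2 : p ≠ 2 := by omega
  obtain ⟨A, B, r, hr, hAB, hA4, hJ⟩ := JR_main (lift1 (p := p)) h2 (κ := j)
    (by rw [ZMod.card]; exact hpj)
  rw [J1 lift1 hpj] at hJ
  rw [ZMod.card] at hAB
  obtain ⟨r', rfl⟩ : ∃ r' : ℤ, (r' : ZMod (p ^ 2)) = r := ⟨(r.val : ℤ), by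
    rw [Int.cast_natCast, ZMod.natCast_zmod_val]⟩
  refine ⟨A, B, r', ?_, hAB, hA4, ?_⟩
  · have h3 : ((r' ^ 2 + 2 : ℤ) : ZMod (p ^ 2)) = 0 := by
      push_cast
      rw [hr]; ring
    rw [ZMod.intCast_zmod_eq_zero_iff_dvd] at h3
    exact_mod_cast h3
  · have h3 : ((K1 p j - (A + B * r') : ℤ) : ZMod (p ^ 2)) = 0 := by
      push_cast
      rw [hJ]; ring
    rw [ZMod.intCast_zmod_eq_zero_iff_dvd] at h3
    exact_mod_cast h3

/-! ### `p = 8t+3` -/

/-- the field with `p^2` elements -/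
abbrev F2 (p : ℕ) := QuadraticAlgebra (ZMod p) (-1) 0

/-- its lift modulo `p^2` -/
abbrev R2 (p : ℕ) := QuadraticAlgebra (ZMod (p ^ 2)) (-1) 0

/-- reduction -/
def red (p : ℕ) : R2 p →+* F2 p where
  toFun z := ⟨ZMod.castHom (dvd_pow_self p (two_ne_zero)) (ZMod p) z.re,
    ZMod.castHom (dvd_pow_self p (two_ne_zero)) (ZMod p) z.im⟩
  map_one' := by
    ext
    · change ZMod.castHom (dvd_pow_self p (two_ne_zero)) (ZMod p) 1 = 1
      exact map_one _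
    · change ZMod.castHom (dvd_pow_self p (two_ne_zero)) (ZMod p) 0 = 0
      exact map_zero _
  map_mul' x y := by
    ext
    · simp only [QuadraticAlgebra.re_mul, map_add, map_mul, map_neg, map_one]
    · simp only [QuadraticAlgebra.im_mul, map_add, map_mul, map_zero]
  map_zero' := by
    ext
    · exact map_zero (ZMod.castHom (dvd_pow_self p (two_ne_zero)) (ZMod p))
    · exact map_zero (ZMod.castHom (dvd_pow_self p (two_ne_zero)) (ZMod p))
  map_add' x y := by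
    ext
    · simp only [QuadraticAlgebra.re_add, map_add]
    · simp only [QuadraticAlgebra.im_add, map_add]

instance : Fintype (F2 p) := Fintype.ofEquiv _ (QuadraticAlgebra.equivProd (-1 : ZMod p) 0).symm

theorem card_F2 : Fintype.card (F2 p) = p ^ 2 := by
  rw [Fintype.card_congr (QuadraticAlgebra.equivProd (-1 : ZMod p) 0), Fintype.card_prod,
    ZMod.card, pow_two]

theorem fact34 (h : p % 4 = 3) : Fact (∀ r : ZMod p, r ^ 2 ≠ -1 + 0 * r) := by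
  refine ⟨fun r hr => ?_⟩
  have h1 : IsSquare (-1 : ZMod p) := ⟨r, by rw [← pow_two, hr]; ring⟩
  exact (ZMod.exists_sq_eq_neg_one_iff.1 h1) h

theorem lift2 [Fact (∀ r : ZMod p, r ^ 2 ≠ -1 + 0 * r)] :
    Lift p 2 (F2 p) (R2 p) (red p) := by
  have : NeZero (p ^ 2) := ⟨pow_ne_zero 2 hp.out.ne_zero⟩
  refine ⟨?_, ?_, ?_, card_F2, two_pos⟩
  · rintro ⟨x, y⟩
    obtain ⟨x', hx'⟩ := ZMod.castHom_surjective (dvd_pow_self p (two_ne_zero)) x
    obtain ⟨y', hy'⟩ := ZMod.castHom_surjective (dvd_pow_self p (two_ne_zero)) y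
    exact ⟨⟨x', y'⟩, by
      ext
      · exact hx'
      · exact hy'⟩
  · rintro ⟨x, y⟩ h
    have hx : ZMod.castHom (dvd_pow_self p (two_ne_zero)) (ZMod p) x = 0 :=
      congrArg QuadraticAlgebra.re h
    have hy : ZMod.castHom (dvd_pow_self p (two_ne_zero)) (ZMod p) y = 0 :=
      congrArg QuadraticAlgebra.im h
    obtain ⟨x', hx'⟩ := (lift1 (p := p)).ker x hx
    obtain ⟨y', hy'⟩ := (lift1 (p := p)).ker y hy
    refine ⟨⟨x', y'⟩, ?_⟩
    ext
    · rw [QuadraticAlgebra.re_mul]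
      simp [hx']
    · rw [QuadraticAlgebra.im_mul]
      simp [hy']
  · have h := (lift1 (p := p)).psq
    have h3 : ((p : ZMod (p ^ 2)) * p) = 0 := by rw [← pow_two]; exact h
    rw [pow_two]
    ext
    · rw [QuadraticAlgebra.re_mul]
      simp [h3]
    · rw [QuadraticAlgebra.im_mul]
      simp

theorem int_R2 {z : ℤ} (h : (z : R2 p) = 0) : (p : ℤ) ^ 2 ∣ z := by
  have h1 : (z : ZMod (p ^ 2)) = 0 := congrArg QuadraticAlgebra.re h
  rw [ZMod.intCast_zmod_eq_zero_iff_dvd] at h1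
  exact_mod_cast h1

theorem K3_main {t : ℕ} (hpt : p = 8 * t + 3) (ht : 0 < t) (hu : ¬ (p : ℤ) ∣ K3 p t) :
    ∃ (A B : ℤ), A ^ 2 + 2 * B ^ 2 = (p : ℤ) ^ 2 ∧ (p : ℤ) ^ 2 ∣ K3 p t - 2 * A := by
  classical
  have h2 : p ≠ 2 := by omega
  have hF := fact34 (p := p) (by omega)
  obtain ⟨A, B, r, hr, hAB, hA4, hJ⟩ := JR_main (lift2 (p := p)) h2 (κ := 8 * t ^ 2 + 6 * t + 1)
    (by rw [card_F2, hpt]; ring)
  rw [J3 lift2 hpt ht] at hJ
  rw [card_F2] at hAB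
  have hpsq := (lift2 (p := p)).psq
  refine ⟨A, B, by rw [hAB]; push_cast; ring, ?_⟩
  have hunit : IsUnit ((K3 p t : ℤ) : R2 p) := by
    apply (lift2 (p := p)).isUnit
    rw [map_intCast]
    intro h0
    apply hu
    have h1 : ((K3 p t : ℤ) : ZMod p) = 0 := congrArg QuadraticAlgebra.re h0
    exact (ZMod.intCast_zmod_eq_zero_iff_dvd _ _).1 h1
  have h3 : ((K3 p t : ℤ) : R2 p) * ((A : R2 p) - B * r) = 0 := by
    rw [hJ]
    have h4 : ((A ^ 2 + 2 * B ^ 2 : ℤ) : R2 p) = 0 := by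
      rw [hAB]
      push_cast
      exact hpsq
    push_cast at h4
    linear_combination h4 - (B : R2 p) ^ 2 * hr
  have h4 := hunit.mul_right_eq_zero.1 h3
  apply int_R2
  push_cast
  linear_combination hJ - h4

end Pool.Agent.K1H59.SC
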