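import Mathlib

set_option autoImplicit false

/-!
Signs for `p = 8t+3`.
-/

namespace Pool.Agent.K1H59.SC

open Finset

theorem char_two {p : ℕ} [hp : Fact p.Prime] {t : ℕ} (hpt : p = 8 * t + 3) :
    quadraticChar (ZMod p) 2 = -1 ∧ quadraticChar (ZMod p) (-2) = 1 ∧
      quadraticChar (ZMod p) (-1) = -1 := by
  have h2 : p ≠ 2 := by omega
  have a1 := legendreSym.at_two h2
  have a2 := legendreSym.at_neg_two h2
  have a3 := legendreSym.at_neg_one h2
  rw [legendreSym] at a1 a2 a3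
  push_cast at a1 a2 a3
  refine ⟨?_, ?_, ?_⟩
  · rw [a1, ZMod.χ₈_nat_eq_if_mod_eight]
    rw [if_neg (by omega), if_neg (by omega)]
  · rw [a2, ZMod.χ₈'_nat_eq_if_mod_eight]
    rw [if_neg (by omega), if_pos (by omega)]
  · rw [a3, ZMod.χ₄_nat_eq_if_mod_four]
    rw [if_neg (by omega), if_neg (by omega)]

/-- the quadratic residues below `p/4` -/
theorem sum_quarter {p : ℕ} [hp : Fact p.Prime] {t : ℕ} (hpt : p = 8 * t + 3) :
    ∑ k ∈ range (2 * t), quadraticChar (ZMod p) ((k + 1 : ℕ) : ZMod p) = 0 := by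
  obtain ⟨c2, cm2, -⟩ := char_two hpt
  obtain ⟨f, hf⟩ : ∃ f : ℕ → ℤ, f = fun k => quadraticChar (ZMod p) ((k : ℕ) : ZMod p) := ⟨_, rfl⟩
  have hf' : ∀ k, quadraticChar (ZMod p) ((k : ℕ) : ZMod p) = f k := fun k => by rw [hf]
  simp only [hf']
  have hev : ∀ k, f (2 * k) = -f k := by
    intro k
    rw [hf]
    change quadraticChar (ZMod p) ((2 * k : ℕ) : ZMod p) = -quadraticChar (ZMod p) (k : ZMod p)
    push_cast
    rw [map_mul, c2]
    ring
  have hod : ∀ k, 2 * k ≤ p → f (p - 2 * k) = f k := by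
    intro k hk
    rw [hf]
    change quadraticChar (ZMod p) ((p - 2 * k : ℕ) : ZMod p) = quadraticChar (ZMod p) (k : ZMod p)
    rw [Nat.cast_sub hk, ZMod.natCast_self]
    push_cast
    rw [show (0 : ZMod p) - 2 * k = -2 * k by ring, map_mul, cm2, one_mul]
  -- the full sum up to `p/2` in two ways
  have h1 : ∑ k ∈ range (2 * (2 * t) + 1), f (k + 1) =
      ∑ k ∈ range (2 * t), f (2 * (k + 1)) + ∑ k ∈ range (2 * t + 1), f (2 * k + 1) := by
    have : ∀ m : ℕ, ∑ k ∈ range (2 * m + 1), f (k + 1) =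
        ∑ k ∈ range m, f (2 * (k + 1)) + ∑ k ∈ range (m + 1), f (2 * k + 1) := by
      intro m
      induction m with
      | zero => simp
      | succ m ih =>
        rw [show 2 * (m + 1) + 1 = 2 * m + 1 + 1 + 1 by ring, sum_range_succ, sum_range_succ, ih,
          sum_range_succ (fun k => f (2 * (k + 1))) m, sum_range_succ (fun k => f (2 * k + 1)) (m + 1)]
        rw [show 2 * m + 1 + 1 = 2 * (m + 1) by ring]
        ring
    exact this (2 * t)
  have h2 : ∑ k ∈ range (2 * t + 1), f (2 * k + 1) =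
      ∑ k ∈ range (2 * t + 1), f (2 * t + k + 1) := by
    rw [← Finset.sum_range_reflect]
    refine sum_congr rfl fun k hk => ?_
    rw [mem_range] at hk
    rw [show 2 * (2 * t + 1 - 1 - k) + 1 = p - 2 * (2 * t + k + 1) by omega, hod _ (by omega)]
  have h3 : ∑ k ∈ range (2 * (2 * t) + 1), f (k + 1) =
      ∑ k ∈ range (2 * t), f (k + 1) + ∑ k ∈ range (2 * t + 1), f (2 * t + k + 1) := by
    rw [show 2 * (2 * t) + 1 = 2 * t + (2 * t + 1) by ring, sum_range_add]
  have h4 : ∑ k ∈ range (2 * t), f (2 * (k + 1)) = -∑ k ∈ range (2 * t), f (k + 1) := by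
    rw [← sum_neg_distrib]
    exact sum_congr rfl fun k _ => hev _
  linarith

theorem prod_sign (s : Finset ℕ) (f : ℕ → ℤ) (hf : ∀ i ∈ s, f i = 1 ∨ f i = -1) :
    ∏ i ∈ s, f i = (-1) ^ (s.filter fun i => f i = -1).card ∧
      ∑ i ∈ s, f i = s.card - 2 * (s.filter fun i => f i = -1).card := by
  classical
  induction s using Finset.induction_on with
  | empty => simp
  | insert a s ha ih =>
    obtain ⟨h1, h2⟩ := ih fun i hi => hf i (mem_insert_of_mem hi)
    rw [prod_insert ha, sum_insert ha, filter_insert, card_insert_of_notMem ha, h1, h2]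
    rcases hf a (mem_insert_self _ _) with h | h
    · rw [h, if_neg (by norm_num)]
      push_cast
      constructor <;> ring
    · rw [h, if_pos rfl, card_insert_of_notMem (fun h' => ha (mem_filter.1 h').1)]
      push_cast
      constructor <;> ring

theorem char_fact {p : ℕ} [hp : Fact p.Prime] {t : ℕ} (hpt : p = 8 * t + 3) :
    quadraticChar (ZMod p) (((2 * t).factorial : ℕ) : ZMod p) = (-1) ^ t := by
  have h1 := sum_quarter hpt
  have h2 := prod_sign (range (2 * t)) (fun k => quadraticChar (ZMod p) ((k + 1 : ℕ) : ZMod p)) (by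
    intro k hk
    rw [mem_range] at hk
    apply quadraticChar_dichotomy
    intro h0
    rw [ZMod.natCast_eq_zero_iff] at h0
    have := Nat.le_of_dvd (by omega) h0
    omega)
  rw [h1] at h2
  have h3 : (((range (2 * t)).filter fun k =>
      quadraticChar (ZMod p) ((k + 1 : ℕ) : ZMod p) = -1).card : ℤ) = t := by
    have := h2.2
    rw [card_range] at this
    push_cast at this ⊢
    linarith
  have h4 : ((range (2 * t)).filter fun k =>
      quadraticChar (ZMod p) ((k + 1 : ℕ) : ZMod p) = -1).card = t := by exact_mod_cast h3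
  rw [← Finset.prod_range_add_one_eq_factorial, Nat.cast_prod, map_prod, h2.1, h4]

theorem wilson' {p : ℕ} [hp : Fact p.Prime] (m : ℕ) (hm : m + 1 ≤ p) :
    (((p - 1 - m).factorial : ℕ) : ZMod p) * ((m.factorial : ℕ) : ZMod p) = (-1) ^ (m + 1) := by
  induction m with
  | zero =>
    rw [Nat.sub_zero, ZMod.wilsons_lemma]
    simp
  | succ m ih =>
    have ih := ih (by omega)
    obtain ⟨d, hd⟩ : ∃ d, p = d + m + 2 := ⟨p - m - 2, by omega⟩
    rw [show p - 1 - m = d + 1 by omega, Nat.factorial_succ] at ih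
    rw [show p - 1 - (m + 1) = d by omega, Nat.factorial_succ, pow_succ]
    have h1 : ((d + 1 : ℕ) : ZMod p) = -((m + 1 : ℕ) : ZMod p) := by
      have : ((p : ℕ) : ZMod p) = 0 := ZMod.natCast_self p
      have h2 : ((d + m + 2 : ℕ) : ZMod p) = 0 := by rw [← hd]; exact this
      push_cast at h2 ⊢
      linear_combination h2
    rw [Nat.cast_mul, h1] at ih
    rw [Nat.cast_mul]
    linear_combination -ih

theorem char_choose {p : ℕ} [hp : Fact p.Prime] {t : ℕ} (hpt : p = 8 * t + 3) :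
    quadraticChar (ZMod p) ((((2 * (3 * t + 1)).choose (3 * t + 1) : ℕ)) : ZMod p) =
      (-1) ^ (t + 1) := by
  obtain ⟨-, -, cm1⟩ := char_two hpt
  have h1 := wilson' (p := p) (2 * t) (by omega)
  rw [show p - 1 - 2 * t = 2 * (3 * t + 1) by omega] at h1
  have h2 := congrArg (quadraticChar (ZMod p)) h1
  have hev : (-1 : ZMod p) ^ (2 * t + 1) = -1 := Odd.neg_one_pow ⟨t, rfl⟩
  rw [map_mul, char_fact hpt, hev, cm1] at h2
  have h3 := Nat.choose_mul_factorial_mul_factorial (show 3 * t + 1 ≤ 2 * (3 * t + 1) by omega)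
  rw [show 2 * (3 * t + 1) - (3 * t + 1) = 3 * t + 1 by omega] at h3
  have h4 : quadraticChar (ZMod p) (((2 * (3 * t + 1)).factorial : ℕ) : ZMod p) =
      quadraticChar (ZMod p) ((((2 * (3 * t + 1)).choose (3 * t + 1) : ℕ)) : ZMod p) := by
    rw [← h3]
    push_cast
    rw [mul_assoc, map_mul, map_mul]
    have h5 : (((3 * t + 1).factorial : ℕ) : ZMod p) ≠ 0 := by
      intro h0
      rw [ZMod.natCast_eq_zero_iff] at h0
      have := (hp.out.dvd_factorial).1 h0
      omega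
    have h6 := quadraticChar_sq_one h5
    rw [pow_two] at h6
    rw [h6, mul_one]
  rw [← h4]
  have h5 : ((-1 : ℤ) ^ t) * (-1) ^ t = 1 := by
    rw [← pow_add]; exact Even.neg_one_pow ⟨t, rfl⟩
  rw [pow_succ]
  linear_combination ((-1 : ℤ) ^ t) * h2 - (quadraticChar (ZMod p)
    (((2 * (3 * t + 1)).factorial : ℕ) : ZMod p)) * h5

open scoped NumberTheorySymbols in
theorem chi8 {m : ℕ} {t : ℕ} {y : ℤ} (hm : m % 2 = 1) (h : ((8 * t + 3 : ℕ) : ℤ) = (m : ℤ) ^ 2 + 2 * y ^ 2) :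
    ZMod.χ₈ m = (-1) ^ t := by
  have hy : y % 2 = 1 := by
    rcases Int.emod_two_eq_zero_or_one y with h0 | h0
    · exfalso
      obtain ⟨z, hz⟩ : ∃ z, y = 2 * z := ⟨y / 2, by omega⟩
      obtain ⟨n, hn⟩ : ∃ n : ℤ, (m : ℤ) = 2 * n + 1 := ⟨(m : ℤ) / 2, by omega⟩
      rw [hz, hn] at h
      have e1 : (2 * n + 1) ^ 2 + 2 * (2 * z) ^ 2 = 4 * (n ^ 2 + n + 2 * z ^ 2) + 1 := by ring
      rw [e1] at h
      push_cast at h
      omega
    · exact h0
  obtain ⟨z, hz⟩ : ∃ z, y = 2 * z + 1 := ⟨y / 2, by omega⟩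
  have hz2 : (z ^ 2 + z) % 2 = 0 := by
    have : z ^ 2 + z = z * (z + 1) := by ring
    rw [this]
    exact Int.even_iff.1 (Int.even_mul_succ_self z)
  have e2 : 2 * y ^ 2 = 8 * (z ^ 2 + z) + 2 := by rw [hz]; ring
  rw [ZMod.χ₈_nat_eq_if_mod_eight, if_neg (by omega)]
  obtain ⟨q, r, hqr, hr8⟩ : ∃ q r : ℕ, m = 8 * q + r ∧ r < 8 := ⟨m / 8, m % 8, by omega, by omega⟩
  have hr : m % 8 = r := by omega
  have e3 : (m : ℤ) ^ 2 = 16 * (4 * q ^ 2 + q * r) + r ^ 2 := by rw [hqr]; push_cast; ring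
  rw [e2, e3] at h
  have hrr : r = 1 ∨ r = 3 ∨ r = 5 ∨ r = 7 := by omega
  rcases hrr with h' | h' | h' | h' <;> rw [hr, h'] <;> rw [h'] at h
  · rw [if_pos (by norm_num)]
    have : Even t := by rw [Nat.even_iff]; push_cast at h; omega
    rw [this.neg_one_pow]
  · rw [if_neg (by norm_num)]
    have : Odd t := by rw [Nat.odd_iff]; push_cast at h; omega
    rw [this.neg_one_pow]
  · rw [if_neg (by norm_num)]
    have : Odd t := by rw [Nat.odd_iff]; push_cast at h; omega
    rw [this.neg_one_pow]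
  · rw [if_pos (by norm_num)]
    have : Even t := by rw [Nat.even_iff]; push_cast at h; omega
    rw [this.neg_one_pow]

open scoped NumberTheorySymbols in
theorem leg_x {p : ℕ} [hp : Fact p.Prime] {t : ℕ} (hpt : p = 8 * t + 3) {x y : ℤ}
    (h : (p : ℤ) = x ^ 2 + 2 * y ^ 2) (hx : x % 4 = 1) :
    quadraticChar (ZMod p) ((x : ℤ) : ZMod p) = (-1) ^ t := by
  have hpz : Prime (p : ℤ) := Nat.prime_iff_prime_int.1 hp.out
  change legendreSym p x = _
  rw [jacobiSym.legendreSym.to_jacobiSym]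
  obtain ⟨m, hm⟩ : ∃ m : ℕ, x.natAbs = m := ⟨_, rfl⟩
  have hm2 : m % 2 = 1 := by omega
  have hmx : (m : ℤ) ^ 2 = x ^ 2 := by rw [← hm, Int.natAbs_sq]
  have hodd : Odd m := Nat.odd_iff.2 hm2
  have h' : (p : ℤ) = (m : ℤ) ^ 2 + 2 * y ^ 2 := by rw [hmx]; exact h
  have hcop : Int.gcd y (m : ℤ) = 1 := by
    by_contra hne
    obtain ⟨q, hq, hqd⟩ := Nat.exists_prime_and_dvd hne
    have d1 : (q : ℤ) ∣ y := (Int.natCast_dvd_natCast.2 hqd).trans (Int.gcd_dvd_left _ _)
    have d2 : (q : ℤ) ∣ (m : ℤ) := (Int.natCast_dvd_natCast.2 hqd).trans (Int.gcd_dvd_right _ _)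
    have d3 : (q : ℤ) ^ 2 ∣ (p : ℤ) := by
      rw [h']
      exact dvd_add (pow_dvd_pow_of_dvd d2 2) (Dvd.dvd.mul_left (pow_dvd_pow_of_dvd d1 2) 2)
    have d4 : q ^ 2 ∣ p := by exact_mod_cast d3
    have d5 : q ∣ p := (dvd_pow_self q two_ne_zero).trans d4
    have d6 : q = p := (Nat.prime_dvd_prime_iff_eq hq hp.out).1 d5
    rw [d6] at d4
    have := Nat.le_of_dvd hp.out.pos d4
    have := hp.out.one_lt
    nlinarith
  have hpm : jacobiSym (p : ℤ) m = ZMod.χ₈ m := by
    rw [← jacobiSym.at_two hodd]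
    have e1 : jacobiSym (p : ℤ) m = jacobiSym (2 * y ^ 2) m := by
      apply jacobiSym.mod_left'
      rw [h', pow_two, add_comm, Int.add_mul_emod_self_left]
    rw [e1, jacobiSym.mul_left, jacobiSym.sq_one' hcop, mul_one]
  have hchi := chi8 (m := m) (t := t) (y := y) hm2 (by rw [← hpt]; exact h')
  rw [← hchi, ← hpm]
  rcases Int.natAbs_eq x with hxm | hxm
  · rw [hm] at hxm
    rw [hxm]
    have hm4 : m % 4 = 1 := by omega
    exact jacobiSym.quadratic_reciprocity_one_mod_four hm4 (Nat.odd_iff.2 (by omega))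
  · rw [hm] at hxm
    rw [hxm]
    have hm4 : m % 4 = 3 := by omega
    rw [jacobiSym.neg _ (Nat.odd_iff.2 (by omega : p % 2 = 1)),
      jacobiSym.quadratic_reciprocity_three_mod_four hm4 (by omega), ZMod.χ₄_nat_eq_if_mod_four,
      if_neg (by omega), if_neg (by omega)]
    ring

end Pool.Agent.K1H59.SC
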