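import Mathlib
import Pool.Agent.K1H59.SC.I
import Pool.Agent.K1H59.SC.J
import Pool.Agent.R488.Cub.Jac

set_option autoImplicit false

/-!
The supercongruence of MP_c35bdc_nt.
-/

namespace Pool.Agent.K1H59.SC

open Finset Pool.Agent.R439.PL
open Pool.Agent.R488.Cub (gb H)

variable {p : ℕ} [hp : Fact p.Prime]

theorem int_dvd {z : ℤ} (h : I p 1 (z : ℚ)) : (p : ℤ) ∣ z := by
  by_contra hn
  exact (U_int hn).not_I one_pos h

theorem b_unit {n j : ℕ} (hn : p = 2 * n + 1) (hj : j ≤ n) : U p (b j) := by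
  have u3 : U p ((-1 : ℤ) : ℚ) := Uint (by norm_num) (by have := hp.out.pos; omega)
    (by have := hp.out.one_lt; omega)
  have u2 := U2 (p := p) (by omega)
  rw [b, gb]
  refine U.mul ?_ (U.div (U.prod fun i hi => ?_) (Ufact (by omega)))
  · have := u3.pow j
    push_cast at this
    exact this
  · have hi' := mem_range.1 hi
    have u1 : U p ((2 * i + 1 : ℕ) : ℚ) := Unat (by omega) (by omega)
    have := (u3.mul u1).div u2
    have e : (((-1 : ℤ) : ℚ) * ((2 * i + 1 : ℕ) : ℚ)) / 2 = -1 / 2 - (i : ℚ) := by push_cast; ring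
    rwa [e] at this

theorem UU_b {n c j : ℕ} (hn : p = 2 * n + 1) (hj : j ≤ n) : EQ p 1 (UU p n c j) (b j) := by
  have h8 := eighth_mem (p := p) (by omega)
  have hb := b_mem hn hj
  have m1 : H j ∈ Zp p := H_mem (by omega)
  have m2 : H (n - j) ∈ Zp p := H_mem (by omega)
  have hI : I p 1 (b j * ((c * p / 8) * (H j - H (n - j)))) := by
    refine I.mulL hb (I.mulR ⟨c * (1 / 8), mul_mem (nat_mem c) h8, by ring⟩ (sub_mem m1 m2))
  have e : UU p n c j = b j + b j * ((c * p / 8) * (H j - H (n - j))) := by rw [UU]; ring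
  rw [e]
  refine ⟨add_mem hb hI.mem, hb, ?_⟩
  rw [add_sub_cancel_left]
  exact hI

theorem b_choose (j : ℕ) : b j * 4 ^ j = ((2 * j).choose j : ℚ) := by
  induction j with
  | zero => simp [b_zero]
  | succ j ih =>
    have h1 := b_succ j
    have h2 := Nat.succ_mul_centralBinom_succ j
    rw [Nat.centralBinom, Nat.centralBinom] at h2
    have h3 : (2 * (j : ℚ) + 2) ≠ 0 := by positivity
    have h4 : ((j : ℚ) + 1) * ((2 * (j + 1)).choose (j + 1) : ℚ) =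
        2 * (2 * j + 1) * ((2 * j).choose j : ℚ) := by exact_mod_cast h2
    apply mul_left_cancel₀ h3
    rw [pow_succ]
    linear_combination (4 * 4 ^ j) * h1 + (4 * (2 * (j : ℚ) + 1)) * ih - 2 * h4

theorem uniq2 {x y a b : ℤ} (h : (p : ℤ) = x ^ 2 + 2 * y ^ 2) (h' : (p : ℤ) = a ^ 2 + 2 * b ^ 2) :
    x = a ∨ x = -a := by
  have hpz : Prime (p : ℤ) := Nat.prime_iff_prime_int.1 hp.out
  have hp0 : (0 : ℤ) < p := by exact_mod_cast hp.out.pos
  have key : ∀ D E : ℤ, (p : ℤ) ^ 2 = E ^ 2 + 2 * D ^ 2 → (p : ℤ) ∣ D → D = 0 := by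
    intro D E hE hD
    obtain ⟨k, rfl⟩ := hD
    by_contra hne
    have hk : k ≠ 0 := by rintro rfl; exact hne (mul_zero _)
    have hk1 : 1 ≤ k ^ 2 := by
      have := sq_pos_of_ne_zero (a := k) hk
      omega
    nlinarith [mul_le_mul_of_nonneg_left hk1 (sq_nonneg (p : ℤ)), sq_nonneg E, pow_pos hp0 2]
  have fin : x ^ 2 * b ^ 2 = y ^ 2 * a ^ 2 → x = a ∨ x = -a := by
    intro e
    have h1 : (p : ℤ) * b ^ 2 = (p : ℤ) * y ^ 2 := by
      linear_combination b ^ 2 * h + e - y ^ 2 * h'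
    have h2 : b ^ 2 = y ^ 2 := mul_left_cancel₀ hp0.ne' h1
    have h3 : x ^ 2 = a ^ 2 := by linarith
    exact sq_eq_sq_iff_eq_or_eq_neg.mp h3
  have hdvd : (p : ℤ) ∣ (x * b - y * a) * (x * b + y * a) := by
    refine ⟨b ^ 2 - y ^ 2, ?_⟩
    linear_combination (-b ^ 2) * h + y ^ 2 * h'
  rcases hpz.dvd_or_dvd hdvd with h1 | h1
  · have h2 := key (x * b - y * a) (x * a + 2 * (y * b))
      (by linear_combination (p : ℤ) * h + (x ^ 2 + 2 * y ^ 2) * h') h1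
    apply fin
    have e : x * b = y * a := by linarith
    calc x ^ 2 * b ^ 2 = (x * b) ^ 2 := by ring
      _ = (y * a) ^ 2 := by rw [e]
      _ = _ := by ring
  · have h2 := key (x * b + y * a) (x * a - 2 * (y * b))
      (by linear_combination (p : ℤ) * h + (x ^ 2 + 2 * y ^ 2) * h') h1
    apply fin
    have e : x * b = -(y * a) := by linarith
    calc x ^ 2 * b ^ 2 = (x * b) ^ 2 := by ring
      _ = (-(y * a)) ^ 2 := by rw [e]
      _ = _ := by ring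

theorem x_unit {x y : ℤ} (h : (p : ℤ) = x ^ 2 + 2 * y ^ 2) (hx : x % 4 = 1) (hp5 : 5 < p) :
    ¬ (p : ℤ) ∣ x := by
  rintro ⟨k, hk⟩
  have hp0 : (0 : ℤ) < p := by exact_mod_cast hp.out.pos
  have hk0 : k ≠ 0 := by rintro rfl; rw [mul_zero] at hk; omega
  have hk1 : 1 ≤ k ^ 2 := by
    have := sq_pos_of_ne_zero (a := k) hk0
    omega
  have h1 : (1 : ℤ) < p := by exact_mod_cast hp.out.one_lt
  rw [hk] at h
  nlinarith [mul_le_mul_of_nonneg_left hk1 (sq_nonneg (p : ℤ)), sq_nonneg y]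

theorem case1 {j : ℕ} (hpj : p = 8 * j + 1) (hp5 : 5 < p) {x y : ℤ}
    (h : (p : ℤ) = x ^ 2 + 2 * y ^ 2) (hx : x % 4 = 1) :
    I p 2 (Sp p - (2 * x - p / (2 * x))) := by
  have hn : p = 2 * (4 * j) + 1 := by omega
  have hS := S_closed (p := p) (n := 4 * j) (c := 1) (j := j) hn (by omega) (by omega)
  have hK := K1_eq (p := p) hpj
  have hu : U p (b j) := b_unit hn (by omega)
  have hUb := UU_b (p := p) (n := 4 * j) (c := 1) (j := j) hn (by omega)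
  have hUU : U p (UU p (4 * j) 1 j) := hUb.symm.unit one_pos hu
  have hKu : ¬ (p : ℤ) ∣ K1 p j := by
    rintro ⟨c, hc⟩
    apply hUU.not_I one_pos
    have e : UU p (4 * j) 1 j = UU p (4 * j) 1 j - (-((K1 p j : ℤ) : ℚ)) + -((K1 p j : ℤ) : ℚ) := by
      ring
    rw [e]
    refine (hK.symm.2.2.mono (by norm_num)).add ⟨-(c : ℚ), neg_mem (int_mem c), ?_⟩
    rw [hc]; push_cast; ring
  obtain ⟨A, B, r, hr, hAB, hA4, hJ⟩ := K1_main (p := p) hpj
  obtain ⟨hL, hE⟩ := Pool.Agent.R488.Cub.Jac.endgame (p : ℤ) pz (2 * A) (A + B * r) (A - B * r)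
    (K1 p j) hJ ⟨0, by ring⟩ (by
      obtain ⟨c, hc⟩ := hr
      exact ⟨-B ^ 2 * c, by linear_combination hAB - B ^ 2 * hc⟩) hKu
  have hAx : A = -x := by
    rcases uniq2 (p := p) h hAB.symm with h1 | h1 <;> omega
  rw [hAx] at hE hL
  obtain ⟨e, he⟩ := hE
  have u2 : U p (((2 * x : ℤ)) : ℚ) := U_int fun hd => hL (by
    have : 2 * -x = -(2 * x) := by ring
    rw [this]; exact (dvd_neg).2 hd)
  have u2' : U p (2 * (x : ℚ)) := by push_cast at u2; exact u2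
  have h3 : I p 2 (-((K1 p j : ℤ) : ℚ) - (2 * x - p / (2 * x))) := by
    apply U.cancel u2'
    have he' : 2 * -(x : ℚ) * ((K1 p j : ℤ) : ℚ) - (2 * -(x : ℚ)) ^ 2 + p = (p : ℚ) ^ 2 * e := by
      exact_mod_cast he
    refine ⟨e, int_mem e, ?_⟩
    rw [← he']
    have hx0 : (x : ℚ) ≠ 0 := fun h0 => u2'.1 (by rw [h0, mul_zero])
    field_simp
    ring
  have h4 := hS.trans hK.symm
  have e : Sp p - (2 * x - p / (2 * x)) = Sp p - (-((K1 p j : ℤ) : ℚ)) +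
    (-((K1 p j : ℤ) : ℚ) - (2 * x - p / (2 * x))) := by ring
  rw [e]
  exact h4.2.2.add h3

theorem pm {A B X Y : ℤ} (h2 : p ≠ 2) (hA : A ^ 2 + 2 * B ^ 2 = (p : ℤ) ^ 2)
    (hX : X ^ 2 + 2 * Y ^ 2 = (p : ℤ) ^ 2) (hpA : ¬ (p : ℤ) ∣ A) (hpX : ¬ (p : ℤ) ∣ X) :
    A = X ∨ A = -X := by
  have hpz : Prime (p : ℤ) := Nat.prime_iff_prime_int.1 hp.out
  have hp0 : (0 : ℤ) < p := by exact_mod_cast hp.out.pos
  have hp2 : ¬ (p : ℤ) ∣ 2 := by
    intro h
    have : p ∣ 2 := by exact_mod_cast h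
    exact h2 ((Nat.prime_dvd_prime_iff_eq hp.out Nat.prime_two).1 this)
  have hpY : ¬ (p : ℤ) ∣ Y := by
    rintro ⟨k, hk⟩
    apply hpX
    apply hpz.dvd_of_dvd_pow (n := 2)
    exact ⟨p - 2 * Y * k, by linear_combination hX + (-2 * Y) * hk⟩
  have hDE : (A * Y - B * X) * (A * Y + B * X) = (p : ℤ) ^ 2 * (Y ^ 2 - B ^ 2) := by
    linear_combination Y ^ 2 * hA - B ^ 2 * hX
  have key : ∀ D E : ℤ, E ^ 2 + 2 * D ^ 2 = (p : ℤ) ^ 4 → (p : ℤ) ^ 2 ∣ D → D = 0 := by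
    intro D E hE hD
    obtain ⟨k, rfl⟩ := hD
    by_contra hne
    have hk : k ≠ 0 := by rintro rfl; exact hne (mul_zero _)
    have hk1 : 1 ≤ k ^ 2 := by
      have := sq_pos_of_ne_zero (a := k) hk
      omega
    have h4 : (0 : ℤ) < (p : ℤ) ^ 4 := by positivity
    nlinarith [mul_le_mul_of_nonneg_left hk1 h4.le, sq_nonneg E]
  have h0 : (A * Y - B * X) * (A * Y + B * X) = 0 := by
    by_cases hD : (p : ℤ) ∣ A * Y - B * X
    · by_cases hE : (p : ℤ) ∣ A * Y + B * X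
      · exfalso
        have h3 : (p : ℤ) ∣ 2 * (A * Y) := by
          have := dvd_add hD hE
          have e : A * Y - B * X + (A * Y + B * X) = 2 * (A * Y) := by ring
          rwa [e] at this
        rcases hpz.dvd_or_dvd h3 with h4 | h4
        · exact hp2 h4
        · rcases hpz.dvd_or_dvd h4 with h5 | h5
          · exact hpA h5
          · exact hpY h5
      · have hco : IsCoprime ((p : ℤ) ^ 2) (A * Y + B * X) :=
          (hpz.coprime_iff_not_dvd.2 hE).pow_left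
        have h3 : (p : ℤ) ^ 2 ∣ A * Y - B * X :=
          hco.dvd_of_dvd_mul_right ⟨_, hDE⟩
        rw [key (A * Y - B * X) (A * X + 2 * (B * Y))
          (by linear_combination (X ^ 2 + 2 * Y ^ 2) * hA + (p : ℤ) ^ 2 * hX) h3, zero_mul]
    · have hco : IsCoprime ((p : ℤ) ^ 2) (A * Y - B * X) :=
        (hpz.coprime_iff_not_dvd.2 hD).pow_left
      have h3 : (p : ℤ) ^ 2 ∣ A * Y + B * X :=
        hco.dvd_of_dvd_mul_left ⟨_, hDE⟩
      rw [key (A * Y + B * X) (A * X - 2 * (B * Y))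
        (by linear_combination (X ^ 2 + 2 * Y ^ 2) * hA + (p : ℤ) ^ 2 * hX) h3, mul_zero]
  rw [hDE] at h0
  have h1 : Y ^ 2 - B ^ 2 = 0 := (mul_eq_zero.1 h0).resolve_left (by positivity)
  have h3 : A ^ 2 = X ^ 2 := by linear_combination hA - hX + 2 * h1
  exact sq_eq_sq_iff_eq_or_eq_neg.mp h3

theorem case3 {t : ℕ} (hpt : p = 8 * t + 3) (hp5 : 5 < p) {x y : ℤ}
    (h : (p : ℤ) = x ^ 2 + 2 * y ^ 2) (hx : x % 4 = 1) :
    I p 2 (Sp p - (2 * x - p / (2 * x))) := by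
  have ht : 0 < t := by omega
  have h2 : p ≠ 2 := by omega
  have hpz : Prime (p : ℤ) := Nat.prime_iff_prime_int.1 hp.out
  have hn : p = 2 * (4 * t + 1) + 1 := by omega
  obtain ⟨j, hj⟩ : ∃ j, j = 3 * t + 1 := ⟨_, rfl⟩
  have hS := S_closed (p := p) (n := 4 * t + 1) (c := 3) (j := j) hn (by omega) (by omega)
  have hK := K3_eq (p := p) hpt ht
  rw [← hj] at hK
  have hu : U p (b j) := b_unit hn (by omega)
  have hUb := UU_b (p := p) (n := 4 * t + 1) (c := 3) (j := j) hn (by omega)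
  obtain ⟨V, hV⟩ : ∃ V, V = UU p (4 * t + 1) 3 j := ⟨_, rfl⟩
  rw [← hV] at hS hK hUb
  have hVu : U p V := hUb.symm.unit one_pos hu
  have hKu : ¬ (p : ℤ) ∣ K3 p t := by
    rintro ⟨c, hc⟩
    apply (hVu.pow 2).not_I one_pos
    have e : V ^ 2 = V ^ 2 - ((K3 p t : ℤ) : ℚ) + ((K3 p t : ℤ) : ℚ) := by ring
    rw [e]
    refine (hK.symm.2.2.mono (by norm_num)).add ⟨(c : ℚ), (int_mem c), ?_⟩
    rw [hc]; push_cast; ring
  obtain ⟨A, B, hAB, hKA⟩ := K3_main (p := p) hpt ht hKu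
  have hpx := x_unit h hx hp5
  have hp2' : ¬ (p : ℤ) ∣ 2 := by
    intro h
    have : p ∣ 2 := by exact_mod_cast h
    exact h2 ((Nat.prime_dvd_prime_iff_eq hp.out Nat.prime_two).1 this)
  -- `K3 16^j = C^2` modulo `p`
  obtain ⟨C, hC⟩ : ∃ C : ℕ, C = (2 * j).choose j := ⟨_, rfl⟩
  have hbC := b_choose j
  rw [← hC] at hbC
  have hKC : (p : ℤ) ∣ K3 p t * 16 ^ j - (C : ℤ) ^ 2 := by
    apply int_dvd
    have h3 := ((hK.mono (by norm_num : 1 ≤ 2)).trans (hUb.pow 2)).mul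
      (EQ.refl (p := p) (k := 1) (pow_mem (nat_mem 16) j))
    have h4 := h3.2.2
    have e : ((K3 p t : ℤ) : ℚ) * ((16 : ℕ) : ℚ) ^ j - b j ^ 2 * ((16 : ℕ) : ℚ) ^ j =
        ((K3 p t * 16 ^ j - (C : ℤ) ^ 2 : ℤ) : ℚ) := by
      push_cast
      rw [← hbC]
      have : (16 : ℚ) ^ j = 4 ^ j * 4 ^ j := by rw [← mul_pow]; norm_num
      rw [this]; ring
    rwa [e] at h4
  -- `A = ± (2x² - p)`
  have hpA : ¬ (p : ℤ) ∣ A := by
    rintro ⟨k, hk⟩
    obtain ⟨l, hl⟩ := hKA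
    exact hKu ⟨2 * k + p * l, by linear_combination hl + 2 * hk⟩
  have hpX : ¬ (p : ℤ) ∣ 2 * x ^ 2 - p := by
    intro hd
    have h3 : (p : ℤ) ∣ 2 * x ^ 2 := by
      have := dvd_add hd (dvd_refl (p : ℤ))
      rwa [sub_add_cancel] at this
    rcases hpz.dvd_or_dvd h3 with h4 | h4
    · exact hp2' h4
    · exact hpx (hpz.dvd_of_dvd_pow h4)
  have h4j : ¬ (p : ℤ) ∣ 2 * x * 4 ^ j := by
    intro hd
    rcases hpz.dvd_or_dvd hd with h4 | h4
    · rcases hpz.dvd_or_dvd h4 with h5 | h5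
      · exact hp2' h5
      · exact hpx h5
    · have h5 := hpz.dvd_of_dvd_pow h4
      have h6 : (4 : ℤ) = 2 * 2 := by norm_num
      rw [h6] at h5
      rcases hpz.dvd_or_dvd h5 with h7 | h7 <;> exact hp2' h7
  have hAX : A = 2 * x ^ 2 - p := by
    rcases pm h2 hAB (Y := 2 * (x * y)) (X := 2 * x ^ 2 - p)
      (by linear_combination (-4 * x ^ 2) * h) hpA hpX with h3 | h3
    · exact h3
    · exfalso
      obtain ⟨l, hl⟩ := hKA
      obtain ⟨m, hm⟩ := hKC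
      have h5 : ((C : ℤ) : ZMod p) ^ 2 = -((2 * x * 4 ^ j : ℤ) : ZMod p) ^ 2 := by
        have h6 : (((C : ℤ) ^ 2 + (2 * x * 4 ^ j) ^ 2 : ℤ) : ZMod p) = 0 := by
          rw [ZMod.intCast_zmod_eq_zero_iff_dvd]
          have e16 : (16 : ℤ) ^ j = 4 ^ j * 4 ^ j := by rw [← mul_pow]; norm_num
          exact ⟨p * l * 16 ^ j + 2 * 16 ^ j - m, by
            rw [h3] at hl
            linear_combination 16 ^ j * hl - hm - (4 * x ^ 2) * e16⟩
        push_cast at h6 ⊢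
        linear_combination h6
      have h7 : ((2 * x * 4 ^ j : ℤ) : ZMod p) ≠ 0 := by
        intro h8
        rw [ZMod.intCast_zmod_eq_zero_iff_dvd] at h8
        exact h4j h8
      exact ZMod.mod_four_ne_three_of_sq_eq_neg_sq' h7 h5 (by omega)
  rw [hAX] at hKA
  -- sign
  have hCx : (p : ℤ) ∣ (C : ℤ) - 2 * x * 4 ^ j := by
    obtain ⟨l, hl⟩ := hKA
    obtain ⟨m, hm⟩ := hKC
    have e16 : (16 : ℤ) ^ j = 4 ^ j * 4 ^ j := by rw [← mul_pow]; norm_num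
    have h3 : (p : ℤ) ∣ ((C : ℤ) - 2 * x * 4 ^ j) * ((C : ℤ) + 2 * x * 4 ^ j) :=
      ⟨p * l * 16 ^ j - 2 * 16 ^ j - m, by
        linear_combination 16 ^ j * hl - hm + (4 * x ^ 2) * e16⟩
    rcases hpz.dvd_or_dvd h3 with h4 | h4
    · exact h4
    · exfalso
      rw [← ZMod.intCast_zmod_eq_zero_iff_dvd] at h4
      push_cast at h4
      have h5 : ((C : ℕ) : ZMod p) = (-1) * 2 * (x : ZMod p) * (2 ^ j) ^ 2 := by
        have e4 : (4 : ZMod p) ^ j = (2 ^ j) ^ 2 := by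
          rw [← pow_mul, mul_comm, pow_mul]; norm_num
        rw [← e4]
        linear_combination h4
      have h6 := congrArg (quadraticChar (ZMod p)) h5
      obtain ⟨c2, -, cm1⟩ := char_two hpt
      have h20 : (2 : ZMod p) ^ j ≠ 0 := by
        apply pow_ne_zero
        intro h0
        have : ((2 : ℤ) : ZMod p) = 0 := by exact_mod_cast h0
        rw [ZMod.intCast_zmod_eq_zero_iff_dvd] at this
        exact hp2' this
      rw [map_mul, map_mul, map_mul, cm1, c2, leg_x hpt h hx, quadraticChar_sq_one' h20, hC, hj,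
        char_choose hpt, pow_succ] at h6
      rcases neg_one_pow_eq_or ℤ t with h7 | h7 <;> rw [h7] at h6 <;> norm_num at h6
  have u4 : U p ((4 : ℚ) ^ j) := by
    have := ((U2 (p := p) h2).mul (U2 h2)).pow j
    norm_num at this
    exact this
  have hb2x : EQ p 1 (b j) (2 * x) := by
    refine ⟨hu.2.1, mul_mem (U2 h2).2.1 (int_mem x), ?_⟩
    apply U.cancel u4
    obtain ⟨m, hm⟩ := hCx
    refine ⟨m, int_mem m, ?_⟩
    have hm' : (C : ℚ) - 2 * x * 4 ^ j = p * m := by exact_mod_cast hm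
    rw [pow_one, ← hm', ← hbC]
    ring
  have hVx := hUb.trans hb2x
  have u2x : U p (2 * (x : ℚ)) := (U2 h2).mul (U_int hpx)
  obtain ⟨Wv, hWv⟩ : ∃ Wv : ℚ, Wv = 2 * x - p / (2 * x) := ⟨_, rfl⟩
  rw [← hWv]
  have hWx : EQ p 1 Wv (2 * x) := by
    have hm : (p : ℚ) / (2 * x) ∈ Zp p := by
      rw [div_eq_mul_inv]; exact mul_mem p_mem u2x.2.2
    refine ⟨by rw [hWv]; exact sub_mem u2x.2.1 hm, u2x.2.1, -(2 * (x : ℚ))⁻¹, neg_mem u2x.2.2, ?_⟩
    rw [hWv, div_eq_mul_inv]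
    ring
  have hW2 : I p 2 (Wv ^ 2 - (4 * x ^ 2 - 2 * p)) := by
    refine ⟨(2 * (x : ℚ))⁻¹ ^ 2, pow_mem u2x.2.2 2, ?_⟩
    rw [hWv]
    have hx0 : (x : ℚ) ≠ 0 := fun h0 => u2x.1 (by rw [h0, mul_zero])
    field_simp
    ring
  have hV2 : I p 2 (V ^ 2 - (4 * x ^ 2 - 2 * p)) := by
    obtain ⟨l, hl⟩ := hKA
    have h3 : ((K3 p t : ℤ) : ℚ) - 2 * (2 * x ^ 2 - p) = p ^ 2 * l := by exact_mod_cast hl
    have e : V ^ 2 - (4 * x ^ 2 - 2 * p) = -(((K3 p t : ℤ) : ℚ) - V ^ 2) + p ^ 2 * l := by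
      rw [← h3]; ring
    rw [e]
    exact hK.2.2.neg.add ⟨l, int_mem l, rfl⟩
  have hsum : U p (V + Wv) := by
    have h3 := (hVx.add hWx).symm
    refine h3.unit one_pos ?_
    have e : 2 * (x : ℚ) + 2 * x = 2 * (2 * x) := by ring
    rw [e]
    exact (U2 h2).mul u2x
  have h5 : I p 2 (V - Wv) := by
    apply hsum.cancel
    have e : (V + Wv) * (V - Wv) = (V ^ 2 - (4 * x ^ 2 - 2 * p)) - (Wv ^ 2 - (4 * x ^ 2 - 2 * p)) := by
      ring
    rw [e]
    exact hV2.sub hW2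
  have e : Sp p - Wv = Sp p - V + (V - Wv) := by ring
  rw [e]
  exact hS.2.2.add h5

theorem num_of_I {k : ℕ} {x : ℚ} (h : I p k x) : (p : ℤ) ^ k ∣ x.num := by
  obtain ⟨y, ⟨a, b, hb, rfl⟩, rfl⟩ := h
  have hb0 : (b : ℚ) ≠ 0 := by
    intro h0; apply hb; have : b = 0 := by exact_mod_cast h0
    rw [this]; exact dvd_zero _
  obtain ⟨z, hz⟩ : ∃ z : ℚ, z = (p : ℚ) ^ k * (a / b) := ⟨_, rfl⟩
  rw [← hz]
  have h1 : z * b = (p : ℚ) ^ k * a := by
    rw [hz]; field_simp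
  have hzd : (z.den : ℚ) ≠ 0 := by exact_mod_cast z.den_nz
  have h2 : (z.num : ℚ) = z * z.den := (Rat.mul_den_eq_num z).symm
  have h3 : z.num * b = (p : ℤ) ^ k * a * z.den := by
    have : (z.num : ℚ) * b = (p : ℚ) ^ k * a * z.den := by
      rw [h2]; linear_combination (z.den : ℚ) * h1
    exact_mod_cast this
  have h4 : (p : ℤ) ^ k ∣ z.num * b := ⟨a * z.den, by rw [h3]; ring⟩
  have hco : IsCoprime ((p : ℤ) ^ k) b := ((pz (p := p)).coprime_iff_not_dvd.2 hb).pow_left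
  exact hco.dvd_of_dvd_mul_right h4

end Pool.Agent.K1H59.SC
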